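import Pool.Agent.Y184.HS.Hirz

/-! The blow-up of a Hirzebruch surface. -/

set_option autoImplicit false
set_option linter.unusedSectionVars false

open scoped Manifold ContDiff Topology ComplexConjugate
open Filter Set

namespace Pool.Agent.Y184.HS

section General

variable {n k : ℕ} {F : Type} [Fintype F] {ν : F → Fin n → ℤ} {κ : F → ℝ}

/-- Maps to the toric manifold which are given by analytic homogeneous coordinates. -/
theorem contMDiffAt_mk (h : IsDelzant ν κ) {g : (Fin k → ℂ) → Tor ν κ}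
    {f : (Fin k → ℂ) → F → ℂ} {w : Fin k → ℂ} (hf : AnalyticAt ℂ f w)
    (hg : ∀ᶠ y in 𝓝 w, ∃ h0 : f y ∈ Om ν κ, g y = Tor.mk ν κ ⟨f y, h0⟩) :
    @ContMDiffAt ℂ _ (Fin k → ℂ) _ _ (Fin k → ℂ) _ 𝓘(ℂ, Fin k → ℂ) (Fin k → ℂ) _ _
      (Fin n → ℂ) _ _ (Fin n → ℂ) _ 𝓘(ℂ, Fin n → ℂ) (Tor ν κ) _ (torCharted h) ω g w := by
  let := torCharted h
  have := isManifold_tor h
  obtain ⟨h0, hgw⟩ := hg.self_of_nhds
  obtain ⟨V, hV⟩ := h.exists_vtx h0
  have h1 : ∀ᶠ y in 𝓝 w, ∀ i, i ∉ Set.range V.s → f y i ≠ 0 := by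
    rw [eventually_all]
    intro i
    by_cases hi : i ∈ Set.range V.s
    · exact Eventually.of_forall fun _ h => absurd hi h
    · have h2 : ContinuousAt (fun y => f y i) w :=
        (continuous_apply i).continuousAt.comp hf.continuousAt
      exact (h2.eventually_ne (hV i hi)).mono fun t h4 _ => h4
  have h2 : g =ᶠ[𝓝 w] fun y => (chart V).symm (V.cor (f y)) := by
    filter_upwards [hg, h1] with y ⟨hy, hy'⟩ hy1
    rw [hy', ← chart_mk V ⟨f y, hy⟩, (chart V).left_inv]
    exact (mk_mem_source V _).2 hy1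
  have h3 : AnalyticAt ℂ (fun y => V.cor (f y)) w := by
    rw [analyticAt_pi_iff] at hf ⊢
    intro l
    unfold Vtx.cor
    refine Finset.analyticAt_fun_prod _ fun i _ => ?_
    by_cases hi : i ∈ Set.range V.s
    · obtain ⟨j, rfl⟩ := hi
      rw [V.E_s]
      split_ifs
      · simpa using hf (V.s j)
      · simpa using analyticAt_const
    · exact (hf i).fun_zpow (hV i hi)
  have h4 : ContMDiffAt 𝓘(ℂ, Fin n → ℂ) 𝓘(ℂ, Fin n → ℂ) ω (chart V).symm (V.cor (f w)) :=
    contMDiffAt_symm_of_mem_maximalAtlas (IsManifold.subset_maximalAtlas ⟨V, rfl⟩)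
      (Set.mem_univ _)
  refine ContMDiffAt.congr_of_eventuallyEq ?_ h2
  exact ContMDiffAt.comp w h4 (contMDiffAt_iff_contDiffAt.2 h3.contDiffAt)

/-- Maps from the toric manifold. -/
theorem contMDiffAt_desc {n' : ℕ} {F' : Type} [Fintype F'] {ν' : F' → Fin n' → ℤ} {κ' : F' → ℝ}
    (h : IsDelzant ν κ) (h' : IsDelzant ν' κ') {Φ : Tor ν κ → Tor ν' κ'} (V : Vtx ν κ)
    {q : Tor ν κ} (hq : q ∈ (chart V).source)
    {f : (Fin n → ℂ) → F' → ℂ} (hf : AnalyticAt ℂ f (chart V q))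
    (hg : ∀ᶠ y in 𝓝 (chart V q), ∃ h0 : f y ∈ Om ν' κ',
      Φ ((chart V).symm y) = Tor.mk ν' κ' ⟨f y, h0⟩) :
    @ContMDiffAt ℂ _ (Fin n → ℂ) _ _ (Fin n → ℂ) _ 𝓘(ℂ, Fin n → ℂ) (Tor ν κ) _ (torCharted h)
      (Fin n' → ℂ) _ _ (Fin n' → ℂ) _ 𝓘(ℂ, Fin n' → ℂ) (Tor ν' κ') _ (torCharted h') ω Φ q := by
  let := torCharted h
  let := torCharted h'
  have := isManifold_tor h
  have := isManifold_tor h'
  have h1 := contMDiffAt_mk (k := n) h' (g := fun y => Φ ((chart V).symm y)) hf hg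
  have h2 : ContMDiffAt 𝓘(ℂ, Fin n → ℂ) 𝓘(ℂ, Fin n → ℂ) ω (chart V) q :=
    contMDiffAt_of_mem_maximalAtlas (IsManifold.subset_maximalAtlas ⟨V, rfl⟩) hq
  have h3 := ContMDiffAt.comp q h1 h2
  refine h3.congr_of_eventuallyEq ?_
  filter_upwards [(chart V).open_source.mem_nhds hq] with y hy
  simp only [Function.comp_apply]
  rw [(chart V).left_inv hy]

end General

/-! ### Homogeneous coordinates -/

/-- The homogeneous coordinates of Hirzebruch surfaces. -/
theorem mem_OmH (m : ℕ) (z : Fin 4 → ℂ) : z ∈ Om (nuH m) kaH ↔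
    (z 0 ≠ 0 ∨ z 2 ≠ 0) ∧ (z 1 ≠ 0 ∨ z 3 ≠ 0) := by
  constructor
  · rintro ⟨x, hx, h⟩
    obtain ⟨e0, e1, e2, e3⟩ := ellH m x
    rw [mem_polyH] at hx
    obtain ⟨h0, h1, h2, h3⟩ := hx
    constructor
    · by_contra hc
      push Not at hc
      have g0 := h 0 hc.1
      have g2 := h 2 hc.2
      rw [e0] at g0
      rw [e2] at g2
      have : (0 : ℝ) ≤ m * x 1 := by positivity
      linarith
    · by_contra hc
      push Not at hc
      have g0 := h 1 hc.1
      have g2 := h 3 hc.2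
      rw [e1] at g0
      rw [e3] at g2
      linarith
  · rintro ⟨h0 | h0, h1 | h1⟩
    · refine ⟨_, (isVH23 m).1, fun i hi => ((isVH23 m).2.1 i).2 ?_⟩
      rw [range_two]
      fin_cases i
      · exact absurd hi h0
      · exact absurd hi h1
      · simp
      · simp
    · refine ⟨_, (isVH12 m).1, fun i hi => ((isVH12 m).2.1 i).2 ?_⟩
      rw [range_two]
      fin_cases i
      · exact absurd hi h0
      · simp
      · simp
      · exact absurd hi h1
    · refine ⟨_, (isVH03 m).1, fun i hi => ((isVH03 m).2.1 i).2 ?_⟩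
      rw [range_two]
      fin_cases i
      · simp
      · exact absurd hi h1
      · exact absurd hi h0
      · simp
    · refine ⟨_, (isVH01 m).1, fun i hi => ((isVH01 m).2.1 i).2 ?_⟩
      rw [range_two]
      fin_cases i
      · simp
      · simp
      · exact absurd hi h0
      · exact absurd hi h1

theorem mem_OmB (m : ℕ) (z : Fin 5 → ℂ) : z ∈ Om (nuB m) kaB ↔
    (z 0 ≠ 0 ∨ z 2 ≠ 0) ∧ (z 1 ≠ 0 ∨ z 3 ≠ 0) ∧ (z 0 ≠ 0 ∨ z 1 ≠ 0) ∧ (z 2 ≠ 0 ∨ z 4 ≠ 0) ∧
      (z 3 ≠ 0 ∨ z 4 ≠ 0) := by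
  constructor
  · rintro ⟨x, hx, h⟩
    obtain ⟨e0, e1, e2, e3, e4⟩ := ellB m x
    rw [mem_polyB] at hx
    obtain ⟨h0, h1, h2, h3, h4⟩ := hx
    have hm : (0 : ℝ) ≤ m * x 1 := by positivity
    refine ⟨?_, ?_, ?_, ?_, ?_⟩
    · by_contra hc
      push Not at hc
      have g0 := h 0 hc.1
      have g2 := h 2 hc.2
      rw [e0] at g0
      rw [e2] at g2
      linarith
    · by_contra hc
      push Not at hc
      have g0 := h 1 hc.1
      have g2 := h 3 hc.2
      rw [e1] at g0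
      rw [e3] at g2
      linarith
    · by_contra hc
      push Not at hc
      have g0 := h 0 hc.1
      have g2 := h 1 hc.2
      rw [e0] at g0
      rw [e1] at g2
      linarith
    · by_contra hc
      push Not at hc
      have g0 := h 2 hc.1
      have g2 := h 4 hc.2
      rw [e2] at g0
      rw [e4] at g2
      linarith
    · by_contra hc
      push Not at hc
      have g0 := h 3 hc.1
      have g2 := h 4 hc.2
      rw [e3] at g0
      rw [e4] at g2
      linarith
  · rintro ⟨c02, c13, c01, c24, c34⟩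
    by_cases z0 : z 0 = 0
    · have z1 : z 1 ≠ 0 := c01.resolve_left fun h => h z0
      have z2 : z 2 ≠ 0 := c02.resolve_left fun h => h z0
      by_cases z4 : z 4 = 0
      · have z3 : z 3 ≠ 0 := c34.resolve_right fun h => h z4
        refine ⟨_, (isVB04 m).1, fun i hi => ((isVB04 m).2.1 i).2 ?_⟩
        rw [range_two]
        fin_cases i
        · simp
        · exact absurd hi z1
        · exact absurd hi z2
        · exact absurd hi z3
        · simp
      · refine ⟨_, (isVB03 m).1, fun i hi => ((isVB03 m).2.1 i).2 ?_⟩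
        rw [range_two]
        fin_cases i
        · simp
        · exact absurd hi z1
        · exact absurd hi z2
        · simp
        · exact absurd hi z4
    · by_cases z1 : z 1 = 0
      · have z3 : z 3 ≠ 0 := c13.resolve_left fun h => h z1
        by_cases z4 : z 4 = 0
        · have z2 : z 2 ≠ 0 := c24.resolve_right fun h => h z4
          refine ⟨_, (isVB41 m).1, fun i hi => ((isVB41 m).2.1 i).2 ?_⟩
          rw [range_two]
          fin_cases i
          · exact absurd hi z0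
          · simp
          · exact absurd hi z2
          · exact absurd hi z3
          · simp
        · refine ⟨_, (isVB12 m).1, fun i hi => ((isVB12 m).2.1 i).2 ?_⟩
          rw [range_two]
          fin_cases i
          · exact absurd hi z0
          · simp
          · simp
          · exact absurd hi z3
          · exact absurd hi z4
      · by_cases z4 : z 4 = 0
        · have z2 : z 2 ≠ 0 := c24.resolve_right fun h => h z4
          have z3 : z 3 ≠ 0 := c34.resolve_right fun h => h z4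
          refine ⟨_, (isVB04 m).1, fun i hi => ((isVB04 m).2.1 i).2 ?_⟩
          rw [range_two]
          fin_cases i
          · simp
          · exact absurd hi z1
          · exact absurd hi z2
          · exact absurd hi z3
          · simp
        · refine ⟨_, (isVB23 m).1, fun i hi => ((isVB23 m).2.1 i).2 ?_⟩
          rw [range_two]
          fin_cases i
          · exact absurd hi z0
          · exact absurd hi z1
          · simp
          · simp
          · exact absurd hi z4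

theorem prodH (m : ℕ) (g : Fin 4 → ℂ) : (∏ i, g i ^ nuH m i 0) = g 0 * (g 2)⁻¹ ∧
    (∏ i, g i ^ nuH m i 1) = g 1 * g 2 ^ m * (g 3)⁻¹ := by
  simp [Fin.prod_univ_four, nuH]

theorem prodB (m : ℕ) (g : Fin 5 → ℂ) : (∏ i, g i ^ nuB m i 0) = g 0 * (g 2)⁻¹ * g 4 ∧
    (∏ i, g i ^ nuB m i 1) = g 1 * g 2 ^ m * (g 3)⁻¹ * g 4 := by
  simp [Fin.prod_univ_five, nuB]

/-- The equivalence relation of the homogeneous coordinates of Hirzebruch surfaces. -/
theorem rel_H (m : ℕ) (z w : Fin 4 → ℂ) : Rel (nuH m) z w ↔ ∃ a b : ℂ, a ≠ 0 ∧ b ≠ 0 ∧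
    w 0 = a * z 0 ∧ w 1 = b * z 1 ∧ w 2 = a * z 2 ∧ w 3 = a ^ m * b * z 3 := by
  constructor
  · rintro ⟨g, h0, h1, h2⟩
    have e1 := h1 0
    have e2 := h1 1
    rw [(prodH m g).1] at e1
    rw [(prodH m g).2] at e2
    have e1' : g 2 = g 0 := by
      field_simp [h0 2] at e1
      exact e1.symm
    have e2' : g 3 = g 0 ^ m * g 1 := by
      field_simp [h0 3] at e2
      rw [← e2, e1']
      ring
    exact ⟨g 0, g 1, h0 0, h0 1, h2 0, h2 1, e1' ▸ h2 2, e2' ▸ h2 3⟩
  · rintro ⟨a, b, ha, hb, h0, h1, h2, h3⟩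
    refine ⟨![a, b, a, a ^ m * b], ?_, ?_, ?_⟩
    · intro i
      fin_cases i
      · exact ha
      · exact hb
      · exact ha
      · exact mul_ne_zero (pow_ne_zero _ ha) hb
    · intro k
      fin_cases k
      · refine (prodH m _).1.trans ?_
        simp [ha]
      · refine (prodH m _).2.trans ?_
        simp
        field_simp
    · intro i
      fin_cases i
      · exact h0
      · exact h1
      · exact h2
      · exact h3

/-- The blow-down in homogeneous coordinates. -/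
def PB (z : Fin 5 → ℂ) : Fin 4 → ℂ := ![z 0 * z 4, z 1 * z 4, z 2, z 3]

/-- Its inverse in homogeneous coordinates. -/
def RB (z : Fin 4 → ℂ) : Fin 5 → ℂ := ![z 0, z 1, z 2, z 3, 1]

theorem PB_mem {m : ℕ} {z : Fin 5 → ℂ} (hz : z ∈ Om (nuB m) kaB) : PB z ∈ Om (nuH m) kaH := by
  rw [mem_OmB] at hz
  rw [mem_OmH]
  simp only [PB, Matrix.cons_val]
  obtain ⟨c02, c13, c01, c24, c34⟩ := hz
  constructor
  · by_cases h : z 2 = 0
    · exact Or.inl (mul_ne_zero (c02.resolve_right fun h' => h' h)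
        (c24.resolve_left fun h' => h' h))
    · exact Or.inr h
  · by_cases h : z 3 = 0
    · exact Or.inl (mul_ne_zero (c13.resolve_right fun h' => h' h)
        (c34.resolve_left fun h' => h' h))
    · exact Or.inr h

theorem RB_mem {m : ℕ} {z : Fin 4 → ℂ} (hz : z ∈ Om (nuH m) kaH) (h : z 0 ≠ 0 ∨ z 1 ≠ 0) :
    RB z ∈ Om (nuB m) kaB := by
  rw [mem_OmH] at hz
  rw [mem_OmB]
  simp only [RB, Matrix.cons_val]
  exact ⟨hz.1, hz.2, h, Or.inr one_ne_zero, Or.inr one_ne_zero⟩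

theorem PB_rel {m : ℕ} {z w : Fin 5 → ℂ} (h : Rel (nuB m) z w) : Rel (nuH m) (PB z) (PB w) := by
  obtain ⟨g, h0, h1, h2⟩ := h
  have e1 := h1 0
  have e2 := h1 1
  rw [(prodB m g).1] at e1
  rw [(prodB m g).2] at e2
  refine ⟨PB g, ?_, ?_, ?_⟩
  · intro i
    fin_cases i
    · exact mul_ne_zero (h0 0) (h0 4)
    · exact mul_ne_zero (h0 1) (h0 4)
    · exact h0 2
    · exact h0 3
  · intro k
    fin_cases k
    · refine (prodH m _).1.trans ?_
      rw [← e1]
      simp only [PB, Matrix.cons_val]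
      ring
    · refine (prodH m _).2.trans ?_
      rw [← e2]
      simp only [PB, Matrix.cons_val]
      ring
  · intro i
    fin_cases i
    · simp only [PB, h2]
      simp
      ring
    · simp only [PB, h2]
      simp
      ring
    · simp [PB, h2]
    · simp [PB, h2]

theorem RB_rel {m : ℕ} {z w : Fin 4 → ℂ} (h : Rel (nuH m) z w) : Rel (nuB m) (RB z) (RB w) := by
  obtain ⟨g, h0, h1, h2⟩ := h
  have e1 := h1 0
  have e2 := h1 1
  rw [(prodH m g).1] at e1
  rw [(prodH m g).2] at e2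
  refine ⟨RB g, ?_, ?_, ?_⟩
  · intro i
    fin_cases i
    · exact h0 0
    · exact h0 1
    · exact h0 2
    · exact h0 3
    · exact one_ne_zero
  · intro k
    fin_cases k
    · refine (prodB m _).1.trans ?_
      rw [← e1]
      simp only [RB, Matrix.cons_val]
      ring
    · refine (prodB m _).2.trans ?_
      rw [← e2]
      simp only [RB, Matrix.cons_val]
      ring
  · intro i
    fin_cases i <;> simp [RB, h2]

/-- The blow-down. -/
noncomputable def blowDown (m : ℕ) : Tor (nuB m) kaB → Tor (nuH m) kaH :=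
  Quotient.lift (fun z : Om (nuB m) kaB => Tor.mk (nuH m) kaH ⟨PB z, PB_mem z.2⟩)
    fun _ _ h => mk_eq.2 (PB_rel h)

theorem blowDown_mk (m : ℕ) (z : Om (nuB m) kaB) :
    blowDown m (Tor.mk _ _ z) = Tor.mk (nuH m) kaH ⟨PB z, PB_mem z.2⟩ := rfl

open Classical in
/-- The inverse of the blow-down. -/
noncomputable def blowUp (m : ℕ) : Tor (nuH m) kaH → Tor (nuB m) kaB :=
  Quotient.lift (fun z : Om (nuH m) kaH =>
    if h : (z : Fin 4 → ℂ) 0 ≠ 0 ∨ (z : Fin 4 → ℂ) 1 ≠ 0 then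
      Tor.mk (nuB m) kaB ⟨RB z, RB_mem z.2 h⟩
    else Tor.mk (nuB m) kaB ⟨fun _ => 1, by rw [mem_OmB]; simp⟩)
    fun z w h => by
      have h' : Rel (nuH m) (z : Fin 4 → ℂ) w := h
      by_cases hz : (z : Fin 4 → ℂ) 0 ≠ 0 ∨ (z : Fin 4 → ℂ) 1 ≠ 0
      · have hw : (w : Fin 4 → ℂ) 0 ≠ 0 ∨ (w : Fin 4 → ℂ) 1 ≠ 0 :=
          hz.imp h'.ne.1 h'.ne.1
        simp only [hz, hw, dif_pos]
        exact mk_eq.2 (RB_rel h')
      · have hw : ¬((w : Fin 4 → ℂ) 0 ≠ 0 ∨ (w : Fin 4 → ℂ) 1 ≠ 0) :=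
          fun hw => hz (hw.imp h'.ne.2 h'.ne.2)
        change (if h : _ then _ else _) = (if h : _ then _ else _)
        rw [dif_neg hz, dif_neg hw]

theorem blowUp_mk (m : ℕ) (z : Om (nuH m) kaH) (h : (z : Fin 4 → ℂ) 0 ≠ 0 ∨ (z : Fin 4 → ℂ) 1 ≠ 0) :
    blowUp m (Tor.mk _ _ z) = Tor.mk (nuB m) kaB ⟨RB z, RB_mem z.2 h⟩ :=
  dif_pos h

/-- The centre of the blow-up, the point `[0 : 0 : 1 : 1]`. -/
noncomputable def ctr (m : ℕ) : Tor (nuH m) kaH := Tor.mk _ _ ⟨![0, 0, 1, 1], by rw [mem_OmH]; simp⟩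

theorem eq_ctr (m : ℕ) (z : Om (nuH m) kaH) : Tor.mk _ _ z = ctr m ↔
    (z : Fin 4 → ℂ) 0 = 0 ∧ (z : Fin 4 → ℂ) 1 = 0 := by
  unfold ctr
  rw [mk_eq]
  constructor
  · intro h
    have h0 := h.ne (i := 0)
    have h1 := h.ne (i := 1)
    simp only [Matrix.cons_val, ne_eq, not_true_eq_false, iff_false, not_not] at h0 h1
    exact ⟨h0, h1⟩
  · rintro ⟨h0, h1⟩
    have hz := z.2
    rw [mem_OmH] at hz
    have h2 : (z : Fin 4 → ℂ) 2 ≠ 0 := hz.1.resolve_left fun h => h h0
    have h3 : (z : Fin 4 → ℂ) 3 ≠ 0 := hz.2.resolve_left fun h => h h1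
    apply Rel.symm
    rw [rel_H]
    refine ⟨(z : Fin 4 → ℂ) 2, (z : Fin 4 → ℂ) 3 / (z : Fin 4 → ℂ) 2 ^ m, h2,
      div_ne_zero h3 (pow_ne_zero _ h2), ?_, ?_, ?_, ?_⟩
    · simp [h0]
    · simp [h1]
    · simp
    · simp
      field_simp

end Pool.Agent.Y184.HS
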