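import Pool.Agent.Y184.HS.Blow

/-! The blow-up of a Hirzebruch surface: verification. -/

set_option autoImplicit false
set_option linter.unusedSectionVars false

open scoped Manifold ContDiff Topology ComplexConjugate
open Filter Set

namespace Pool.Agent.Y184.HS

/-- A vertex from its data. -/
def IsV.vtx {n : ℕ} {F : Type} [Fintype F] {ν : F → Fin n → ℤ} {κ : F → ℝ} {y : Fin n → ℝ}
    {s : Fin n → F} (h : IsV ν κ y s) : Vtx ν κ := ⟨y, s, h.1, h.2.1, h.2.2⟩

theorem E_two {F : Type} [Fintype F] {ν : F → Fin 2 → ℤ} {κ : F → ℝ} (V : Vtx ν κ) (i : F)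
    (k : Fin 2) : V.E i 0 * ν (V.s 0) k + V.E i 1 * ν (V.s 1) k = ν i k := by
  have := V.sum_E i k
  rwa [Fin.sum_univ_two] at this

theorem E_u (m : ℕ) (i : Fin 4) : (isVH01 m).vtx.E i 0 = nuH m i 0 ∧
    (isVH01 m).vtx.E i 1 = nuH m i 1 := by
  have h0 := E_two (isVH01 m).vtx i 0
  have h1 := E_two (isVH01 m).vtx i 1
  rw [show nuH m ((isVH01 m).vtx.s 0) 0 = 1 from rfl,
    show nuH m ((isVH01 m).vtx.s 1) 0 = 0 from rfl] at h0
  rw [show nuH m ((isVH01 m).vtx.s 0) 1 = 0 from rfl,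
    show nuH m ((isVH01 m).vtx.s 1) 1 = 1 from rfl] at h1
  constructor <;> linarith

theorem E_v (m : ℕ) (i : Fin 5) : (isVB41 m).vtx.E i 0 = nuB m i 0 ∧
    (isVB41 m).vtx.E i 1 = nuB m i 1 - nuB m i 0 := by
  have h0 := E_two (isVB41 m).vtx i 0
  have h1 := E_two (isVB41 m).vtx i 1
  rw [show nuB m ((isVB41 m).vtx.s 0) 0 = 1 from rfl,
    show nuB m ((isVB41 m).vtx.s 1) 0 = 0 from rfl] at h0
  rw [show nuB m ((isVB41 m).vtx.s 0) 1 = 1 from rfl,
    show nuB m ((isVB41 m).vtx.s 1) 1 = 1 from rfl] at h1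
  constructor <;> linarith

theorem E_v' (m : ℕ) (i : Fin 5) : (isVB04 m).vtx.E i 0 = nuB m i 0 - nuB m i 1 ∧
    (isVB04 m).vtx.E i 1 = nuB m i 1 := by
  have h0 := E_two (isVB04 m).vtx i 0
  have h1 := E_two (isVB04 m).vtx i 1
  rw [show nuB m ((isVB04 m).vtx.s 0) 0 = 1 from rfl,
    show nuB m ((isVB04 m).vtx.s 1) 0 = 1 from rfl] at h0
  rw [show nuB m ((isVB04 m).vtx.s 0) 1 = 0 from rfl,
    show nuB m ((isVB04 m).vtx.s 1) 1 = 1 from rfl] at h1
  constructor <;> linarith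

theorem cor_u (m : ℕ) (z : Fin 4 → ℂ) : (isVH01 m).vtx.cor z 0 = z 0 * (z 2)⁻¹ ∧
    (isVH01 m).vtx.cor z 1 = z 1 * z 2 ^ m * (z 3)⁻¹ := by
  unfold Vtx.cor
  constructor
  · simp only [(E_u m _).1]
    exact (prodH m z).1
  · simp only [(E_u m _).2]
    exact (prodH m z).2

theorem cor_v (m : ℕ) (z : Fin 5 → ℂ) : (isVB41 m).vtx.cor z 0 = z 0 * (z 2)⁻¹ * z 4 ∧
    (isVB41 m).vtx.cor z 1 = (z 0)⁻¹ * z 1 * z 2 ^ ((m : ℤ) + 1) * (z 3)⁻¹ := by
  unfold Vtx.cor
  constructor
  · simp only [(E_v m _).1]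
    exact (prodB m z).1
  · simp only [(E_v m _).2]
    simp [Fin.prod_univ_five, nuB]

theorem cor_v' (m : ℕ) (z : Fin 5 → ℂ) : (isVB04 m).vtx.cor z 0 =
      z 0 * (z 1)⁻¹ * z 2 ^ (-1 - (m : ℤ)) * z 3 ∧
    (isVB04 m).vtx.cor z 1 = z 1 * z 2 ^ m * (z 3)⁻¹ * z 4 := by
  unfold Vtx.cor
  constructor
  · simp only [(E_v' m _).1]
    simp [Fin.prod_univ_five, nuB]
  · simp only [(E_v' m _).2]
    exact (prodB m z).2

theorem src_u (m : ℕ) (z : Om (nuH m) kaH) : Tor.mk _ _ z ∈ (chart (isVH01 m).vtx).source ↔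
    (z : Fin 4 → ℂ) 2 ≠ 0 ∧ (z : Fin 4 → ℂ) 3 ≠ 0 := by
  rw [mk_mem_source]
  simp only [IsV.vtx, range_two]
  constructor
  · intro h
    exact ⟨h 2 (by simp), h 3 (by simp)⟩
  · rintro ⟨h2, h3⟩ i hi
    fin_cases i
    · simp at hi
    · simp at hi
    · exact h2
    · exact h3

theorem src_v (m : ℕ) (z : Om (nuB m) kaB) : Tor.mk _ _ z ∈ (chart (isVB41 m).vtx).source ↔
    (z : Fin 5 → ℂ) 0 ≠ 0 ∧ (z : Fin 5 → ℂ) 2 ≠ 0 ∧ (z : Fin 5 → ℂ) 3 ≠ 0 := by
  rw [mk_mem_source]
  simp only [IsV.vtx, range_two]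
  constructor
  · intro h
    exact ⟨h 0 (by simp), h 2 (by simp), h 3 (by simp)⟩
  · rintro ⟨h0, h2, h3⟩ i hi
    fin_cases i
    · exact h0
    · simp at hi
    · exact h2
    · exact h3
    · simp at hi

theorem src_v' (m : ℕ) (z : Om (nuB m) kaB) : Tor.mk _ _ z ∈ (chart (isVB04 m).vtx).source ↔
    (z : Fin 5 → ℂ) 1 ≠ 0 ∧ (z : Fin 5 → ℂ) 2 ≠ 0 ∧ (z : Fin 5 → ℂ) 3 ≠ 0 := by
  rw [mk_mem_source]
  simp only [IsV.vtx, range_two]
  constructor
  · intro h
    exact ⟨h 1 (by simp), h 2 (by simp), h 3 (by simp)⟩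
  · rintro ⟨h0, h2, h3⟩ i hi
    fin_cases i
    · simp at hi
    · exact h0
    · exact h2
    · exact h3
    · simp at hi

theorem analyticAt_sec {n : ℕ} {F : Type} [Fintype F] {ν : F → Fin n → ℤ} {κ : F → ℝ}
    (V : Vtx ν κ) (w : Fin n → ℂ) (i : F) : AnalyticAt ℂ (fun y => V.sec y i) w := by
  by_cases hi : i ∈ Set.range V.s
  · obtain ⟨j, rfl⟩ := hi
    simp only [V.sec_s]
    exact (ContinuousLinearMap.proj (R := ℂ) (φ := fun _ : Fin n => ℂ) j).analyticAt w
  · simp only [V.sec_not _ hi]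
    exact analyticAt_const

/-- The Hirzebruch surface, as the toric surface of the trapezoid. -/
abbrev Hirz (m : ℕ) : Type := Tor (nuH m) kaH

/-- The toric surface of the pentagon. -/
abbrev HirzB (m : ℕ) : Type := Tor (nuB m) kaB

noncomputable instance (m : ℕ) : ChartedSpace (Fin 2 → ℂ) (Hirz m) := torCharted (isDelzantH m)

noncomputable instance (m : ℕ) : ChartedSpace (Fin 2 → ℂ) (HirzB m) := torCharted (isDelzantB m)

theorem isBlowUp (m : ℕ) : IsBlowUp (blowDown m : HirzB m → Hirz m) (ctr m) := by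
  refine ⟨?_, ?_, ?_⟩
  · intro q
    obtain ⟨V, hV⟩ := exists_chart (isDelzantB m) q
    refine contMDiffAt_desc (isDelzantB m) (isDelzantH m) V hV (f := fun y => PB (V.sec y)) ?_
      (Eventually.of_forall fun y => ?_)
    · rw [analyticAt_pi_iff]
      intro i
      fin_cases i
      · exact (analyticAt_sec V _ 0).mul (analyticAt_sec V _ 4)
      · exact (analyticAt_sec V _ 1).mul (analyticAt_sec V _ 4)
      · exact analyticAt_sec V _ 2
      · exact analyticAt_sec V _ 3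
    · exact ⟨PB_mem (V.sec_mem y), rfl⟩
  · refine ⟨blowUp m, ?_, ?_, ?_⟩
    · intro q hq
      refine ContMDiffAt.contMDiffWithinAt ?_
      obtain ⟨V, hV⟩ := exists_chart (isDelzantH m) q
      refine contMDiffAt_desc (isDelzantH m) (isDelzantB m) V hV (f := fun y => RB (V.sec y)) ?_ ?_
      · rw [analyticAt_pi_iff]
        intro i
        fin_cases i
        · exact analyticAt_sec V _ 0
        · exact analyticAt_sec V _ 1
        · exact analyticAt_sec V _ 2
        · exact analyticAt_sec V _ 3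
        · exact analyticAt_const
      · have h1 : V.sec (chart V q) 0 ≠ 0 ∨ V.sec (chart V q) 1 ≠ 0 := by
          by_contra hc
          push Not at hc
          apply hq
          have h2 := (chart V).left_inv hV
          rw [chart_symm] at h2
          rw [← h2]
          exact (eq_ctr m _).2 hc
        have h2 : ∀ᶠ y in 𝓝 (chart V q), V.sec y 0 ≠ 0 ∨ V.sec y 1 ≠ 0 := by
          rcases h1 with h1 | h1
          · exact ((analyticAt_sec V _ 0).continuousAt.eventually_ne h1).mono fun y hy => Or.inl hy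
          · exact ((analyticAt_sec V _ 1).continuousAt.eventually_ne h1).mono fun y hy => Or.inr hy
        filter_upwards [h2] with y hy
        exact ⟨RB_mem (V.sec_mem y) hy, blowUp_mk m ⟨V.sec y, V.sec_mem y⟩ hy⟩
    · intro y hy
      obtain ⟨z, rfl⟩ := surjective_mk _ _ y
      have h1 : (z : Fin 4 → ℂ) 0 ≠ 0 ∨ (z : Fin 4 → ℂ) 1 ≠ 0 := by
        by_contra hc
        push Not at hc
        exact hy ((eq_ctr m _).2 hc)
      rw [blowUp_mk m z h1, blowDown_mk]
      congr 1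
      apply Subtype.ext
      funext i
      fin_cases i <;> simp [PB, RB]
    · intro x hx
      obtain ⟨z, rfl⟩ := surjective_mk _ _ x
      rw [blowDown_mk] at hx ⊢
      have h1 : PB z 0 ≠ 0 ∨ PB z 1 ≠ 0 := by
        by_contra hc
        push Not at hc
        exact hx ((eq_ctr m _).2 hc)
      rw [blowUp_mk m _ h1]
      have h4 : (z : Fin 5 → ℂ) 4 ≠ 0 := by
        intro h
        simp [PB, h] at h1
      rw [mk_eq]
      apply Rel.symm
      refine ⟨![(z : Fin 5 → ℂ) 4, (z : Fin 5 → ℂ) 4, 1, 1, ((z : Fin 5 → ℂ) 4)⁻¹], ?_, ?_, ?_⟩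
      · intro i
        fin_cases i
        · exact h4
        · exact h4
        · exact one_ne_zero
        · exact one_ne_zero
        · exact inv_ne_zero h4
      · intro k
        fin_cases k
        · refine (prodB m _).1.trans ?_
          simp [h4]
        · refine (prodB m _).2.trans ?_
          simp [h4]
      · intro i
        fin_cases i <;> simp [PB, RB, h4, mul_comm]
  · refine ⟨chart (isVH01 m).vtx, ⟨_, rfl⟩, chart (isVB41 m).vtx, ⟨_, rfl⟩,
      chart (isVB04 m).vtx, ⟨_, rfl⟩, ?_, ?_, ?_, ?_, ?_, ?_, ?_, ?_, ?_, ?_⟩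
    · exact (src_u m _).2 (by simp)
    · funext l
      unfold ctr
      rw [chart_mk]
      fin_cases l
      · exact ((cor_u m _).1).trans (by simp)
      · exact ((cor_u m _).2).trans (by simp)
    · ext x
      obtain ⟨z, rfl⟩ := surjective_mk _ _ x
      have hz := z.2
      rw [mem_OmB] at hz
      rw [Set.mem_union, Set.mem_preimage, blowDown_mk, src_u, src_v, src_v']
      simp only [PB, Matrix.cons_val]
      constructor
      · rintro (h | h)
        · exact h.2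
        · exact h.2
      · intro h
        rcases hz.2.2.1 with h0 | h0
        · exact Or.inl ⟨h0, h⟩
        · exact Or.inr ⟨h0, h⟩
    · ext y
      simp [chart_target]
    · ext y
      simp [chart_target]
    · intro x hx
      obtain ⟨z, rfl⟩ := surjective_mk _ _ x
      rw [src_v] at hx
      obtain ⟨h0, h2, h3⟩ := hx
      rw [blowDown_mk, chart_mk, chart_mk, (cor_v m _).1, (cor_v m _).2]
      funext l
      fin_cases l
      · refine ((cor_u m _).1).trans ?_
        simp [PB]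
        ring
      · refine ((cor_u m _).2).trans ?_
        simp [PB]
        rw [zpow_add₀ h2, zpow_natCast, zpow_one]
        field_simp
    · intro x hx
      obtain ⟨z, rfl⟩ := surjective_mk _ _ x
      rw [src_v'] at hx
      obtain ⟨h0, h2, h3⟩ := hx
      rw [blowDown_mk, chart_mk, chart_mk, (cor_v' m _).1, (cor_v' m _).2]
      funext l
      fin_cases l
      · refine ((cor_u m _).1).trans ?_
        simp [PB]
        rw [show (-1 : ℤ) - m = -(1 + m) by ring, zpow_neg, zpow_add₀ h2, zpow_natCast, zpow_one]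
        field_simp
      · refine ((cor_u m _).2).trans ?_
        simp [PB]
        ring
    · ext x
      obtain ⟨z, rfl⟩ := surjective_mk _ _ x
      rw [Set.mem_inter_iff, Set.mem_ofPred_eq, src_v, src_v', chart_mk, (cor_v m _).2]
      constructor
      · rintro ⟨⟨h0, h2, h3⟩, ⟨h1, -, -⟩⟩
        exact ⟨⟨h0, h2, h3⟩, mul_ne_zero (mul_ne_zero (mul_ne_zero (inv_ne_zero h0) h1)
          (zpow_ne_zero _ h2)) (inv_ne_zero h3)⟩
      · rintro ⟨⟨h0, h2, h3⟩, h⟩
        refine ⟨⟨h0, h2, h3⟩, ⟨?_, h2, h3⟩⟩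
        intro h1
        exact h (by simp [h1])
    · ext x
      obtain ⟨z, rfl⟩ := surjective_mk _ _ x
      rw [Set.mem_inter_iff, Set.mem_ofPred_eq, src_v, src_v', chart_mk, (cor_v' m _).1]
      constructor
      · rintro ⟨⟨h0, h2, h3⟩, ⟨h1, -, -⟩⟩
        exact ⟨⟨h1, h2, h3⟩, mul_ne_zero (mul_ne_zero (mul_ne_zero h0 (inv_ne_zero h1))
          (zpow_ne_zero _ h2)) h3⟩
      · rintro ⟨⟨h1, h2, h3⟩, h⟩
        refine ⟨⟨?_, h2, h3⟩, ⟨h1, h2, h3⟩⟩
        intro h0
        exact h (by simp [h0])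
    · intro x hx
      obtain ⟨z, rfl⟩ := surjective_mk _ _ x
      rw [Set.mem_inter_iff, src_v, src_v'] at hx
      obtain ⟨⟨h0, h2, h3⟩, ⟨h1, -, -⟩⟩ := hx
      rw [chart_mk, chart_mk, (cor_v m _).2, (cor_v' m _).1]
      rw [show (-1 : ℤ) - m = -((m : ℤ) + 1) by ring, zpow_neg]
      have h4 := zpow_ne_zero ((m : ℤ) + 1) h2
      field_simp

end Pool.Agent.Y184.HS
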