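import Pool.Agent.Y184.HS.Flow

/-! Positivity of the metric and of the holomorphic sectional curvature in the charts. -/

set_option autoImplicit false
set_option linter.unusedSectionVars false

open scoped Manifold ContDiff Topology ComplexConjugate
open Filter Set

namespace Pool.Agent.Y184.HS

variable {n : ℕ} {F : Type} [Fintype F]

/-! ### Horizontal projection -/

/-- The complexified Lie algebra as a subspace. -/
def LC (ν : F → Fin n → ℤ) : Submodule ℂ (F → ℂ) where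
  carrier := {c | InC ν c}
  add_mem' := by
    intro a b ha hb k
    change ∀ k, ∑ i, a i * (ν i k : ℂ) = 0 at ha
    change ∀ k, ∑ i, b i * (ν i k : ℂ) = 0 at hb
    simp only [Pi.add_apply, add_mul, Finset.sum_add_distrib, ha k, hb k, add_zero]
  zero_mem' := by
    intro k
    simp
  smul_mem' := by
    intro c a ha k
    change ∀ k, ∑ i, a i * (ν i k : ℂ) = 0 at ha
    simp only [Pi.smul_apply, smul_eq_mul, mul_assoc]
    rw [← Finset.mul_sum, ha k, mul_zero]

theorem Vtx.exists_proj {ν : F → Fin n → ℤ} {κ : F → ℝ} (V : Vtx ν κ) {p : F → ℝ}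
    (hp : ∀ i, 0 ≤ p i) (hp' : ∀ i, i ∉ Set.range V.s → 0 < p i) (y : F → ℂ) :
    ∃ b : F → ℂ, InC ν b ∧ ∀ c, InC ν c → ∑ i, c i * ((p i : ℂ) * b i) = ∑ i, c i * y i := by
  classical
  let T : LC ν →ₗ[ℂ] Module.Dual ℂ (LC ν) :=
    { toFun := fun b =>
        { toFun := fun c => ∑ i, (c : F → ℂ) i * ((p i : ℂ) * (b : F → ℂ) i)
          map_add' := fun c c' => by
            simp [add_mul, Finset.sum_add_distrib]
          map_smul' := fun r c => by
            simp [Finset.mul_sum, mul_assoc] }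
      map_add' := fun b b' => by
        ext c
        simp [mul_add, Finset.sum_add_distrib]
      map_smul' := fun r b => by
        ext c
        simp only [Submodule.coe_smul, Pi.smul_apply, smul_eq_mul, LinearMap.coe_mk, AddHom.coe_mk,
          RingHom.id_apply, LinearMap.smul_apply, Finset.mul_sum]
        exact Finset.sum_congr rfl fun i _ => by ring }
  have hinj : Function.Injective T := by
    rw [injective_iff_map_eq_zero]
    intro b hb
    have h1 : InC ν (b : F → ℂ) := b.2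
    have h2 : T b ⟨_, h1.conj⟩ = 0 := by rw [hb]; rfl
    have h3 : ∑ i, conj ((b : F → ℂ) i) * ((p i : ℂ) * (b : F → ℂ) i) = 0 := h2
    have h4 : ∑ i, p i * ‖(b : F → ℂ) i‖ ^ 2 = 0 := by
      have h5 : ((∑ i, p i * ‖(b : F → ℂ) i‖ ^ 2 : ℝ) : ℂ) = 0 := by
        rw [← h3]
        push_cast
        refine Finset.sum_congr rfl fun i _ => ?_
        have h6 : (b : F → ℂ) i * conj ((b : F → ℂ) i) = (‖(b : F → ℂ) i‖ : ℂ) ^ 2 := by
          rw [Complex.mul_conj, Complex.normSq_eq_norm_sq]; push_cast; rfl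
        rw [← h6]
        ring
      exact_mod_cast h5
    have h5 : ∀ i, p i * ‖(b : F → ℂ) i‖ ^ 2 = 0 := fun i =>
      (Finset.sum_eq_zero_iff_of_nonneg fun i _ => mul_nonneg (hp i) (sq_nonneg _)).1 h4 i
        (Finset.mem_univ _)
    have h6 := V.InC_zero h1 fun i hi => by
      have h7 := (mul_eq_zero.1 (h5 i)).resolve_left (hp' i hi).ne'
      simpa using h7
    exact Subtype.ext h6
  have hsurj : Function.Surjective T :=
    (LinearMap.injective_iff_surjective_of_finrank_eq_finrank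
      (Subspace.dual_finrank_eq (K := ℂ) (V := LC ν)).symm).1 hinj
  obtain ⟨b, hb⟩ := hsurj
    { toFun := fun c => ∑ i, (c : F → ℂ) i * y i
      map_add' := fun c c' => by
        simp [add_mul, Finset.sum_add_distrib]
      map_smul' := fun r c => by
        simp [Finset.mul_sum, mul_assoc] }
  refine ⟨b, b.2, fun c hc => ?_⟩
  exact congrArg (fun T => T ⟨c, hc⟩) hb

/-! ### Logarithms of norms -/

theorem hasW_log_norm {u : ℂ → ℂ} {c t : ℂ} (h : HasDerivAt u c t) (h0 : u t ≠ 0) :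
    HasW (fun s => ((Real.log ‖u s‖ : ℝ) : ℂ)) (c / (2 * u t)) (conj (c / (2 * u t))) t := by
  have h1 : HasW u c 0 t := HasDerivAt.hasW h
  have h2 : HasW (fun s => u s * conj (u s)) _ _ t := h1.mul h1.conj
  have h3 : u t * conj (u t) = ((‖u t‖ ^ 2 : ℝ) : ℂ) := by
    rw [Complex.mul_conj, Complex.normSq_eq_norm_sq]
  have h4 : u t * conj (u t) ∈ Complex.slitPlane := by
    rw [h3, Complex.ofReal_mem_slitPlane]
    have := norm_pos_iff.2 h0
    positivity
  have h5 := h2.comp_holo (G := Complex.log) (Complex.hasDerivAt_log h4)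
  have h6 := (hasW_const (1 / 2) t).mul h5
  have h7 : (fun s => ((Real.log ‖u s‖ : ℝ) : ℂ)) =ᶠ[𝓝 t]
      fun s => 1 / 2 * Complex.log (u s * conj (u s)) := by
    have h8 : ∀ᶠ s in 𝓝 t, u s ≠ 0 := h.continuousAt.eventually_ne h0
    filter_upwards [h8] with s hs
    rw [Complex.mul_conj, Complex.normSq_eq_norm_sq, ← Complex.ofReal_log (by positivity),
      Real.log_pow]
    push_cast
    ring
  have hc : conj (u t) ≠ 0 := by simpa using h0
  refine (h6.congr_of_eventuallyEq h7).cast ?_ ?_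
  · simp only [zero_mul, map_zero, mul_zero, add_zero, zero_add]
    field_simp
  · have : conj (2 : ℂ) = 2 := by simpa using Complex.conj_ofReal 2
    simp only [zero_mul, map_zero, mul_zero, add_zero, zero_add, map_div₀, map_mul, this]
    field_simp

/-! ### The potential -/

/-- The chosen normalising vector and moment map. -/
structure Data (ν : F → Fin n → ℤ) (κ : F → ℝ) where
  a : (F → ℂ) → F → ℝ
  x : (F → ℂ) → Fin n → ℝ
  sol : ∀ z ∈ Om ν κ, Sol ν κ z (a z) (x z)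
  sma : ∀ z ∈ Om ν κ, ContDiffAt ℝ ∞ a z
  smx : ∀ z ∈ Om ν κ, ContDiffAt ℝ ∞ x z

theorem exists_data {ν : F → Fin n → ℤ} {κ : F → ℝ} (h : IsDelzant ν κ) : Nonempty (Data ν κ) := by
  obtain ⟨a, x, h1, h2, h3⟩ := exists_smooth h
  exact ⟨⟨a, x, h1, h2, h3⟩⟩

theorem recession {ν : F → Fin n → ℤ} {κ : F → ℝ} (h : IsDelzant ν κ) (x : Fin n → ℝ)
    (hx : ∀ i, 0 ≤ ∑ k, x k * (ν i k : ℝ)) : x = 0 := by
  obtain ⟨y, hy⟩ := h.nonempty
  obtain ⟨C, hC⟩ := h.bounded.exists_norm_le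
  by_contra h0
  have h1 : 0 < ‖x‖ := norm_pos_iff.2 h0
  have h2 : ∀ t : ℝ, 0 ≤ t → y + t • x ∈ poly ν κ := by
    intro t ht i
    have h3 : ell ν κ i (y + t • x) = ell ν κ i y + t * ∑ k, x k * (ν i k : ℝ) := by
      unfold ell
      rw [Finset.mul_sum]
      simp only [Pi.add_apply, Pi.smul_apply, smul_eq_mul, add_mul, Finset.sum_add_distrib]
      have : ∑ k, t * x k * (ν i k : ℝ) = ∑ k, t * (x k * (ν i k : ℝ)) :=
        Finset.sum_congr rfl fun k _ => by ring
      rw [this]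
      ring
    rw [h3]
    exact add_nonneg (hy i) (mul_nonneg ht (hx i))
  have h3 := hC _ (h2 ((C + ‖y‖ + 1) / ‖x‖) (by
    have h4 : 0 ≤ C := (norm_nonneg _).trans (hC y hy)
    positivity))
  have h4 : ‖((C + ‖y‖ + 1) / ‖x‖) • x‖ = C + ‖y‖ + 1 := by
    have h5 : 0 ≤ C := (norm_nonneg _).trans (hC y hy)
    rw [norm_smul, Real.norm_of_nonneg (by positivity)]
    field_simp
  have h5 : ‖((C + ‖y‖ + 1) / ‖x‖) • x‖ ≤ ‖y + ((C + ‖y‖ + 1) / ‖x‖) • x‖ + ‖y‖ := by
    have := norm_sub_le (y + ((C + ‖y‖ + 1) / ‖x‖) • x) y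
    simpa using this
  linarith

namespace Data

variable {ν : F → Fin n → ℤ} {κ : F → ℝ} (S : Data ν κ)

/-- The potential on the homogeneous coordinates. -/
noncomputable def Ψ (z : F → ℂ) : ℝ := fun0 κ z (S.a z)

/-- Behaviour under the torus. -/
theorem gauge {z w : F → ℂ} (hz : z ∈ Om ν κ) (V : Vtx ν κ)
    (hV : ∀ i, i ∉ Set.range V.s → z i ≠ 0) {g : F → ℂ} (h0 : ∀ i, g i ≠ 0)
    (h1 : ∀ k, ∏ i, g i ^ ν i k = 1) (h2 : ∀ i, w i = g i * z i) :
    (∀ i, S.a w i = S.a z i - Real.log ‖g i‖) ∧ S.x w = S.x z ∧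
      S.Ψ w = S.Ψ z + 2 * ∑ i, κ i * Real.log ‖g i‖ := by
  have hV' : ∀ i, i ∉ Set.range V.s → w i ≠ 0 := fun i hi => by
    rw [h2 i]; exact mul_ne_zero (h0 i) (hV i hi)
  have hw : w ∈ Om ν κ := V.mem_Om hV'
  have hL : (fun i => Real.log ‖g i‖) ∈ LL ν := by
    intro k
    have h3 := congrArg (fun z : ℂ => Real.log ‖z‖) (h1 k)
    simp only [norm_prod, norm_zpow, norm_one, Real.log_one] at h3
    rw [Real.log_prod fun i _ => zpow_ne_zero _ (norm_ne_zero_iff.2 (h0 i))] at h3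
    simp only [Real.log_zpow] at h3
    rw [← h3]
    exact Finset.sum_congr rfl fun i _ => mul_comm _ _
  have h3 : Sol ν κ w (fun i => S.a z i - Real.log ‖g i‖) (S.x z) := by
    refine ⟨(LL ν).sub_mem (S.sol z hz).1 hL, fun i => ?_⟩
    rw [← (S.sol z hz).2 i, h2 i, norm_mul, mul_pow]
    have h4 : 0 < ‖g i‖ := norm_pos_iff.2 (h0 i)
    have h5 : Real.exp (2 * (S.a z i - Real.log ‖g i‖)) =
        Real.exp (2 * S.a z i) * (‖g i‖ ^ 2)⁻¹ := by
      rw [mul_sub, Real.exp_sub, div_eq_mul_inv]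
      congr 2
      rw [two_mul, Real.exp_add, Real.exp_log h4]
      ring
    rw [h5]
    field_simp
  obtain ⟨h4, h5⟩ := V.sol_unique hV' (S.sol w hw) h3
  refine ⟨fun i => congrFun h4 i, h5, ?_⟩
  unfold Ψ fun0
  rw [h4, Finset.mul_sum, ← Finset.sum_add_distrib]
  refine Finset.sum_congr rfl fun i _ => ?_
  have h6 := h3.2 i
  have h7 := (S.sol z hz).2 i
  rw [← h6] at h7
  rw [h7]
  ring

/-- The potential in the chart. -/
noncomputable def pot (V : Vtx ν κ) (w : Fin n → ℂ) : ℝ := S.Ψ (V.sec w)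

theorem contDiff_sec (V : Vtx ν κ) : ContDiff ℝ ∞ V.sec := by
  rw [contDiff_pi]
  intro i
  by_cases h : i ∈ Set.range V.s
  · obtain ⟨j, rfl⟩ := h
    simp only [V.sec_s]
    exact contDiff_apply ℝ ℂ j
  · simp only [V.sec_not _ h]
    exact contDiff_const

theorem contDiffAt_Ψ {z : F → ℂ} (hz : z ∈ Om ν κ) : ContDiffAt ℝ ∞ S.Ψ z := by
  have h1 := S.sma z hz
  unfold Ψ fun0
  refine ContDiffAt.sum fun i _ => ?_
  have h2 : ContDiffAt ℝ ∞ (fun z => S.a z i) z := (contDiffAt_pi.1 h1) i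
  have h3 : ContDiffAt ℝ ∞ (fun z : F → ℂ => z i) z := (contDiff_apply ℝ ℂ i).contDiffAt
  exact ((h3.norm_sq ℝ).mul (Real.contDiff_exp.contDiffAt.comp z (contDiffAt_const.mul h2))).sub
    (contDiffAt_const.mul (contDiffAt_const.mul h2))

theorem contDiff_pot (V : Vtx ν κ) : ContDiff ℝ ∞ (S.pot V) := by
  rw [contDiff_iff_contDiffAt]
  intro w
  exact (S.contDiffAt_Ψ (V.sec_mem w)).comp w (contDiff_sec V).contDiffAt

end Data

end Pool.Agent.Y184.HS
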