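import Pool.Agent.Y184.HS.Wirt

/-! The curvature in a direction is bounded below by the fourth derivative of the potential along a
holomorphic curve. -/

set_option autoImplicit false
set_option linter.unusedSectionVars false

open scoped Manifold ContDiff Topology ComplexConjugate
open Filter Set

namespace Pool.Agent.Y184.HS

variable {n : ℕ}

/-! ### Smoothness of Wirtinger derivatives -/

theorem contDiffAt_dz {f : (Fin n → ℂ) → ℂ} {w : Fin n → ℂ} (hf : ContDiffAt ℝ ∞ f w) (k : Fin n) :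
    ContDiffAt ℝ ∞ (dz k f) w := by
  have h1 : ContDiffAt ℝ ∞ (fderiv ℝ f) w := hf.fderiv_right (m := ∞) (by simp)
  unfold dz
  exact ((h1.clm_apply contDiffAt_const).sub
    (contDiffAt_const.mul (h1.clm_apply contDiffAt_const))).div_const _

theorem contDiffAt_dzbar {f : (Fin n → ℂ) → ℂ} {w : Fin n → ℂ} (hf : ContDiffAt ℝ ∞ f w)
    (k : Fin n) : ContDiffAt ℝ ∞ (dzbar k f) w := by
  have h1 : ContDiffAt ℝ ∞ (fderiv ℝ f) w := hf.fderiv_right (m := ∞) (by simp)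
  unfold dzbar
  exact ((h1.clm_apply contDiffAt_const).add
    (contDiffAt_const.mul (h1.clm_apply contDiffAt_const))).div_const _

theorem ofReal_contDiffAt {φ : (Fin n → ℂ) → ℝ} {w : Fin n → ℂ} (h : ContDiffAt ℝ ∞ φ w) :
    ContDiffAt ℝ ∞ (fun u => (φ u : ℂ)) w :=
  Complex.ofRealCLM.contDiff.contDiffAt.comp w h

theorem contDiffAt_gmat {φ : (Fin n → ℂ) → ℝ} {w : Fin n → ℂ} (h : ContDiffAt ℝ ∞ φ w)
    (i j : Fin n) : ContDiffAt ℝ ∞ (fun u => gmat φ u i j) w :=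
  contDiffAt_dz (contDiffAt_dzbar (ofReal_contDiffAt h) j) i

/-- Smoothness at a point is an open condition. -/
theorem eventually_smooth {E G : Type} [NormedAddCommGroup E] [NormedSpace ℝ E]
    [NormedAddCommGroup G] [NormedSpace ℝ G] {f : E → G} {w : E} {U : Set E} (hU : IsOpen U)
    (hw : w ∈ U) (h : ∀ u ∈ U, ContDiffAt ℝ ∞ f u) : ∀ᶠ u in 𝓝 w, ContDiffAt ℝ ∞ f u :=
  (hU.mem_nhds hw) |> fun h1 => mem_of_superset h1 h

/-! ### Hermitian symmetry -/

theorem two_le_infty : (2 : WithTop ℕ∞) ≤ ∞ := WithTop.coe_le_coe.2 (le_top : (2 : ℕ∞) ≤ ⊤)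

theorem gmat_eq {φ : (Fin n → ℂ) → ℝ} {w : Fin n → ℂ} (h : ContDiffAt ℝ ∞ φ w) (i j : Fin n) :
    gmat φ w i j = ((fderiv ℝ (fderiv ℝ φ) w (Pi.single i 1) (Pi.single j 1) : ℂ) +
      (fderiv ℝ (fderiv ℝ φ) w (Pi.single i Complex.I) (Pi.single j Complex.I) : ℂ) +
      Complex.I * ((fderiv ℝ (fderiv ℝ φ) w (Pi.single i 1) (Pi.single j Complex.I) : ℂ) -
        (fderiv ℝ (fderiv ℝ φ) w (Pi.single i Complex.I) (Pi.single j 1) : ℂ))) / 4 := by
  have hev : ∀ᶠ u in 𝓝 w, ContDiffAt ℝ 2 φ u :=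
    (h.of_le (m := 2) two_le_infty).eventually (by simp)
  have h1 : (dzbar j fun u => (φ u : ℂ)) =ᶠ[𝓝 w] fun u =>
      (((fderiv ℝ φ u (Pi.single j 1) : ℝ) : ℂ) +
        Complex.I * ((fderiv ℝ φ u (Pi.single j Complex.I) : ℝ) : ℂ)) / 2 := by
    filter_upwards [hev] with u hu
    have h2 : HasFDerivAt (fun u => (φ u : ℂ)) (Complex.ofRealCLM.comp (fderiv ℝ φ u)) u :=
      Complex.ofRealCLM.hasFDerivAt.comp u (hu.differentiableAt (by simp)).hasFDerivAt
    unfold dzbar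
    rw [h2.fderiv]
    simp
  have hd2 : HasFDerivAt (fderiv ℝ φ) (fderiv ℝ (fderiv ℝ φ) w) w :=
    ((h.fderiv_right (m := ∞) (by simp)).differentiableAt (by simp)).hasFDerivAt
  have h3 : ∀ v : Fin n → ℂ, HasFDerivAt (fun u => ((fderiv ℝ φ u v : ℝ) : ℂ))
      (Complex.ofRealCLM.comp ((ContinuousLinearMap.apply ℝ ℝ v).comp
        (fderiv ℝ (fderiv ℝ φ) w))) w := by
    intro v
    have h4 : HasFDerivAt (fun u => fderiv ℝ φ u v)
        ((ContinuousLinearMap.apply ℝ ℝ v).comp (fderiv ℝ (fderiv ℝ φ) w)) w :=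
      (ContinuousLinearMap.apply ℝ ℝ v).hasFDerivAt.comp w hd2
    exact Complex.ofRealCLM.hasFDerivAt.comp w h4
  have h5 : HasFDerivAt (fun u => (((fderiv ℝ φ u (Pi.single j 1) : ℝ) : ℂ) +
        Complex.I * ((fderiv ℝ φ u (Pi.single j Complex.I) : ℝ) : ℂ)) / 2)
      ((2 : ℂ)⁻¹ • ((Complex.ofRealCLM.comp ((ContinuousLinearMap.apply ℝ ℝ (Pi.single j 1)).comp
        (fderiv ℝ (fderiv ℝ φ) w))) + Complex.I • (Complex.ofRealCLM.comp
        ((ContinuousLinearMap.apply ℝ ℝ (Pi.single j Complex.I)).comp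
        (fderiv ℝ (fderiv ℝ φ) w))))) w := by
    have h6 := ((h3 (Pi.single j 1)).add ((h3 (Pi.single j Complex.I)).const_smul Complex.I)).const_smul
      (2 : ℂ)⁻¹
    refine h6.congr_of_eventuallyEq (Eventually.of_forall fun u => ?_)
    simp only [Pi.smul_apply, Pi.add_apply, smul_eq_mul]
    ring
  unfold gmat
  simp only [Matrix.of_apply]
  unfold dz
  rw [h1.fderiv_eq, h5.fderiv]
  simp only [smul_apply, add_apply,
    ContinuousLinearMap.comp_apply, ContinuousLinearMap.apply_apply, Complex.ofRealCLM_apply,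
    smul_eq_mul]
  have := Complex.I_mul_I
  linear_combination (-(fderiv ℝ (fderiv ℝ φ) w (Pi.single i Complex.I) (Pi.single j Complex.I) : ℂ) /
    4) * this

theorem gmat_conj {φ : (Fin n → ℂ) → ℝ} {w : Fin n → ℂ} (h : ContDiffAt ℝ ∞ φ w) (i j : Fin n) :
    conj (gmat φ w i j) = gmat φ w j i := by
  have hs : ∀ u v, fderiv ℝ (fderiv ℝ φ) w u v = fderiv ℝ (fderiv ℝ φ) w v u :=
    (h.isSymmSndFDerivAt (by simpa using two_le_infty)).eq
  rw [gmat_eq h, gmat_eq h]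
  simp only [map_div₀, map_add, map_mul, map_sub, Complex.conj_ofReal, Complex.conj_I]
  rw [hs (Pi.single j 1) (Pi.single i 1), hs (Pi.single j Complex.I) (Pi.single i Complex.I),
    hs (Pi.single j 1) (Pi.single i Complex.I), hs (Pi.single j Complex.I) (Pi.single i 1)]
  have : conj (4 : ℂ) = 4 := by
    simpa using Complex.conj_ofReal 4
  rw [this]
  ring

theorem dzbar_conj {f : (Fin n → ℂ) → ℂ} {w : Fin n → ℂ} (hf : DifferentiableAt ℝ f w)
    (k : Fin n) : dzbar k (fun u => conj (f u)) w = conj (dz k f w) := by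
  have h1 : HasFDerivAt (fun u => conj (f u))
      ((Complex.conjCLE : ℂ →L[ℝ] ℂ).comp (fderiv ℝ f w)) w :=
    (Complex.conjCLE : ℂ →L[ℝ] ℂ).hasFDerivAt.comp w hf.hasFDerivAt
  unfold dzbar dz
  rw [h1.fderiv]
  have : conj (2 : ℂ) = 2 := by
    simpa using Complex.conj_ofReal 2
  simp [this]

theorem dzbar_gmat {φ : (Fin n → ℂ) → ℝ} {w : Fin n → ℂ} (h : ContDiffAt ℝ ∞ φ w)
    (hev : ∀ᶠ u in 𝓝 w, ContDiffAt ℝ ∞ φ u) (i j l : Fin n) :
    dzbar l (fun u => gmat φ u i j) w = conj (dz l (fun u => gmat φ u j i) w) := by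
  rw [← dzbar_conj ((contDiffAt_gmat h j i).differentiableAt (by simp))]
  have h1 : (fun u => gmat φ u i j) =ᶠ[𝓝 w] fun u => conj (gmat φ u j i) := by
    filter_upwards [hev] with u hu
    exact (gmat_conj hu j i).symm
  unfold dzbar
  rw [h1.fderiv_eq]

end Pool.Agent.Y184.HS
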