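import Mathlib

/-!
# Toric manifolds of Delzant polytopes and positive holomorphic sectional curvature: definitions
-/

set_option autoImplicit false

open scoped Manifold ContDiff Topology

namespace Pool.Agent.Y184.HS

/-! ### Delzant polytopes and their toric manifolds -/

section Toric

variable {n : ℕ} {F : Type} [Fintype F]

/-- The affine function `x ↦ ⟨x, ν i⟩ + κ i`. -/
def ell (ν : F → Fin n → ℤ) (κ : F → ℝ) (i : F) (x : Fin n → ℝ) : ℝ :=
  ∑ k, x k * (ν i k : ℝ) + κ i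

/-- The polytope `⟨x, ν i⟩ + κ i ≥ 0` for all `i`. -/
def poly (ν : F → Fin n → ℤ) (κ : F → ℝ) : Set (Fin n → ℝ) := {x | ∀ i, 0 ≤ ell ν κ i x}

/-- Delzant polytopes: `poly ν κ` is nonempty and bounded, and every point `x` of it lies on the
(relatively open) face through a vertex `y`: all inequalities which are equalities at `x` are
equalities at `y`, and exactly `n` of them are equalities at `y`, whose normals `ν (s j)` are a basis
of `ℤ^n`. -/
structure IsDelzant (ν : F → Fin n → ℤ) (κ : F → ℝ) : Prop where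
  nonempty : (poly ν κ).Nonempty
  bounded : Bornology.IsBounded (poly ν κ)
  vertex : ∀ x ∈ poly ν κ, ∃ y ∈ poly ν κ, (∀ i, ell ν κ i x = 0 → ell ν κ i y = 0) ∧
    ∃ s : Fin n → F, (∀ i, ell ν κ i y = 0 ↔ i ∈ Set.range s) ∧
      IsUnit (Matrix.of fun j k => ν (s j) k).det

/-- Homogeneous coordinates: the coordinates which vanish belong to facets with a common point. -/
def Om (ν : F → Fin n → ℤ) (κ : F → ℝ) : Set (F → ℂ) :=
  {z | ∃ x ∈ poly ν κ, ∀ i, z i = 0 → ell ν κ i x = 0}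

/-- `w = g z` for some `g` in the complex torus `∏ i, (g i) ^ (ν i k) = 1`, `k < n`. -/
def Rel (ν : F → Fin n → ℤ) (z w : F → ℂ) : Prop :=
  ∃ g : F → ℂ, (∀ i, g i ≠ 0) ∧ (∀ k, ∏ i, g i ^ ν i k = 1) ∧ ∀ i, w i = g i * z i

theorem Rel.refl (ν : F → Fin n → ℤ) (z : F → ℂ) : Rel ν z z :=
  ⟨fun _ => 1, fun _ => one_ne_zero, fun k => by simp, fun i => by simp⟩

theorem Rel.symm {ν : F → Fin n → ℤ} {z w : F → ℂ} (h : Rel ν z w) : Rel ν w z := by
  obtain ⟨g, h0, h1, h2⟩ := h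
  refine ⟨fun i => (g i)⁻¹, fun i => inv_ne_zero (h0 i), fun k => ?_, fun i => ?_⟩
  · simp only [inv_zpow]
    rw [Finset.prod_inv_distrib, h1 k, inv_one]
  · rw [h2 i]
    field_simp [h0 i]

theorem Rel.trans {ν : F → Fin n → ℤ} {z w u : F → ℂ} (h : Rel ν z w) (h' : Rel ν w u) :
    Rel ν z u := by
  obtain ⟨g, h0, h1, h2⟩ := h
  obtain ⟨g', h0', h1', h2'⟩ := h'
  refine ⟨fun i => g' i * g i, fun i => mul_ne_zero (h0' i) (h0 i), fun k => ?_, fun i => ?_⟩
  · simp only [mul_zpow]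
    rw [Finset.prod_mul_distrib, h1 k, h1' k, one_mul]
  · rw [h2' i, h2 i, mul_assoc]

/-- The equivalence relation on homogeneous coordinates. -/
def torSetoid (ν : F → Fin n → ℤ) (κ : F → ℝ) : Setoid (Om ν κ) where
  r z w := Rel ν (z : F → ℂ) w
  iseqv := ⟨fun z => Rel.refl ν z, fun h => h.symm, fun h h' => h.trans h'⟩

/-- The toric manifold of the polytope. -/
def Tor (ν : F → Fin n → ℤ) (κ : F → ℝ) : Type := Quotient (torSetoid ν κ)

/-- The quotient topology. -/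
instance (ν : F → Fin n → ℤ) (κ : F → ℝ) : TopologicalSpace (Tor ν κ) :=
  inferInstanceAs (TopologicalSpace (Quotient (torSetoid ν κ)))

/-- The point with homogeneous coordinates `z`. -/
def Tor.mk (ν : F → Fin n → ℤ) (κ : F → ℝ) (z : Om ν κ) : Tor ν κ := Quotient.mk (torSetoid ν κ) z

end Toric

/-! ### Kähler metrics and holomorphic sectional curvature -/

section Kahler

variable {n : ℕ}

/-- `∂f/∂z_k`. -/
noncomputable def dz (k : Fin n) (f : (Fin n → ℂ) → ℂ) (w : Fin n → ℂ) : ℂ :=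
  (fderiv ℝ f w (Pi.single k 1) - Complex.I * fderiv ℝ f w (Pi.single k Complex.I)) / 2

/-- `∂f/∂z̄_k`. -/
noncomputable def dzbar (k : Fin n) (f : (Fin n → ℂ) → ℂ) (w : Fin n → ℂ) : ℂ :=
  (fderiv ℝ f w (Pi.single k 1) + Complex.I * fderiv ℝ f w (Pi.single k Complex.I)) / 2

/-- The matrix `g_{i j̄} = ∂²φ/∂z_i∂z̄_j`. -/
noncomputable def gmat (φ : (Fin n → ℂ) → ℝ) (w : Fin n → ℂ) : Matrix (Fin n) (Fin n) ℂ :=
  Matrix.of fun i j => dz i (dzbar j fun u => (φ u : ℂ)) w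

/-- The curvature tensor
`R_{i j̄ k l̄} = - ∂²g_{i j̄}/∂z_k∂z̄_l + ∑ p q, g^{p q̄} (∂g_{i q̄}/∂z_k) (∂g_{p j̄}/∂z̄_l)`. -/
noncomputable def curv (φ : (Fin n → ℂ) → ℝ) (w : Fin n → ℂ) (i j k l : Fin n) : ℂ :=
  - dz k (dzbar l fun u => gmat φ u i j) w +
    ∑ p, ∑ q, (gmat φ w)⁻¹ q p * dz k (fun u => gmat φ u i q) w * dzbar l (fun u => gmat φ u p j) w

/-- The Hermitian form `g (u, v) = ∑ g_{i j̄} u_i v̄_j`. -/
noncomputable def herm (φ : (Fin n → ℂ) → ℝ) (w u v : Fin n → ℂ) : ℂ :=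
  ∑ i, ∑ j, gmat φ w i j * u i * (starRingEnd ℂ) (v j)

/-- The holomorphic sectional curvature `R (v, v̄, v, v̄) / g (v, v̄)²`. -/
noncomputable def hsc (φ : (Fin n → ℂ) → ℝ) (w v : Fin n → ℂ) : ℝ :=
  (∑ i, ∑ j, ∑ k, ∑ l, curv φ w i j k l * v i * (starRingEnd ℂ) (v j) * v k *
    (starRingEnd ℂ) (v l)).re / (herm φ w v v).re ^ 2

/-- A Kähler metric on the complex manifold `M` (of dimension `n`), given by a smooth potential
`φ c` in each chart `c` of the atlas: the forms `∑ ∂²(φ c)/∂z_i∂z̄_j u_i v̄_j` are positive definite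
and compatible with the coordinate changes, so that they define a Hermitian metric on `M`. -/
structure IsKahler {M : Type} [TopologicalSpace M] [ChartedSpace (Fin n → ℂ) M]
    (φ : OpenPartialHomeomorph M (Fin n → ℂ) → (Fin n → ℂ) → ℝ) : Prop where
  smooth : ∀ c ∈ atlas (Fin n → ℂ) M, ContDiffOn ℝ ∞ (φ c) c.target
  pos : ∀ c ∈ atlas (Fin n → ℂ) M, ∀ w ∈ c.target, ∀ v : Fin n → ℂ, v ≠ 0 →
    0 < (herm (φ c) w v v).re
  compat : ∀ c ∈ atlas (Fin n → ℂ) M, ∀ c' ∈ atlas (Fin n → ℂ) M,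
    ∀ w ∈ (c.symm.trans c').source, ∀ u v : Fin n → ℂ,
      herm (φ c) w u v = herm (φ c') (c' (c.symm w)) (fderiv ℂ (fun y => c' (c.symm y)) w u)
        (fderiv ℂ (fun y => c' (c.symm y)) w v)

/-- `M` carries a Kähler metric whose holomorphic sectional curvature is positive for all nonzero
tangent vectors. -/
def HasPositiveHSC (M : Type) [TopologicalSpace M] [ChartedSpace (Fin n → ℂ) M] : Prop :=
  ∃ φ : OpenPartialHomeomorph M (Fin n → ℂ) → (Fin n → ℂ) → ℝ, IsKahler φ ∧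
    ∀ c ∈ atlas (Fin n → ℂ) M, ∀ w ∈ c.target, ∀ v : Fin n → ℂ, v ≠ 0 → 0 < hsc (φ c) w v

end Kahler

end Pool.Agent.Y184.HS
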