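import Pool.Agent.Y184.HS.Curv

/-! The curvature in a direction is bounded below by the fourth derivative of the potential along a
holomorphic curve. -/

set_option autoImplicit false
set_option linter.unusedSectionVars false

open scoped Manifold ContDiff Topology ComplexConjugate
open Filter Set

namespace Pool.Agent.Y184.HS

variable {n : ℕ}

theorem Db_congr {f g : ℂ → ℂ} {t : ℂ} (h : f =ᶠ[𝓝 t] g) : Db f =ᶠ[𝓝 t] Db g := by
  filter_upwards [h.eventuallyEq_nhds] with s hs
  unfold Db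
  rw [hs.fderiv_eq]

theorem D_congr {f g : ℂ → ℂ} {t : ℂ} (h : f =ᶠ[𝓝 t] g) : D f =ᶠ[𝓝 t] D g := by
  filter_upwards [h.eventuallyEq_nhds] with s hs
  unfold D
  rw [hs.fderiv_eq]

theorem HasW.cast {f : ℂ → ℂ} {a b a' b' t : ℂ} (h : HasW f a b t) (ha : a = a') (hb : b = b') :
    HasW f a' b' t := by
  rw [← ha, ← hb]
  exact h

/-- A holomorphic curve through `w` with derivatives `f'`, `f''` near `0`. -/
structure IsCurve (w : Fin n → ℂ) (f f' f'' : ℂ → Fin n → ℂ) : Prop where
  zero : f 0 = w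
  deriv1 : ∀ᶠ t in 𝓝 0, HasDerivAt f (f' t) t
  deriv2 : ∀ᶠ t in 𝓝 0, HasDerivAt f' (f'' t) t
  deriv3 : DifferentiableAt ℂ f'' 0

section

variable {φ : (Fin n → ℂ) → ℝ} {w : Fin n → ℂ} {f f' f'' : ℂ → Fin n → ℂ}

theorem IsCurve.ev (hφ : ∀ᶠ u in 𝓝 w, ContDiffAt ℝ ∞ φ u) (hf : IsCurve w f f' f'') :
    ∀ᶠ t in 𝓝 (0 : ℂ), ∀ᶠ u in 𝓝 (f t), ContDiffAt ℝ ∞ φ u := by
  have h1 : Tendsto f (𝓝 0) (𝓝 w) := by
    have := hf.deriv1.self_of_nhds.continuousAt
    rw [ContinuousAt, hf.zero] at this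
    exact this
  exact h1.eventually hφ.eventually_nhds

theorem IsCurve.Db_eq (hφ : ∀ᶠ u in 𝓝 w, ContDiffAt ℝ ∞ φ u) (hf : IsCurve w f f' f'') :
    (Db fun t => (φ (f t) : ℂ)) =ᶠ[𝓝 0]
      fun t => ∑ j, conj (f' t j) * dzbar j (fun u => (φ u : ℂ)) (f t) := by
  filter_upwards [hf.ev hφ, hf.deriv1] with t h1 h2
  have h3 := hasW_comp (G := fun u => (φ u : ℂ)) h2
    ((ofReal_contDiffAt h1.self_of_nhds).differentiableAt (by simp))
  exact h3.Db_eq

theorem IsCurve.lam_eq (hφ : ∀ᶠ u in 𝓝 w, ContDiffAt ℝ ∞ φ u) (hf : IsCurve w f f' f'') :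
    (D (Db fun t => (φ (f t) : ℂ))) =ᶠ[𝓝 0]
      fun t => ∑ i, ∑ j, f' t i * conj (f' t j) * gmat φ (f t) i j := by
  filter_upwards [hf.ev hφ, hf.deriv1, hf.deriv2, (hf.Db_eq hφ).eventuallyEq_nhds] with t h1 h2 h3 h4
  have h5 : HasW (fun t => ∑ j, conj (f' t j) * dzbar j (fun u => (φ u : ℂ)) (f t))
      (∑ j, (conj (0 : ℂ) * dzbar j (fun u => (φ u : ℂ)) (f t) +
        conj (f' t j) * W (dzbar j fun u => (φ u : ℂ)) (f t) (f' t)))
      (∑ j, (conj (f'' t j) * dzbar j (fun u => (φ u : ℂ)) (f t) +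
        conj (f' t j) * Wb (dzbar j fun u => (φ u : ℂ)) (f t) (f' t))) t := by
    refine HasW.sum _ fun j _ => ?_
    have h6 : HasW (fun s => conj (f' s j)) (conj (0 : ℂ)) (conj (f'' t j)) t :=
      (HasDerivAt.hasW ((hasDerivAt_pi.1 h3) j)).conj
    exact h6.mul (hasW_comp h2
      ((contDiffAt_dzbar (ofReal_contDiffAt h1.self_of_nhds) j).differentiableAt (by simp)))
  rw [(h5.congr_of_eventuallyEq h4).D_eq, Finset.sum_comm]
  refine Finset.sum_congr rfl fun j _ => ?_
  rw [map_zero, zero_mul, zero_add]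
  unfold W
  rw [Finset.mul_sum]
  refine Finset.sum_congr rfl fun i _ => ?_
  simp only [gmat, Matrix.of_apply]
  ring

theorem IsCurve.herm_eq (hφ : ∀ᶠ u in 𝓝 w, ContDiffAt ℝ ∞ φ u) (hf : IsCurve w f f' f'') :
    D (Db fun t => (φ (f t) : ℂ)) 0 = herm φ w (f' 0) (f' 0) := by
  have h := (hf.lam_eq hφ).self_of_nhds
  simp only [hf.zero] at h
  rw [h]
  unfold herm
  exact Finset.sum_congr rfl fun i _ => Finset.sum_congr rfl fun j _ => by ring

theorem IsCurve.Dblam_eq (hφ : ∀ᶠ u in 𝓝 w, ContDiffAt ℝ ∞ φ u) (hf : IsCurve w f f' f'') :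
    (Db (D (Db fun t => (φ (f t) : ℂ)))) =ᶠ[𝓝 0]
      fun t => ∑ i, ∑ j, f' t i * (conj (f'' t j) * gmat φ (f t) i j +
        conj (f' t j) * ∑ l, conj (f' t l) * dzbar l (fun u => gmat φ u i j) (f t)) := by
  filter_upwards [hf.ev hφ, hf.deriv1, hf.deriv2, (hf.lam_eq hφ).eventuallyEq_nhds]
    with t h1 h2 h3 h4
  have h5 : ∀ i j, ∃ A, HasW (fun t => f' t i * conj (f' t j) * gmat φ (f t) i j) A
      (f' t i * (conj (f'' t j) * gmat φ (f t) i j +
        conj (f' t j) * Wb (fun u => gmat φ u i j) (f t) (f' t))) t := by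
    intro i j
    have h6 : HasW (fun s => conj (f' s j)) (conj (0 : ℂ)) (conj (f'' t j)) t :=
      (HasDerivAt.hasW ((hasDerivAt_pi.1 h3) j)).conj
    have h7 : HasW (fun s => f' s i) (f'' t i) 0 t := HasDerivAt.hasW ((hasDerivAt_pi.1 h3) i)
    have h8 := (h7.mul h6).mul (hasW_comp (G := fun u => gmat φ u i j) h2
      ((contDiffAt_gmat h1.self_of_nhds i j).differentiableAt (by simp)))
    exact ⟨_, h8.cast rfl (by ring)⟩
  choose A hA using h5
  have h6 := HasW.sum Finset.univ fun i _ => HasW.sum Finset.univ fun j _ => hA i j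
  rw [(h6.congr_of_eventuallyEq h4).Db_eq]
  rfl

/-- The fourth derivative along the curve. -/
theorem IsCurve.fourth (hφ : ∀ᶠ u in 𝓝 w, ContDiffAt ℝ ∞ φ u) (hf : IsCurve w f f' f'') :
    D (Db (D (Db fun t => (φ (f t) : ℂ)))) 0 =
      ∑ i, ∑ j, (f'' 0 i * (conj (f'' 0 j) * gmat φ w i j +
        conj (f' 0 j) * ∑ l, conj (f' 0 l) * dzbar l (fun u => gmat φ u i j) w) +
      f' 0 i * (conj (f'' 0 j) * W (fun u => gmat φ u i j) w (f' 0) +
        conj (f' 0 j) * ∑ l, conj (f' 0 l) * W (dzbar l fun u => gmat φ u i j) w (f' 0))) := by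
  have h1 := (hf.ev hφ).self_of_nhds
  have h2 := hf.deriv1.self_of_nhds
  have h3 := hf.deriv2.self_of_nhds
  have h4 : ∀ j, HasW (fun s => conj (f'' s j)) 0 (conj (deriv (fun s => f'' s j) 0)) 0 := by
    intro j
    have h5 : DifferentiableAt ℂ (fun s => f'' s j) 0 := (differentiableAt_pi.1 hf.deriv3) j
    have h6 := (HasDerivAt.hasW h5.hasDerivAt).conj
    simpa using h6
  have h6 : ∀ j, HasW (fun s => conj (f' s j)) 0 (conj (f'' 0 j)) 0 := by
    intro j
    have := (HasDerivAt.hasW ((hasDerivAt_pi.1 h3) j)).conj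
    simpa using this
  have h7 : ∀ i, HasW (fun s => f' s i) (f'' 0 i) 0 0 := fun i =>
    HasDerivAt.hasW ((hasDerivAt_pi.1 h3) i)
  have h8 : ∀ i j, ∃ B, HasW (fun t => f' t i * (conj (f'' t j) * gmat φ (f t) i j +
        conj (f' t j) * ∑ l, conj (f' t l) * dzbar l (fun u => gmat φ u i j) (f t)))
      (f'' 0 i * (conj (f'' 0 j) * gmat φ w i j +
        conj (f' 0 j) * ∑ l, conj (f' 0 l) * dzbar l (fun u => gmat φ u i j) w) +
      f' 0 i * (conj (f'' 0 j) * W (fun u => gmat φ u i j) w (f' 0) +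
        conj (f' 0 j) * ∑ l, conj (f' 0 l) * W (dzbar l fun u => gmat φ u i j) w (f' 0))) B 0 := by
    intro i j
    have h9 := hasW_comp (G := fun u => gmat φ u i j) h2
      ((contDiffAt_gmat h1.self_of_nhds i j).differentiableAt (by simp))
    have h10 : ∀ l, HasW (fun t => conj (f' t l) * dzbar l (fun u => gmat φ u i j) (f t)) _ _ 0 :=
      fun l => (h6 l).mul (hasW_comp h2
        ((contDiffAt_dzbar (contDiffAt_gmat h1.self_of_nhds i j) l).differentiableAt (by simp)))
    have h11 := HasW.sum Finset.univ fun l _ => h10 l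
    have h12 := (h7 i).mul (((h4 j).mul h9).add ((h6 j).mul h11))
    exact ⟨_, h12.cast (by rw [hf.zero]; simp only [zero_mul, zero_add]) rfl⟩
  choose B hB using h8
  have h9 := HasW.sum Finset.univ fun i _ => HasW.sum Finset.univ fun j _ => hB i j
  exact (h9.congr_of_eventuallyEq (hf.Dblam_eq hφ)).D_eq

end

/-! ### The algebraic part -/

theorem herm_conj {φ : (Fin n → ℂ) → ℝ} {w : Fin n → ℂ} (h : ContDiffAt ℝ ∞ φ w)
    (x y : Fin n → ℂ) : conj (herm φ w x y) = herm φ w y x := by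
  unfold herm
  simp only [map_sum, map_mul, gmat_conj h, Complex.conj_conj]
  rw [Finset.sum_comm]
  exact Finset.sum_congr rfl fun i _ => Finset.sum_congr rfl fun j _ => by ring

theorem herm_add (φ : (Fin n → ℂ) → ℝ) (w x y x' y' : Fin n → ℂ) :
    herm φ w (x + y) (x' + y') = herm φ w x x' + herm φ w x y' + herm φ w y x' +
      herm φ w y y' := by
  unfold herm
  simp only [Pi.add_apply, map_add, mul_add, add_mul, Finset.sum_add_distrib]
  ring

theorem gmat_det {φ : (Fin n → ℂ) → ℝ} {w : Fin n → ℂ}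
    (hpos : ∀ x : Fin n → ℂ, x ≠ 0 → 0 < (herm φ w x x).re) : IsUnit (gmat φ w).det := by
  rw [isUnit_iff_ne_zero]
  intro h0
  obtain ⟨x, hx, hx'⟩ := Matrix.exists_vecMul_eq_zero_iff.2 h0
  have h1 := hpos x hx
  have h2 : herm φ w x x = 0 := by
    unfold herm
    rw [Finset.sum_comm]
    refine Finset.sum_eq_zero fun j _ => ?_
    have h3 := congrFun hx' j
    simp only [Matrix.vecMul, dotProduct, Pi.zero_apply] at h3
    rw [← Finset.sum_mul, Finset.sum_congr rfl fun i _ => mul_comm (gmat φ w i j) (x i), h3,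
      zero_mul]
  rw [h2] at h1
  simp at h1

/-- The curvature in the direction `v` is at least minus the fourth derivative of the potential
along a holomorphic curve with tangent vector `v`. -/
theorem IsCurve.le_curv {φ : (Fin n → ℂ) → ℝ} {w : Fin n → ℂ} {f f' f'' : ℂ → Fin n → ℂ}
    (hφ : ∀ᶠ u in 𝓝 w, ContDiffAt ℝ ∞ φ u)
    (hpos : ∀ x : Fin n → ℂ, x ≠ 0 → 0 < (herm φ w x x).re) (hf : IsCurve w f f' f'') :
    -(D (Db (D (Db fun t => (φ (f t) : ℂ)))) 0).re ≤
      (∑ i, ∑ j, ∑ k, ∑ l, curv φ w i j k l * f' 0 i * (starRingEnd ℂ) (f' 0 j) * f' 0 k *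
        (starRingEnd ℂ) (f' 0 l)).re := by
  have hw := hφ.self_of_nhds
  set v := f' 0 with hv
  set a := f'' 0 with ha
  set al : Fin n → ℂ := fun q => ∑ i, v i * W (fun u => gmat φ u i q) w v with hal
  set Γ : Fin n → ℂ := fun p => ∑ q, al q * (gmat φ w)⁻¹ q p with hΓ
  have hdet := gmat_det hpos
  have hΓM : ∀ j, ∑ i, Γ i * gmat φ w i j = al j := by
    intro j
    simp only [hΓ, Finset.sum_mul]
    rw [Finset.sum_comm]
    have h1 : ∀ q, ∑ i, al q * (gmat φ w)⁻¹ q i * gmat φ w i j = al q * (if q = j then 1 else 0) := by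
      intro q
      have h2 := congrFun (congrFun (Matrix.nonsing_inv_mul _ hdet) q) j
      rw [Matrix.mul_apply, Matrix.one_apply] at h2
      rw [← h2, Finset.mul_sum]
      exact Finset.sum_congr rfl fun i _ => by ring
    rw [Finset.sum_congr rfl fun q _ => h1 q]
    simp
  have hherm : ∀ y, herm φ w Γ y = ∑ j, al j * conj (y j) := by
    intro y
    unfold herm
    rw [Finset.sum_comm]
    refine Finset.sum_congr rfl fun j _ => ?_
    rw [← hΓM j, Finset.sum_mul]
    exact Finset.sum_congr rfl fun i _ => by ring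
  have hbeta : ∀ p, ∑ j, conj (v j) * ∑ l, conj (v l) * dzbar l (fun u => gmat φ u p j) w =
      conj (al p) := by
    intro p
    simp only [hal, W, map_sum, map_mul]
    refine Finset.sum_congr rfl fun j _ => ?_
    congr 1
    refine Finset.sum_congr rfl fun l _ => ?_
    rw [dzbar_gmat hw hφ]
  -- the four parts of the fourth derivative
  set T4 : ℂ := ∑ i, ∑ j, v i * (conj (v j) * ∑ l, conj (v l) *
    W (dzbar l fun u => gmat φ u i j) w v) with hT4
  have hfour : D (Db (D (Db fun t => (φ (f t) : ℂ)))) 0 =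
      herm φ w a a + ∑ i, a i * conj (al i) + ∑ j, al j * conj (a j) + T4 := by
    rw [hf.fourth hφ]
    have e1 : ∑ i, ∑ j, a i * (conj (a j) * gmat φ w i j) = herm φ w a a := by
      unfold herm
      exact Finset.sum_congr rfl fun i _ => Finset.sum_congr rfl fun j _ => by ring
    have e2 : ∑ i, ∑ j, a i * (conj (v j) * ∑ l, conj (v l) * dzbar l (fun u => gmat φ u i j) w) =
        ∑ i, a i * conj (al i) := by
      refine Finset.sum_congr rfl fun i _ => ?_
      rw [← Finset.mul_sum, hbeta]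
    have e3 : ∑ i, ∑ j, v i * (conj (a j) * W (fun u => gmat φ u i j) w v) =
        ∑ j, al j * conj (a j) := by
      rw [Finset.sum_comm]
      refine Finset.sum_congr rfl fun j _ => ?_
      simp only [hal]
      rw [Finset.sum_mul]
      exact Finset.sum_congr rfl fun i _ => by ring
    rw [← e1, ← e2, ← e3, hT4]
    simp only [← Finset.sum_add_distrib]
    refine Finset.sum_congr rfl fun i _ => Finset.sum_congr rfl fun j _ => ?_
    simp only [← hv, ← ha]
    ring
  have hcurv : ∑ i, ∑ j, ∑ k, ∑ l, curv φ w i j k l * v i * (starRingEnd ℂ) (v j) * v k *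
        (starRingEnd ℂ) (v l) = - T4 + herm φ w Γ Γ := by
    have e1 : T4 = ∑ i, ∑ j, ∑ k, ∑ l, dz k (dzbar l fun u => gmat φ u i j) w * v i *
        conj (v j) * v k * conj (v l) := by
      rw [hT4]
      refine Finset.sum_congr rfl fun i _ => Finset.sum_congr rfl fun j _ => ?_
      rw [Finset.sum_comm, Finset.mul_sum, Finset.mul_sum]
      refine Finset.sum_congr rfl fun l _ => ?_
      unfold W
      rw [Finset.mul_sum, Finset.mul_sum, Finset.mul_sum]
      exact Finset.sum_congr rfl fun k _ => by ring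
    have e2 : herm φ w Γ Γ = ∑ p, Γ p * conj (al p) := by
      rw [← herm_conj hw, hherm, map_sum]
      refine Finset.sum_congr rfl fun p _ => ?_
      rw [map_mul, Complex.conj_conj]
      ring
    have e3 : ∑ p, Γ p * conj (al p) = ∑ i, ∑ j, ∑ k, ∑ l,
        (∑ p, ∑ q, (gmat φ w)⁻¹ q p * dz k (fun u => gmat φ u i q) w *
          dzbar l (fun u => gmat φ u p j) w) * v i * conj (v j) * v k * conj (v l) := by
      have e4 : ∀ p, Γ p * conj (al p) = ∑ q, (gmat φ w)⁻¹ q p *
          (∑ i, ∑ k, v i * v k * dz k (fun u => gmat φ u i q) w) *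
          (∑ j, ∑ l, conj (v j) * conj (v l) * dzbar l (fun u => gmat φ u p j) w) := by
        intro p
        rw [← hbeta p]
        simp only [hΓ, Finset.sum_mul]
        refine Finset.sum_congr rfl fun q _ => ?_
        have e5 : al q = ∑ i, ∑ k, v i * v k * dz k (fun u => gmat φ u i q) w := by
          simp only [hal, W, Finset.mul_sum]
          exact Finset.sum_congr rfl fun i _ => Finset.sum_congr rfl fun k _ => by ring
        have e6 : ∑ j, conj (v j) * ∑ l, conj (v l) * dzbar l (fun u => gmat φ u p j) w =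
            ∑ j, ∑ l, conj (v j) * conj (v l) * dzbar l (fun u => gmat φ u p j) w := by
          simp only [Finset.mul_sum]
          exact Finset.sum_congr rfl fun i _ => Finset.sum_congr rfl fun k _ => by ring
        rw [e5, e6]
        ring
      rw [Finset.sum_congr rfl fun p _ => e4 p]
      simp only [Finset.mul_sum, Finset.sum_mul]
      -- reorder the sums
      have r1 : ∀ g : Fin n → Fin n → Fin n → Fin n → Fin n → Fin n → ℂ,
          ∑ p, ∑ q, ∑ j, ∑ l, ∑ i, ∑ k, g p q j l i k =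
          ∑ i, ∑ j, ∑ k, ∑ l, ∑ p, ∑ q, g p q j l i k := by
        intro g
        have s1 : ∀ p q, ∑ j, ∑ l, ∑ i, ∑ k, g p q j l i k = ∑ x : Fin n × Fin n × Fin n × Fin n,
            g p q x.1 x.2.1 x.2.2.1 x.2.2.2 := by
          intro p q
          simp only [Fintype.sum_prod_type]
        have s2 : ∑ p, ∑ q, ∑ j, ∑ l, ∑ i, ∑ k, g p q j l i k =
            ∑ x : Fin n × Fin n × Fin n × Fin n, ∑ p, ∑ q, g p q x.1 x.2.1 x.2.2.1 x.2.2.2 := by
          simp only [s1]
          rw [Finset.sum_congr rfl fun p _ => Finset.sum_comm, Finset.sum_comm]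
        rw [s2]
        simp only [Fintype.sum_prod_type]
        -- now j l i k to i j k l
        rw [Finset.sum_congr rfl fun j _ => Finset.sum_comm, Finset.sum_comm]
        refine Finset.sum_congr rfl fun i _ => Finset.sum_congr rfl fun j _ => ?_
        rw [Finset.sum_comm]
      rw [r1]
      refine Finset.sum_congr rfl fun i _ => Finset.sum_congr rfl fun j _ =>
        Finset.sum_congr rfl fun k _ => Finset.sum_congr rfl fun l _ =>
        Finset.sum_congr rfl fun p _ => Finset.sum_congr rfl fun q _ => ?_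
      ring
    rw [e1, e2, e3]
    simp only [← Finset.sum_neg_distrib, ← Finset.sum_add_distrib]
    refine Finset.sum_congr rfl fun i _ => Finset.sum_congr rfl fun j _ =>
      Finset.sum_congr rfl fun k _ => Finset.sum_congr rfl fun l _ => ?_
    unfold curv
    ring
  have htotal : D (Db (D (Db fun t => (φ (f t) : ℂ)))) 0 +
      ∑ i, ∑ j, ∑ k, ∑ l, curv φ w i j k l * v i * (starRingEnd ℂ) (v j) * v k *
        (starRingEnd ℂ) (v l) = herm φ w (a + Γ) (a + Γ) := by
    rw [hfour, hcurv, herm_add, ← herm_conj hw Γ a, hherm a, map_sum]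
    have e1 : ∑ j, conj (al j * conj (a j)) = ∑ i, a i * conj (al i) := by
      refine Finset.sum_congr rfl fun j _ => ?_
      rw [map_mul, Complex.conj_conj]
      ring
    rw [e1]
    ring
  have hnn : 0 ≤ (herm φ w (a + Γ) (a + Γ)).re := by
    by_cases h0 : a + Γ = 0
    · rw [h0]
      unfold herm
      simp
    · exact (hpos _ h0).le
  have h9 := congrArg Complex.re htotal
  rw [Complex.add_re] at h9
  linarith

end Pool.Agent.Y184.HS
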