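import Pool.Agent.Y184.HS.Min

/-! Existence of the minimum on every orbit. -/

set_option autoImplicit false
set_option linter.unusedSectionVars false

open scoped Manifold ContDiff Topology
open Filter Set

namespace Pool.Agent.Y184.HS

variable {n : ℕ} {F : Type} [Fintype F]

/-- The functional on the orbit. -/
noncomputable def fun0 (κ : F → ℝ) (z : F → ℂ) (a : F → ℝ) : ℝ :=
  ∑ i, (‖z i‖ ^ 2 * Real.exp (2 * a i) - 2 * (κ i * a i))

theorem coer1 {p c : ℝ} (hp : 0 < p) (hc : 0 < c) (t : ℝ) :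
    c * |t| - 9 * c ^ 2 / (8 * p) ≤ p * Real.exp (2 * t) - 2 * (c * t) := by
  rcases le_total 0 t with ht | ht
  · rw [abs_of_nonneg ht]
    have h1 : 1 + 2 * t + (2 * t) ^ 2 / 2 ≤ Real.exp (2 * t) :=
      Real.quadratic_le_exp_of_nonneg (by linarith)
    have h2 : p * (1 + 2 * t + (2 * t) ^ 2 / 2) ≤ p * Real.exp (2 * t) :=
      mul_le_mul_of_nonneg_left h1 hp.le
    have h3 : 0 ≤ p * (1 + 2 * t) := by positivity
    have h4 : 9 * c ^ 2 / (8 * p) - 3 * c * t + 2 * p * t ^ 2 = (3 * c - 4 * p * t) ^ 2 / (8 * p) := by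
      field_simp
      ring
    have h5 : 0 ≤ (3 * c - 4 * p * t) ^ 2 / (8 * p) := by positivity
    nlinarith
  · rw [abs_of_nonpos ht]
    have h1 : 0 < p * Real.exp (2 * t) := by positivity
    have h2 : 0 ≤ 9 * c ^ 2 / (8 * p) := by positivity
    nlinarith

theorem fun0_shift {ν : F → Fin n → ℤ} {κ : F → ℝ} {a : F → ℝ} (ha : a ∈ LL ν) (y : Fin n → ℝ)
    (z : F → ℂ) :
    fun0 κ z a = ∑ i, (‖z i‖ ^ 2 * Real.exp (2 * a i) - 2 * (ell ν κ i y * a i)) := by
  unfold fun0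
  simp only [Finset.sum_sub_distrib, ← Finset.mul_sum]
  have h := sum_mul_ell (κ := κ) ha y
  have h1 : ∑ i, κ i * a i = ∑ i, ell ν κ i y * a i := by
    rw [Finset.sum_congr rfl fun i _ => mul_comm (ell ν κ i y) (a i), h]
    exact Finset.sum_congr rfl fun i _ => mul_comm _ _
  rw [h1]

namespace Vtx

variable {ν : F → Fin n → ℤ} {κ : F → ℝ} (V : Vtx ν κ)

open Classical in
theorem norm_LL : ∃ K : ℝ, 0 < K ∧ ∀ a ∈ LL ν,
    ‖a‖ ≤ K * ∑ i, (if i ∈ Set.range V.s then 0 else |a i|) := by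
  refine ⟨1 + ∑ i, ∑ l, |(V.E i l : ℝ)|, by positivity, fun a ha => ?_⟩
  have hK : ∀ i l, |(V.E i l : ℝ)| ≤ ∑ i, ∑ l, |(V.E i l : ℝ)| := by
    intro i l
    have h1 : |(V.E i l : ℝ)| ≤ ∑ l, |(V.E i l : ℝ)| :=
      Finset.single_le_sum (f := fun l => |(V.E i l : ℝ)|) (fun _ _ => abs_nonneg _)
        (Finset.mem_univ l)
    exact h1.trans (Finset.single_le_sum (f := fun i => ∑ l, |(V.E i l : ℝ)|)
      (fun _ _ => Finset.sum_nonneg fun _ _ => abs_nonneg _) (Finset.mem_univ i))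
  have hS : 0 ≤ ∑ i, (if i ∈ Set.range V.s then 0 else |a i|) :=
    Finset.sum_nonneg fun i _ => by split_ifs; exacts [le_rfl, abs_nonneg _]
  have hE : 0 ≤ ∑ i, ∑ l, |(V.E i l : ℝ)| :=
    Finset.sum_nonneg fun _ _ => Finset.sum_nonneg fun _ _ => abs_nonneg _
  rw [pi_norm_le_iff_of_nonneg (by positivity)]
  intro i
  rw [Real.norm_eq_abs]
  by_cases hi : i ∈ Set.range V.s
  · obtain ⟨l, rfl⟩ := hi
    rw [V.LL_s ha l, abs_neg]
    calc |∑ i, (if i ∈ Set.range V.s then 0 else a i * (V.E i l : ℝ))|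
        ≤ ∑ i, |(if i ∈ Set.range V.s then 0 else a i * (V.E i l : ℝ))| :=
          Finset.abs_sum_le_sum_abs _ _
      _ ≤ ∑ i, (∑ i, ∑ l, |(V.E i l : ℝ)|) * (if i ∈ Set.range V.s then 0 else |a i|) := by
          refine Finset.sum_le_sum fun i _ => ?_
          split_ifs
          · simp
          · rw [abs_mul, mul_comm]
            exact mul_le_mul_of_nonneg_right (hK i l) (abs_nonneg _)
      _ = (∑ i, ∑ l, |(V.E i l : ℝ)|) * ∑ i, (if i ∈ Set.range V.s then 0 else |a i|) := by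
          rw [Finset.mul_sum]
      _ ≤ _ := by
          rw [add_mul, one_mul]
          linarith
  · have h1 : |a i| ≤ ∑ i, (if i ∈ Set.range V.s then 0 else |a i|) := by
      have h2 := Finset.single_le_sum (f := fun i => if i ∈ Set.range V.s then 0 else |a i|)
        (fun i _ => by split_ifs; exacts [le_rfl, abs_nonneg _]) (Finset.mem_univ i)
      simpa [hi] using h2
    rw [add_mul, one_mul]
    have h3 := mul_nonneg hE hS
    linarith

theorem exists_sol {z : F → ℂ} (hz : ∀ i, i ∉ Set.range V.s → z i ≠ 0) :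
    ∃ a x, Sol ν κ z a x := by
  classical
  obtain ⟨K, hK, hK'⟩ := V.norm_LL
  -- uniform lower bound of the `ell i y`
  obtain ⟨ε, hε, hε'⟩ : ∃ ε : ℝ, 0 < ε ∧ ∀ i, i ∉ Set.range V.s → ε ≤ ell ν κ i V.y := by
    have h : ∀ᶠ ε : ℝ in 𝓝[>] 0, ∀ i, i ∉ Set.range V.s → ε ≤ ell ν κ i V.y := by
      rw [eventually_all]
      intro i
      by_cases hi : i ∈ Set.range V.s
      · exact Eventually.of_forall fun _ h => absurd hi h
      · have h1 : ∀ᶠ ε : ℝ in 𝓝[>] 0, ε < ell ν κ i V.y :=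
          (gt_mem_nhds (V.ell_pos hi)).filter_mono nhdsWithin_le_nhds
        exact h1.mono fun ε h2 _ => h2.le
    obtain ⟨ε, h1, h2⟩ := (h.and self_mem_nhdsWithin).exists
    exact ⟨ε, h2, h1⟩
  have hcont : Continuous fun a : LL ν => fun0 κ z a := by
    unfold fun0
    have h : ∀ i, Continuous fun a : LL ν => (a : F → ℝ) i := fun i =>
      (continuous_apply i).comp continuous_subtype_val
    exact continuous_finset_sum _ fun i _ =>
      ((Real.continuous_exp.comp ((h i).const_mul 2)).const_mul _).sub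
        (((h i).const_mul _).const_mul _)
  set m : ℝ := ∑ i, (if i ∈ Set.range V.s then 0 else 9 * (ell ν κ i V.y) ^ 2 / (8 * ‖z i‖ ^ 2))
    with hm
  have hlow : ∀ a : LL ν, ε / K * ‖a‖ - m ≤ fun0 κ z a := by
    intro a
    rw [fun0_shift a.2 V.y z]
    have h1 : ∀ i, (if i ∈ Set.range V.s then 0 else
        (ε * |(a : F → ℝ) i| - 9 * (ell ν κ i V.y) ^ 2 / (8 * ‖z i‖ ^ 2))) ≤
        ‖z i‖ ^ 2 * Real.exp (2 * (a : F → ℝ) i) - 2 * (ell ν κ i V.y * (a : F → ℝ) i) := by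
      intro i
      split_ifs with hi
      · rw [(V.iff i).2 hi]
        have : 0 ≤ ‖z i‖ ^ 2 * Real.exp (2 * (a : F → ℝ) i) := by positivity
        linarith
      · have h2 := coer1 (p := ‖z i‖ ^ 2) (c := ell ν κ i V.y)
          (pow_pos (norm_pos_iff.2 (hz i hi)) 2) (V.ell_pos hi) ((a : F → ℝ) i)
        have h3 : ε * |(a : F → ℝ) i| ≤ ell ν κ i V.y * |(a : F → ℝ) i| :=
          mul_le_mul_of_nonneg_right (hε' i hi) (abs_nonneg _)
        linarith
    refine le_trans ?_ (Finset.sum_le_sum fun i _ => h1 i)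
    have h2 : ∑ i, (if i ∈ Set.range V.s then 0 else
        (ε * |(a : F → ℝ) i| - 9 * (ell ν κ i V.y) ^ 2 / (8 * ‖z i‖ ^ 2))) =
        ε * ∑ i, (if i ∈ Set.range V.s then 0 else |(a : F → ℝ) i|) - m := by
      rw [hm, Finset.mul_sum, ← Finset.sum_sub_distrib]
      refine Finset.sum_congr rfl fun i _ => ?_
      split_ifs <;> simp
    rw [h2]
    have h3 : ‖a‖ ≤ K * ∑ i, (if i ∈ Set.range V.s then 0 else |(a : F → ℝ) i|) := by
      have := hK' a.1 a.2
      exact this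
    have h4 : ε / K * ‖a‖ ≤ ε * ∑ i, (if i ∈ Set.range V.s then 0 else |(a : F → ℝ) i|) := by
      have h5 : ε / K * ‖a‖ ≤ ε / K * (K * ∑ i, (if i ∈ Set.range V.s then 0 else
        |(a : F → ℝ) i|)) := mul_le_mul_of_nonneg_left h3 (by positivity)
      refine h5.trans (le_of_eq ?_)
      field_simp
    linarith
  have hcoer : Tendsto (fun a : LL ν => fun0 κ z a) (cocompact (LL ν)) atTop := by
    refine tendsto_atTop_mono hlow ?_
    have h1 : Tendsto (fun a : LL ν => ε / K * ‖a‖) (cocompact (LL ν)) atTop :=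
      (tendsto_norm_cocompact_atTop).const_mul_atTop (by positivity)
    exact tendsto_atTop_add_const_right _ (-m) h1
  obtain ⟨a, ha⟩ := hcont.exists_forall_le hcoer
  have hstat : ∀ b ∈ LL ν, ∑ i, (‖z i‖ ^ 2 * Real.exp (2 * (a : F → ℝ) i) - κ i) * b i = 0 := by
    intro b hb
    have h1 : HasDerivAt (fun t : ℝ => fun0 κ z ((a : F → ℝ) + t • b))
        (∑ i, (‖z i‖ ^ 2 * (Real.exp (2 * ((a : F → ℝ) i + 0 * b i)) * (2 * (1 * b i))) -
          2 * (κ i * (1 * b i)))) 0 := by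
      unfold fun0
      refine HasDerivAt.fun_sum fun i _ => ?_
      have h2 : HasDerivAt (fun t : ℝ => (a : F → ℝ) i + t * b i) (1 * b i) 0 :=
        ((hasDerivAt_id (0 : ℝ)).mul_const (b i)).const_add _
      exact ((h2.const_mul 2).exp.const_mul _).sub ((h2.const_mul (κ i)).const_mul 2)
    have h2 : IsLocalMin (fun t : ℝ => fun0 κ z ((a : F → ℝ) + t • b)) 0 := by
      refine Eventually.of_forall fun t => ?_
      have h3 := ha (a + t • ⟨b, hb⟩)
      simpa using h3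
    have h3 := h2.hasDerivAt_eq_zero h1
    have h4 : ∑ i, (‖z i‖ ^ 2 * (Real.exp (2 * ((a : F → ℝ) i + 0 * b i)) * (2 * (1 * b i))) -
          2 * (κ i * (1 * b i))) =
        2 * ∑ i, (‖z i‖ ^ 2 * Real.exp (2 * (a : F → ℝ) i) - κ i) * b i := by
      rw [Finset.mul_sum]
      refine Finset.sum_congr rfl fun i _ => ?_
      rw [zero_mul, add_zero]
      ring
    rw [h4] at h3
    linarith
  obtain ⟨x, hx⟩ := V.ann hstat
  refine ⟨a, x, a.2, fun i => ?_⟩
  have := hx i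
  unfold ell
  linarith

end Vtx

end Pool.Agent.Y184.HS
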