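import Pool.Agent.Y184.HS.Smooth
import Pool.Agent.Y184.HS.Disc

/-! The potential along a horizontal line in homogeneous coordinates. -/

set_option autoImplicit false
set_option linter.unusedSectionVars false

open scoped Manifold ContDiff Topology ComplexConjugate
open Filter Set

namespace Pool.Agent.Y184.HS

theorem contDiffAt_D {f : ℂ → ℂ} {w : ℂ} (hf : ContDiffAt ℝ ∞ f w) : ContDiffAt ℝ ∞ (D f) w := by
  have h1 : ContDiffAt ℝ ∞ (fderiv ℝ f) w := hf.fderiv_right (m := ∞) (by simp)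
  unfold D
  exact ((h1.clm_apply contDiffAt_const).sub
    (contDiffAt_const.mul (h1.clm_apply contDiffAt_const))).div_const _

theorem contDiffAt_Db {f : ℂ → ℂ} {w : ℂ} (hf : ContDiffAt ℝ ∞ f w) : ContDiffAt ℝ ∞ (Db f) w := by
  have h1 : ContDiffAt ℝ ∞ (fderiv ℝ f) w := hf.fderiv_right (m := ∞) (by simp)
  unfold Db
  exact ((h1.clm_apply contDiffAt_const).add
    (contDiffAt_const.mul (h1.clm_apply contDiffAt_const))).div_const _

theorem contDiffAt_conj {f : ℂ → ℂ} {w : ℂ} (hf : ContDiffAt ℝ ∞ f w) :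
    ContDiffAt ℝ ∞ (fun t => conj (f t)) w :=
  (Complex.conjCLE : ℂ →L[ℝ] ℂ).contDiff.contDiffAt.comp w hf

theorem hasW_smooth {f : ℂ → ℂ} {w : ℂ} (hf : ContDiffAt ℝ ∞ f w) : HasW f (D f w) (Db f w) w :=
  hasW_of_differentiableAt (hf.differentiableAt (by simp))

/-- `∂f/∂t` is the conjugate of `∂f/∂t̄` for real functions. -/
theorem D_real {f : ℂ → ℝ} {t : ℂ} (hf : DifferentiableAt ℝ f t) :
    D (fun s => (f s : ℂ)) t = conj (Db (fun s => (f s : ℂ)) t) := by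
  have h2 : HasFDerivAt (fun u => (f u : ℂ)) (Complex.ofRealCLM.comp (fderiv ℝ f t)) t :=
    Complex.ofRealCLM.hasFDerivAt.comp t hf.hasFDerivAt
  unfold D Db
  rw [h2.fderiv]
  have : conj (2 : ℂ) = 2 := by
    simpa using Complex.conj_ofReal 2
  simp [this]
  ring

theorem Db_zero_of {f : ℂ → ℂ} {t : ℂ} (h : f =ᶠ[𝓝 t] fun _ => 0) : Db f t = 0 := by
  have h1 := (hasW_const 0 t).congr_of_eventuallyEq h
  exact h1.Db_eq

theorem D_zero_of {f : ℂ → ℂ} {t : ℂ} (h : f =ᶠ[𝓝 t] fun _ => 0) : D f t = 0 := by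
  have h1 := (hasW_const 0 t).congr_of_eventuallyEq h
  exact h1.D_eq

variable {n : ℕ} {F : Type} [Fintype F]

/-- The complexified Lie algebra. -/
def InC (ν : F → Fin n → ℤ) (c : F → ℂ) : Prop := ∀ k, ∑ i, c i * (ν i k : ℂ) = 0

theorem InC.conj {ν : F → Fin n → ℤ} {c : F → ℂ} (h : InC ν c) : InC ν fun i => conj (c i) := by
  intro k
  have h1 := congrArg (starRingEnd ℂ) (h k)
  rw [map_sum, map_zero] at h1
  rw [← h1]
  refine Finset.sum_congr rfl fun i _ => ?_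
  rw [map_mul]
  congr 1
  exact (Complex.conj_eq_iff_real.2 ⟨(ν i k : ℝ), by push_cast; rfl⟩).symm

theorem Vtx.InC_zero {ν : F → Fin n → ℤ} {κ : F → ℝ} (V : Vtx ν κ) {c : F → ℂ} (hc : InC ν c)
    (h : ∀ i, i ∉ Set.range V.s → c i = 0) : c = 0 := by
  classical
  funext i
  by_cases hi : i ∈ Set.range V.s
  · obtain ⟨l, rfl⟩ := hi
    have h1 := V.sum_mul_E (R := ℂ) hc l
    rw [Finset.sum_eq_single (V.s l)] at h1
    · rw [V.E_s_self, Int.cast_one, mul_one] at h1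
      exact h1
    · intro j _ hj
      by_cases hj' : j ∈ Set.range V.s
      · obtain ⟨m, rfl⟩ := hj'
        have hml : m ≠ l := fun h => hj (by rw [h])
        rw [V.E_s, if_neg hml]
        simp
      · rw [h j hj', zero_mul]
    · intro h
      exact absurd (Finset.mem_univ _) h
  · exact h i hi

/-- The constraint in complex form. -/
theorem Sol.sumC {ν : F → Fin n → ℤ} {κ : F → ℝ} {z : F → ℂ} {a : F → ℝ} {x : Fin n → ℝ}
    (h : Sol ν κ z a x) {c : F → ℂ} (hc : InC ν c) :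
    ∑ i, c i * (z i * conj (z i) * Complex.exp (2 * (a i : ℂ)) - (κ i : ℂ)) = 0 := by
  have h1 : ∀ i, z i * conj (z i) * Complex.exp (2 * (a i : ℂ)) - (κ i : ℂ) =
      ∑ k, (x k : ℂ) * (ν i k : ℂ) := by
    intro i
    have h2 := h.2 i
    unfold ell at h2
    rw [Complex.mul_conj, Complex.normSq_eq_norm_sq]
    have h3 := congrArg (fun r : ℝ => (r : ℂ)) h2
    push_cast at h3
    push_cast
    rw [h3]
    ring
  rw [Finset.sum_congr rfl fun i _ => by rw [h1 i]]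
  simp only [Finset.mul_sum]
  rw [Finset.sum_comm]
  refine Finset.sum_eq_zero fun k _ => ?_
  have h4 := hc k
  rw [Finset.sum_congr rfl fun i _ => by rw [show c i * ((x k : ℂ) * (ν i k : ℂ)) =
    (x k : ℂ) * (c i * (ν i k : ℂ)) by ring], ← Finset.mul_sum, h4, mul_zero]

/-- Horizontal lines through points of the level set. -/
structure Hor (ν : F → Fin n → ℤ) (κ : F → ℝ) (V : Vtx ν κ) (z ζ : F → ℂ) (A : ℂ → F → ℝ)
    (X : ℂ → Fin n → ℝ) : Prop where
  ne : ∀ i, i ∉ Set.range V.s → z i ≠ 0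
  smooth : ∀ᶠ t in 𝓝 0, ContDiffAt ℝ ∞ A t
  sol : ∀ᶠ t in 𝓝 (0 : ℂ), Sol ν κ (fun i => z i + t * ζ i) (A t) (X t)
  zero : A 0 = 0
  hor : ∀ c : F → ℂ, InC ν c → ∑ i, c i * (z i * conj (ζ i)) = 0

namespace Hor

variable {ν : F → Fin n → ℤ} {κ : F → ℝ} {V : Vtx ν κ} {z ζ : F → ℂ} {A : ℂ → F → ℝ}
  {X : ℂ → Fin n → ℝ} (H : Hor ν κ V z ζ A X)

/-- `∂A/∂t̄`. -/
noncomputable def dA (A : ℂ → F → ℝ) (i : F) : ℂ → ℂ := Db fun t => (A t i : ℂ)

/-- `∂A/∂t`. -/
noncomputable def bA (A : ℂ → F → ℝ) (i : F) : ℂ → ℂ := fun t => conj (dA A i t)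

/-- `∂²A/∂t̄∂t`. -/
noncomputable def lA (A : ℂ → F → ℝ) (i : F) : ℂ → ℂ := Db (bA A i)

/-- `exp (2 A)`. -/
noncomputable def eA (A : ℂ → F → ℝ) (i : F) : ℂ → ℂ := fun t => Complex.exp (2 * (A t i : ℂ))

include H

theorem sm (i : F) : ∀ᶠ t in 𝓝 0, ContDiffAt ℝ ∞ (fun t => (A t i : ℂ)) t := by
  filter_upwards [H.smooth] with t ht
  exact Complex.ofRealCLM.contDiff.contDiffAt.comp t ((contDiffAt_pi.1 ht) i)

theorem sm_dA (i : F) : ∀ᶠ t in 𝓝 0, ContDiffAt ℝ ∞ (dA A i) t :=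
  (H.sm i).mono fun _ h => contDiffAt_Db h

theorem sm_bA (i : F) : ∀ᶠ t in 𝓝 0, ContDiffAt ℝ ∞ (bA A i) t :=
  (H.sm_dA i).mono fun _ h => contDiffAt_conj h

theorem sm_lA (i : F) : ∀ᶠ t in 𝓝 0, ContDiffAt ℝ ∞ (lA A i) t :=
  (H.sm_bA i).mono fun _ h => contDiffAt_Db h

theorem wA (i : F) : ∀ᶠ t in 𝓝 0, HasW (fun t => (A t i : ℂ)) (bA A i t) (dA A i t) t := by
  filter_upwards [H.sm i, H.smooth] with t h1 h2
  have h3 : DifferentiableAt ℝ (fun s => A s i) t :=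
    ((contDiffAt_pi.1 h2) i).differentiableAt (by simp)
  have h4 := hasW_smooth h1
  rw [D_real h3] at h4
  exact h4

theorem wb (i : F) : ∀ᶠ t in 𝓝 0, HasW (bA A i) (D (bA A i) t) (lA A i t) t :=
  (H.sm_bA i).mono fun _ h => hasW_smooth h

theorem wd (i : F) : ∀ᶠ t in 𝓝 0, HasW (dA A i) (conj (lA A i t)) (conj (D (bA A i) t)) t := by
  filter_upwards [H.wb i] with t h
  have h1 := h.conj
  have h2 : (fun s => conj (bA A i s)) = dA A i := by
    funext s
    simp [bA]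
  rw [h2] at h1
  exact h1

theorem we (i : F) : ∀ᶠ t in 𝓝 0, HasW (eA A i) (eA A i t * (2 * bA A i t))
    (eA A i t * (2 * dA A i t)) t := by
  filter_upwards [H.wA i] with t h
  have h1 : HasW (fun s => 2 * (A s i : ℂ)) (2 * bA A i t) (2 * dA A i t) t :=
    ((hasW_const 2 t).mul h).cast (by ring) (by ring)
  exact h1.comp_holo (Complex.hasDerivAt_exp _)

omit H in
theorem wu (i : F) (t : ℂ) : HasW (fun t => z i + t * ζ i) (ζ i) 0 t :=
  HasDerivAt.hasW (by simpa using ((hasDerivAt_id t).mul_const (ζ i)).const_add (z i))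

omit H in
theorem wu' (i : F) (t : ℂ) : HasW (fun t => conj (z i + t * ζ i)) 0 (conj (ζ i)) t :=
  (wu i t).conj.cast (by simp) rfl

/-- `∂A/∂t̄` takes values in the complexified Lie algebra. -/
theorem InC_dA : ∀ᶠ t in 𝓝 0, InC ν fun i => dA A i t := by
  have h1 : ∀ k, (fun t => ∑ i, (A t i : ℂ) * (ν i k : ℂ)) =ᶠ[𝓝 0] fun _ => 0 := by
    intro k
    filter_upwards [H.sol] with t ht
    have h2 := ht.1 k
    exact_mod_cast congrArg (fun r : ℝ => (r : ℂ)) h2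
  have h2 : ∀ᶠ t in 𝓝 (0 : ℂ), ∀ k, (fun t => ∑ i, (A t i : ℂ) * (ν i k : ℂ)) =ᶠ[𝓝 t]
      fun _ => 0 := by
    rw [eventually_all]
    intro k
    exact (h1 k).eventuallyEq_nhds
  have h3 : ∀ᶠ t in 𝓝 (0 : ℂ), ∀ i, HasW (fun t => (A t i : ℂ)) (bA A i t) (dA A i t) t := by
    rw [eventually_all]
    exact fun i => H.wA i
  filter_upwards [h2, h3] with t h4 h5 k
  have h6 : HasW (fun t => ∑ i, (A t i : ℂ) * (ν i k : ℂ)) (∑ i, (bA A i t) * (ν i k : ℂ))
      (∑ i, (dA A i t) * (ν i k : ℂ)) t :=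
    HasW.sum _ fun i _ => ((h5 i).mul (hasW_const (ν i k : ℂ) t)).cast (by ring) (by ring)
  rw [← h6.Db_eq]
  exact Db_zero_of (h4 k)

theorem InC_bA : ∀ᶠ t in 𝓝 0, InC ν fun i => bA A i t :=
  H.InC_dA.mono fun _ h => h.conj

theorem InC_lA : ∀ᶠ t in 𝓝 0, InC ν fun i => lA A i t := by
  have h1 : ∀ k, (fun t => ∑ i, bA A i t * (ν i k : ℂ)) =ᶠ[𝓝 0] fun _ => 0 := by
    intro k
    filter_upwards [H.InC_bA] with t ht
    exact ht k
  have h2 : ∀ᶠ t in 𝓝 (0 : ℂ), ∀ k, (fun t => ∑ i, bA A i t * (ν i k : ℂ)) =ᶠ[𝓝 t]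
      fun _ => 0 := by
    rw [eventually_all]
    intro k
    exact (h1 k).eventuallyEq_nhds
  have h3 : ∀ᶠ t in 𝓝 (0 : ℂ), ∀ i, HasW (bA A i) (D (bA A i) t) (lA A i t) t := by
    rw [eventually_all]
    exact fun i => H.wb i
  filter_upwards [h2, h3] with t h4 h5 k
  have h6 : HasW (fun t => ∑ i, bA A i t * (ν i k : ℂ)) (∑ i, D (bA A i) t * (ν i k : ℂ))
      (∑ i, (lA A i t) * (ν i k : ℂ)) t :=
    HasW.sum _ fun i _ => ((h5 i).mul (hasW_const (ν i k : ℂ) t)).cast (by ring) (by ring)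
  rw [← h6.Db_eq]
  exact Db_zero_of (h4 k)

theorem InC_DlA : InC ν fun i => D (lA A i) 0 := by
  intro k
  have h1 : (fun t => ∑ i, lA A i t * (ν i k : ℂ)) =ᶠ[𝓝 0] fun _ => 0 := by
    filter_upwards [H.InC_lA] with t ht
    exact ht k
  have h6 : HasW (fun t => ∑ i, lA A i t * (ν i k : ℂ)) (∑ i, D (lA A i) 0 * (ν i k : ℂ))
      (∑ i, (Db (lA A i) 0) * (ν i k : ℂ)) 0 :=
    HasW.sum _ fun i _ => ((hasW_smooth (H.sm_lA i).self_of_nhds).mul
      (hasW_const (ν i k : ℂ) 0)).cast (by ring) (by ring)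
  rw [← h6.D_eq]
  exact D_zero_of h1

omit H in
/-- The potential along the line. -/
noncomputable def Pc (κ : F → ℝ) (z ζ : F → ℂ) (A : ℂ → F → ℝ) (t : ℂ) : ℂ :=
  ∑ i, ((z i + t * ζ i) * conj (z i + t * ζ i) * eA A i t - 2 * ((κ i : ℂ) * (A t i : ℂ)))

theorem Db_Pc : Db (Pc κ z ζ A) =ᶠ[𝓝 0] fun t => ∑ i, (z i + t * ζ i) * conj (ζ i) * eA A i t := by
  have h3 : ∀ᶠ t in 𝓝 (0 : ℂ), ∀ i, HasW (fun t => (A t i : ℂ)) (bA A i t) (dA A i t) t := by
    rw [eventually_all]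
    exact fun i => H.wA i
  have h4 : ∀ᶠ t in 𝓝 (0 : ℂ), ∀ i, HasW (eA A i) (eA A i t * (2 * bA A i t))
      (eA A i t * (2 * dA A i t)) t := by
    rw [eventually_all]
    exact fun i => H.we i
  filter_upwards [h3, h4, H.sol, H.InC_dA] with t h5 h6 h7 h8
  have h9 : HasW (Pc κ z ζ A) _ _ t := HasW.sum Finset.univ fun i _ =>
    (((wu (z := z) (ζ := ζ) i t).mul (wu' i t)).mul (h6 i)).sub
      ((hasW_const 2 t).mul ((hasW_const (κ i : ℂ) t).mul (h5 i)))
  rw [h9.Db_eq]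
  have h10 := h7.sumC h8
  have h11 : ∑ i, (((0 : ℂ) * conj (z i + t * ζ i) + (z i + t * ζ i) * conj (ζ i)) * eA A i t +
      (z i + t * ζ i) * conj (z i + t * ζ i) * (eA A i t * (2 * dA A i t)) -
      ((0 : ℂ) * ((κ i : ℂ) * (A t i : ℂ)) + 2 * (0 * (A t i : ℂ) + (κ i : ℂ) * dA A i t))) =
      ∑ i, (z i + t * ζ i) * conj (ζ i) * eA A i t + 2 * ∑ i, dA A i t *
        ((z i + t * ζ i) * conj (z i + t * ζ i) * Complex.exp (2 * (A t i : ℂ)) - (κ i : ℂ)) := by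
    rw [Finset.mul_sum, ← Finset.sum_add_distrib]
    refine Finset.sum_congr rfl fun i _ => ?_
    unfold eA
    ring
  refine h11.trans ?_
  rw [h10, mul_zero, add_zero]

theorem DDb_Pc : D (Db (Pc κ z ζ A)) =ᶠ[𝓝 0] fun t => ∑ i, (ζ i * conj (ζ i) * eA A i t +
    (z i + t * ζ i) * conj (ζ i) * (eA A i t * (2 * bA A i t))) := by
  have h4 : ∀ᶠ t in 𝓝 (0 : ℂ), ∀ i, HasW (eA A i) (eA A i t * (2 * bA A i t))
      (eA A i t * (2 * dA A i t)) t := by
    rw [eventually_all]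
    exact fun i => H.we i
  filter_upwards [h4, H.Db_Pc.eventuallyEq_nhds] with t h6 h7
  have h9 : HasW (fun t => ∑ i, (z i + t * ζ i) * conj (ζ i) * eA A i t) _ _ t :=
    HasW.sum Finset.univ fun i _ =>
      (((wu (z := z) (ζ := ζ) i t).mul (hasW_const (conj (ζ i)) t)).mul (h6 i))
  rw [(h9.congr_of_eventuallyEq h7).D_eq]
  refine Finset.sum_congr rfl fun i _ => ?_
  ring

theorem DbDDb_Pc : Db (D (Db (Pc κ z ζ A))) =ᶠ[𝓝 0] fun t => ∑ i,
    (ζ i * conj (ζ i) * (eA A i t * (2 * dA A i t)) + (z i + t * ζ i) * (conj (ζ i) *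
      (eA A i t * (2 * dA A i t) * (2 * bA A i t) + eA A i t * (2 * lA A i t)))) := by
  have h4 : ∀ᶠ t in 𝓝 (0 : ℂ), ∀ i, HasW (eA A i) (eA A i t * (2 * bA A i t))
      (eA A i t * (2 * dA A i t)) t := by
    rw [eventually_all]
    exact fun i => H.we i
  have h5 : ∀ᶠ t in 𝓝 (0 : ℂ), ∀ i, HasW (bA A i) (D (bA A i) t) (lA A i t) t := by
    rw [eventually_all]
    exact fun i => H.wb i
  filter_upwards [h4, h5, H.DDb_Pc.eventuallyEq_nhds] with t h6 h8 h7
  have h9 : HasW (fun t => ∑ i, (ζ i * conj (ζ i) * eA A i t +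
    (z i + t * ζ i) * conj (ζ i) * (eA A i t * (2 * bA A i t)))) _ _ t :=
    HasW.sum Finset.univ fun i _ =>
      ((hasW_const (ζ i * conj (ζ i)) t).mul (h6 i)).add
      (((wu (z := z) (ζ := ζ) i t).mul (hasW_const (conj (ζ i)) t)).mul ((h6 i).mul
        ((hasW_const 2 t).mul (h8 i))))
  rw [(h9.congr_of_eventuallyEq h7).Db_eq]
  refine Finset.sum_congr rfl fun i _ => ?_
  ring

/-- The first derivatives of `A` vanish at `0`. -/
theorem dA_zero (i : F) : dA A i 0 = 0 := by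
  classical
  -- differentiate the constraint in direction c
  have h1 : ∀ c : F → ℂ, InC ν c → ∑ i, c i * (z i * conj (z i) * (2 * dA A i 0)) = 0 := by
    intro c hc
    have h2 : (fun t => ∑ i, c i * ((z i + t * ζ i) * conj (z i + t * ζ i) * eA A i t - (κ i : ℂ)))
        =ᶠ[𝓝 0] fun _ => 0 := by
      filter_upwards [H.sol] with t ht
      exact ht.sumC hc
    have h3 : HasW (fun t => ∑ i, c i * ((z i + t * ζ i) * conj (z i + t * ζ i) * eA A i t -
        (κ i : ℂ))) _ _ 0 := HasW.sum Finset.univ fun i _ => (hasW_const (c i) 0).mul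
      ((((wu (z := z) (ζ := ζ) i 0).mul (wu' i 0)).mul (H.we i).self_of_nhds).sub
        (hasW_const (κ i : ℂ) 0))
    have h4 := h3.Db_eq
    rw [Db_zero_of h2] at h4
    have h5 := H.hor c hc
    have h6 : ∀ i, eA A i 0 = 1 := by
      intro i
      unfold eA
      rw [H.zero]
      simp
    simp only [h6, zero_mul, add_zero, zero_add, sub_zero, mul_one, one_mul] at h4
    have h7 : ∑ i, c i * (z i * conj (ζ i) + z i * conj (z i) * (2 * dA A i 0)) =
        ∑ i, c i * (z i * conj (ζ i)) + ∑ i, c i * (z i * conj (z i) * (2 * dA A i 0)) := by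
      rw [← Finset.sum_add_distrib]
      exact Finset.sum_congr rfl fun i _ => by ring
    rw [h7, h5, zero_add] at h4
    exact h4.symm
  have h2 := h1 _ (H.InC_dA.self_of_nhds.conj)
  have h3 : ∑ i, ‖z i‖ ^ 2 * ‖dA A i 0‖ ^ 2 = 0 := by
    have h4 : ((∑ i, ‖z i‖ ^ 2 * ‖dA A i 0‖ ^ 2 : ℝ) : ℂ) =
        (1 / 2) * ∑ i, conj (dA A i 0) * (z i * conj (z i) * (2 * dA A i 0)) := by
      push_cast
      rw [Finset.mul_sum]
      refine Finset.sum_congr rfl fun i _ => ?_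
      have h5 : z i * conj (z i) = (‖z i‖ : ℂ) ^ 2 := by
        rw [Complex.mul_conj, Complex.normSq_eq_norm_sq]; push_cast; rfl
      have h6 : dA A i 0 * conj (dA A i 0) = (‖dA A i 0‖ : ℂ) ^ 2 := by
        rw [Complex.mul_conj, Complex.normSq_eq_norm_sq]; push_cast; rfl
      rw [h5, ← h6]
      ring
    rw [h2, mul_zero] at h4
    exact_mod_cast h4
  have h4 : ∀ i, ‖z i‖ ^ 2 * ‖dA A i 0‖ ^ 2 = 0 := fun i =>
    (Finset.sum_eq_zero_iff_of_nonneg fun i _ => by positivity).1 h3 i (Finset.mem_univ _)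
  have h5 := V.InC_zero H.InC_dA.self_of_nhds fun i hi => by
    have h6 := (mul_eq_zero.1 (h4 i)).resolve_left (pow_ne_zero _ (norm_ne_zero_iff.2 (H.ne i hi)))
    simpa using h6
  exact congrFun h5 i

theorem bA_zero (i : F) : bA A i 0 = 0 := by
  unfold bA
  rw [H.dA_zero, map_zero]

theorem eA_zero (i : F) : eA A i 0 = 1 := by
  unfold eA
  rw [H.zero]
  simp

/-- The metric in the horizontal direction. -/
theorem metric_eq : D (Db (Pc κ z ζ A)) 0 = ((∑ i, ‖ζ i‖ ^ 2 : ℝ) : ℂ) := by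
  have h := H.DDb_Pc.self_of_nhds
  simp only at h
  rw [h]
  push_cast
  refine Finset.sum_congr rfl fun i _ => ?_
  rw [H.bA_zero, H.eA_zero, Complex.mul_conj, Complex.normSq_eq_norm_sq]
  push_cast
  ring

/-- The second derivative of the constraint. -/
theorem second (c : F → ℂ) (hc : InC ν c) :
    ∑ i, c i * (ζ i * conj (ζ i) + z i * conj (z i) * (2 * conj (lA A i 0))) = 0 := by
  have h1 : (fun t => ∑ i, c i * ((z i + t * ζ i) * conj (z i + t * ζ i) * eA A i t - (κ i : ℂ)))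
      =ᶠ[𝓝 0] fun _ => 0 := by
    filter_upwards [H.sol] with t ht
    exact ht.sumC hc
  have h4 : ∀ᶠ t in 𝓝 (0 : ℂ), ∀ i, HasW (eA A i) (eA A i t * (2 * bA A i t))
      (eA A i t * (2 * dA A i t)) t := by
    rw [eventually_all]
    exact fun i => H.we i
  have h2 : (fun t => ∑ i, c i * ((z i + t * ζ i) * (conj (ζ i) * eA A i t +
      conj (z i + t * ζ i) * (eA A i t * (2 * dA A i t))))) =ᶠ[𝓝 0] fun _ => 0 := by
    filter_upwards [h4, h1.eventuallyEq_nhds] with t h5 h6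
    have h3 : HasW (fun t => ∑ i, c i * ((z i + t * ζ i) * conj (z i + t * ζ i) * eA A i t -
        (κ i : ℂ))) _ _ t := HasW.sum Finset.univ fun i _ => (hasW_const (c i) t).mul
      ((((wu (z := z) (ζ := ζ) i t).mul (wu' i t)).mul (h5 i)).sub (hasW_const (κ i : ℂ) t))
    have h7 := h3.Db_eq
    rw [Db_zero_of h6] at h7
    rw [h7]
    refine Finset.sum_congr rfl fun i _ => ?_
    ring
  have h3 : HasW (fun t => ∑ i, c i * ((z i + t * ζ i) * (conj (ζ i) * eA A i t +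
      conj (z i + t * ζ i) * (eA A i t * (2 * dA A i t))))) _ _ 0 :=
    HasW.sum Finset.univ fun i _ => (hasW_const (c i) 0).mul ((wu (z := z) (ζ := ζ) i 0).mul
      (((hasW_const (conj (ζ i)) 0).mul (H.we i).self_of_nhds).add ((wu' i 0).mul
        ((H.we i).self_of_nhds.mul ((hasW_const 2 0).mul (H.wd i).self_of_nhds)))))
  have h5 := h3.D_eq
  rw [D_zero_of h2] at h5
  refine Eq.trans ?_ h5.symm
  refine Finset.sum_congr rfl fun i _ => ?_
  rw [H.bA_zero, H.dA_zero, H.eA_zero]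
  ring

/-- The fourth derivative of the potential. -/
theorem fourth_eq : D (Db (D (Db (Pc κ z ζ A)))) 0 =
    2 * ∑ i, ζ i * conj (ζ i) * (conj (lA A i 0) + lA A i 0) := by
  have h3 : HasW (fun t => ∑ i,
    (ζ i * conj (ζ i) * (eA A i t * (2 * dA A i t)) + (z i + t * ζ i) * (conj (ζ i) *
      (eA A i t * (2 * dA A i t) * (2 * bA A i t) + eA A i t * (2 * lA A i t))))) _ _ 0 :=
    HasW.sum Finset.univ fun i _ => ((hasW_const (ζ i * conj (ζ i)) 0).mul
      ((H.we i).self_of_nhds.mul ((hasW_const 2 0).mul (H.wd i).self_of_nhds))).add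
      ((wu (z := z) (ζ := ζ) i 0).mul ((hasW_const (conj (ζ i)) 0).mul
        ((((H.we i).self_of_nhds.mul ((hasW_const 2 0).mul (H.wd i).self_of_nhds)).mul
          ((hasW_const 2 0).mul (H.wb i).self_of_nhds)).add
        ((H.we i).self_of_nhds.mul ((hasW_const 2 0).mul
          (hasW_smooth (H.sm_lA i).self_of_nhds))))))
  rw [(h3.congr_of_eventuallyEq H.DbDDb_Pc).D_eq]
  have h4 := H.hor _ H.InC_DlA
  have h5 : 2 * ∑ i, ζ i * conj (ζ i) * (conj (lA A i 0) + lA A i 0) =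
      2 * ∑ i, ζ i * conj (ζ i) * (conj (lA A i 0) + lA A i 0) +
      2 * ∑ i, D (lA A i) 0 * (z i * conj (ζ i)) := by
    rw [h4, mul_zero, add_zero]
  rw [h5, Finset.mul_sum, Finset.mul_sum, ← Finset.sum_add_distrib]
  refine Finset.sum_congr rfl fun i _ => ?_
  rw [H.bA_zero, H.dA_zero, H.eA_zero]
  ring

/-- The fourth derivative is negative. -/
theorem fourth_neg (hrec : ∀ x : Fin n → ℝ, (∀ i, 0 ≤ ∑ k, x k * (ν i k : ℝ)) → x = 0)
    (hζ : ζ ≠ 0) : (D (Db (D (Db (Pc κ z ζ A)))) 0).re < 0 := by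
  classical
  have h1 := H.second _ H.InC_lA.self_of_nhds
  have h2 : ∑ i, lA A i 0 * (ζ i * conj (ζ i)) =
      ((-(2 * ∑ i, ‖z i‖ ^ 2 * ‖lA A i 0‖ ^ 2) : ℝ) : ℂ) := by
    have h3 : ∑ i, lA A i 0 * (ζ i * conj (ζ i) + z i * conj (z i) * (2 * conj (lA A i 0))) =
        ∑ i, lA A i 0 * (ζ i * conj (ζ i)) + ((2 * ∑ i, ‖z i‖ ^ 2 * ‖lA A i 0‖ ^ 2 : ℝ) : ℂ) := by
      push_cast
      rw [Finset.mul_sum, ← Finset.sum_add_distrib]
      refine Finset.sum_congr rfl fun i _ => ?_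
      have h5 : z i * conj (z i) = (‖z i‖ : ℂ) ^ 2 := by
        rw [Complex.mul_conj, Complex.normSq_eq_norm_sq]; push_cast; rfl
      have h6 : lA A i 0 * conj (lA A i 0) = (‖lA A i 0‖ : ℂ) ^ 2 := by
        rw [Complex.mul_conj, Complex.normSq_eq_norm_sq]; push_cast; rfl
      rw [h5, ← h6]
      ring
    rw [h3] at h1
    rw [eq_neg_of_add_eq_zero_left h1]
    push_cast
    ring
  have h3 : D (Db (D (Db (Pc κ z ζ A)))) 0 =
      ((-(8 * ∑ i, ‖z i‖ ^ 2 * ‖lA A i 0‖ ^ 2) : ℝ) : ℂ) := by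
    rw [H.fourth_eq]
    have h4 : ∑ i, ζ i * conj (ζ i) * (conj (lA A i 0) + lA A i 0) =
        conj (∑ i, lA A i 0 * (ζ i * conj (ζ i))) + ∑ i, lA A i 0 * (ζ i * conj (ζ i)) := by
      rw [map_sum, ← Finset.sum_add_distrib]
      refine Finset.sum_congr rfl fun i _ => ?_
      simp only [map_mul, Complex.conj_conj]
      ring
    rw [h4, h2, Complex.conj_ofReal]
    push_cast
    ring
  rw [h3, Complex.ofReal_re]
  have hnn : 0 ≤ ∑ i, ‖z i‖ ^ 2 * ‖lA A i 0‖ ^ 2 := Finset.sum_nonneg fun i _ => by positivity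
  rcases hnn.lt_or_eq with hlt | heq
  · linarith
  · exfalso
    have h4 : ∀ i, ‖z i‖ ^ 2 * ‖lA A i 0‖ ^ 2 = 0 := fun i =>
      (Finset.sum_eq_zero_iff_of_nonneg fun i _ => by positivity).1 heq.symm i (Finset.mem_univ _)
    have h5 := V.InC_zero H.InC_lA.self_of_nhds fun i hi => by
      have h6 := (mul_eq_zero.1 (h4 i)).resolve_left
        (pow_ne_zero _ (norm_ne_zero_iff.2 (H.ne i hi)))
      simpa using h6
    have h6 : ∀ b ∈ LL ν, ∑ i, ‖ζ i‖ ^ 2 * b i = 0 := by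
      intro b hb
      have hc : InC ν fun i => (b i : ℂ) := by
        intro k
        have := hb k
        change ∑ i, (b i : ℂ) * (ν i k : ℂ) = 0
        exact_mod_cast this
      have h7 := H.second _ hc
      have h8 : ∀ i, lA A i 0 = 0 := fun i => congrFun h5 i
      have h9 : ((∑ i, ‖ζ i‖ ^ 2 * b i : ℝ) : ℂ) = 0 := by
        rw [← h7]
        push_cast
        refine Finset.sum_congr rfl fun i _ => ?_
        have h10 : ζ i * conj (ζ i) = (‖ζ i‖ : ℂ) ^ 2 := by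
          rw [Complex.mul_conj, Complex.normSq_eq_norm_sq]; push_cast; rfl
        rw [h8 i, h10]
        simp
        ring
      exact_mod_cast h9
    obtain ⟨x, hx⟩ := V.ann h6
    have h7 := hrec x fun i => by rw [← hx i]; positivity
    apply hζ
    funext i
    have h8 := hx i
    rw [h7] at h8
    simpa using h8

end Hor

end Pool.Agent.Y184.HS
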