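import Pool.Agent.Y184.HS.Kah

/-! Hirzebruch surfaces and their blow-ups as toric surfaces. -/

set_option autoImplicit false
set_option linter.unusedSectionVars false

open scoped Manifold ContDiff Topology ComplexConjugate
open Filter Set

namespace Pool.Agent.Y184.HS

/-- `π : X → Y` is the blow-up of the complex surface `Y` at the point `p`: `π` is holomorphic, it
has a holomorphic inverse over the complement of `p`, and over the domain of a coordinate system `u`
centred at `p`, the surface `X` consists of two charts `v`, `v'` in which `u ∘ π` is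
`(s, t) ↦ (s, s t)` and `(s, t) ↦ (s t, t)`, glued along `t ≠ 0` and `s ≠ 0` as in the blow-up of
`ℂ²` at the origin. -/
structure IsBlowUp {X Y : Type} [TopologicalSpace X] [ChartedSpace (Fin 2 → ℂ) X]
    [TopologicalSpace Y] [ChartedSpace (Fin 2 → ℂ) Y] (π : X → Y) (p : Y) : Prop where
  holo : ContMDiff 𝓘(ℂ, Fin 2 → ℂ) 𝓘(ℂ, Fin 2 → ℂ) ω π
  inverse : ∃ ρ : Y → X, ContMDiffOn 𝓘(ℂ, Fin 2 → ℂ) 𝓘(ℂ, Fin 2 → ℂ) ω ρ {p}ᶜ ∧
    (∀ y, y ≠ p → π (ρ y) = y) ∧ ∀ x, π x ≠ p → ρ (π x) = x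
  model : ∃ u ∈ atlas (Fin 2 → ℂ) Y, ∃ v ∈ atlas (Fin 2 → ℂ) X, ∃ v' ∈ atlas (Fin 2 → ℂ) X,
    p ∈ u.source ∧ u p = 0 ∧ v.source ∪ v'.source = π ⁻¹' u.source ∧
    v.target = {y | ![y 0, y 0 * y 1] ∈ u.target} ∧
    v'.target = {y | ![y 0 * y 1, y 1] ∈ u.target} ∧
    (∀ x ∈ v.source, u (π x) = ![v x 0, v x 0 * v x 1]) ∧
    (∀ x ∈ v'.source, u (π x) = ![v' x 0 * v' x 1, v' x 1]) ∧
    v.source ∩ v'.source = {x | x ∈ v.source ∧ v x 1 ≠ 0} ∧
    v.source ∩ v'.source = {x | x ∈ v'.source ∧ v' x 0 ≠ 0} ∧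
    ∀ x ∈ v.source ∩ v'.source, v x 1 * v' x 0 = 1

/-- The normals of the trapezoid `0 ≤ x`, `0 ≤ y`, `x ≤ 1 + m y`, `y ≤ 1`. -/
def nuH (m : ℕ) : Fin 4 → Fin 2 → ℤ := ![![1, 0], ![0, 1], ![-1, (m : ℤ)], ![0, -1]]

/-- The constants of the trapezoid `0 ≤ x`, `0 ≤ y`, `x ≤ 1 + m y`, `y ≤ 1`. -/
noncomputable def kaH : Fin 4 → ℝ := ![0, 0, 1, 1]

/-- The normals of the pentagon obtained by cutting off the corner `x + y < 1 / 2`. -/
def nuB (m : ℕ) : Fin 5 → Fin 2 → ℤ := ![![1, 0], ![0, 1], ![-1, (m : ℤ)], ![0, -1], ![1, 1]]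

/-- The constants of the pentagon obtained by cutting off the corner `x + y < 1 / 2`. -/
noncomputable def kaB : Fin 5 → ℝ := ![0, 0, 1, 1, -1 / 2]

theorem ellH (m : ℕ) (x : Fin 2 → ℝ) : ell (nuH m) kaH 0 x = x 0 ∧ ell (nuH m) kaH 1 x = x 1 ∧
    ell (nuH m) kaH 2 x = -x 0 + m * x 1 + 1 ∧ ell (nuH m) kaH 3 x = -x 1 + 1 := by
  unfold ell nuH kaH
  simp [Fin.sum_univ_two]
  ring

theorem ellB (m : ℕ) (x : Fin 2 → ℝ) : ell (nuB m) kaB 0 x = x 0 ∧ ell (nuB m) kaB 1 x = x 1 ∧
    ell (nuB m) kaB 2 x = -x 0 + m * x 1 + 1 ∧ ell (nuB m) kaB 3 x = -x 1 + 1 ∧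
    ell (nuB m) kaB 4 x = x 0 + x 1 - 1 / 2 := by
  unfold ell nuB kaB
  simp [Fin.sum_univ_two]
  constructor <;> ring

theorem mem_polyH (m : ℕ) (x : Fin 2 → ℝ) : x ∈ poly (nuH m) kaH ↔
    0 ≤ x 0 ∧ 0 ≤ x 1 ∧ 0 ≤ -x 0 + m * x 1 + 1 ∧ 0 ≤ -x 1 + 1 := by
  obtain ⟨h0, h1, h2, h3⟩ := ellH m x
  unfold poly
  rw [Set.mem_ofPred_eq]
  constructor
  · intro h
    exact ⟨h0 ▸ h 0, h1 ▸ h 1, h2 ▸ h 2, h3 ▸ h 3⟩
  · rintro ⟨a, b, c, d⟩ i
    fin_cases i
    · exact h0.symm ▸ a
    · exact h1.symm ▸ b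
    · exact h2.symm ▸ c
    · exact h3.symm ▸ d

theorem mem_polyB (m : ℕ) (x : Fin 2 → ℝ) : x ∈ poly (nuB m) kaB ↔
    0 ≤ x 0 ∧ 0 ≤ x 1 ∧ 0 ≤ -x 0 + m * x 1 + 1 ∧ 0 ≤ -x 1 + 1 ∧ 0 ≤ x 0 + x 1 - 1 / 2 := by
  obtain ⟨h0, h1, h2, h3, h4⟩ := ellB m x
  unfold poly
  rw [Set.mem_ofPred_eq]
  constructor
  · intro h
    exact ⟨h0 ▸ h 0, h1 ▸ h 1, h2 ▸ h 2, h3 ▸ h 3, h4 ▸ h 4⟩
  · rintro ⟨a, b, c, d, e⟩ i
    fin_cases i
    · exact h0.symm ▸ a
    · exact h1.symm ▸ b
    · exact h2.symm ▸ c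
    · exact h3.symm ▸ d
    · exact h4.symm ▸ e

theorem range_two {α : Type} (a b i : α) : i ∈ Set.range ![a, b] ↔ i = a ∨ i = b := by
  simp [eq_comm, or_comm]

/-- A vertex of the trapezoid. -/
def IsV {n : ℕ} {F : Type} [Fintype F] (ν : F → Fin n → ℤ) (κ : F → ℝ) (y : Fin n → ℝ)
    (s : Fin n → F) : Prop :=
  y ∈ poly ν κ ∧ (∀ i, ell ν κ i y = 0 ↔ i ∈ Set.range s) ∧
    IsUnit (Matrix.of fun j k => ν (s j) k).det

theorem isVH01 (m : ℕ) : IsV (nuH m) kaH ![0, 0] ![0, 1] := by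
  refine ⟨?_, ?_, ?_⟩
  · rw [mem_polyH]; simp
  · intro i
    rw [range_two]
    obtain ⟨h0, h1, h2, h3⟩ := ellH m ![0, 0]
    fin_cases i
    · simpa using h0
    · simpa using h1
    · simp [h2]
    · simp [h3]
  · simp [Matrix.det_fin_two, nuH]

theorem isVH12 (m : ℕ) : IsV (nuH m) kaH ![1, 0] ![1, 2] := by
  refine ⟨?_, ?_, ?_⟩
  · rw [mem_polyH]; simp
  · intro i
    rw [range_two]
    obtain ⟨h0, h1, h2, h3⟩ := ellH m ![1, 0]
    fin_cases i
    · simp [h0]
    · simpa using h1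
    · simpa using h2
    · simp [h3]
  · simp [Matrix.det_fin_two, nuH]

theorem isVH23 (m : ℕ) : IsV (nuH m) kaH ![1 + m, 1] ![2, 3] := by
  refine ⟨?_, ?_, ?_⟩
  · rw [mem_polyH]; simp; positivity
  · intro i
    rw [range_two]
    obtain ⟨h0, h1, h2, h3⟩ := ellH m ![1 + m, 1]
    have : (1 : ℝ) + m ≠ 0 := by positivity
    fin_cases i
    · simpa [h0] using this
    · simp [h1]
    · simpa using h2
    · simpa using h3
  · simp [Matrix.det_fin_two, nuH]

theorem isVH03 (m : ℕ) : IsV (nuH m) kaH ![0, 1] ![0, 3] := by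
  refine ⟨?_, ?_, ?_⟩
  · rw [mem_polyH]; simp; positivity
  · intro i
    rw [range_two]
    obtain ⟨h0, h1, h2, h3⟩ := ellH m ![0, 1]
    have : (m : ℝ) + 1 ≠ 0 := by positivity
    fin_cases i
    · simpa using h0
    · simp [h1]
    · simpa [h2] using this
    · simpa using h3
  · simp [Matrix.det_fin_two, nuH]

theorem isVB12 (m : ℕ) : IsV (nuB m) kaB ![1, 0] ![1, 2] := by
  refine ⟨?_, ?_, ?_⟩
  · rw [mem_polyB]; simp; norm_num
  · intro i
    rw [range_two]
    obtain ⟨h0, h1, h2, h3, h4⟩ := ellB m ![1, 0]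
    fin_cases i
    · simp [h0]
    · simpa using h1
    · simpa using h2
    · simp [h3]
    · simp [h4]; norm_num
  · simp [Matrix.det_fin_two, nuB]

theorem isVB23 (m : ℕ) : IsV (nuB m) kaB ![1 + m, 1] ![2, 3] := by
  refine ⟨?_, ?_, ?_⟩
  · rw [mem_polyB]
    simp
    have : (0 : ℝ) ≤ m := by positivity
    constructor <;> linarith
  · intro i
    rw [range_two]
    obtain ⟨h0, h1, h2, h3, h4⟩ := ellB m ![1 + m, 1]
    have : (1 : ℝ) + m ≠ 0 := by positivity
    have h5 : (1 : ℝ) + m + 1 - 1 / 2 ≠ 0 := by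
      have : (0 : ℝ) ≤ m := by positivity
      intro h
      linarith
    fin_cases i
    · simpa [h0] using this
    · simp [h1]
    · simpa using h2
    · simpa using h3
    · simpa [h4] using h5
  · simp [Matrix.det_fin_two, nuB]

theorem isVB03 (m : ℕ) : IsV (nuB m) kaB ![0, 1] ![0, 3] := by
  refine ⟨?_, ?_, ?_⟩
  · rw [mem_polyB]
    simp
    have : (0 : ℝ) ≤ m := by positivity
    constructor <;> linarith
  · intro i
    rw [range_two]
    obtain ⟨h0, h1, h2, h3, h4⟩ := ellB m ![0, 1]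
    have : (m : ℝ) + 1 ≠ 0 := by positivity
    fin_cases i
    · simpa using h0
    · simp [h1]
    · simpa [h2] using this
    · simpa using h3
    · simp [h4]; norm_num
  · simp [Matrix.det_fin_two, nuB]

theorem isVB04 (m : ℕ) : IsV (nuB m) kaB ![0, 2⁻¹] ![0, 4] := by
  have h6 : (0 : ℝ) ≤ m := by positivity
  refine ⟨?_, ?_, ?_⟩
  · rw [mem_polyB]
    simp
    constructor
    · positivity
    · norm_num
  · intro i
    rw [range_two]
    obtain ⟨h0, h1, h2, h3, h4⟩ := ellB m ![0, 2⁻¹]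
    have : (m : ℝ) * 2⁻¹ + 1 ≠ 0 := by positivity
    fin_cases i
    · simpa using h0
    · simp [h1]
    · simpa [h2] using this
    · simp [h3]; norm_num
    · simp [h4]
  · simp [Matrix.det_fin_two, nuB]

theorem isVB41 (m : ℕ) : IsV (nuB m) kaB ![2⁻¹, 0] ![4, 1] := by
  refine ⟨?_, ?_, ?_⟩
  · rw [mem_polyB]
    simp
    norm_num
  · intro i
    rw [range_two]
    obtain ⟨h0, h1, h2, h3, h4⟩ := ellB m ![2⁻¹, 0]
    fin_cases i
    · simp [h0]
    · simp [h1]
    · simp [h2]; norm_num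
    · simp [h3]
    · simp [h4]
  · simp [Matrix.det_fin_two, nuB]

theorem isDelzantH (m : ℕ) : IsDelzant (nuH m) kaH := by
  refine ⟨⟨_, (isVH01 m).1⟩, ?_, ?_⟩
  · refine (Metric.isBounded_closedBall (x := (0 : Fin 2 → ℝ)) (r := 1 + m)).subset fun x hx => ?_
    rw [mem_polyH] at hx
    obtain ⟨h0, h1, h2, h3⟩ := hx
    have hm : (0 : ℝ) ≤ m := by positivity
    rw [mem_closedBall_zero_iff, pi_norm_le_iff_of_nonneg (by positivity)]
    intro i
    rw [Real.norm_eq_abs, abs_le]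
    fin_cases i
    · constructor
      · simp; linarith
      · simp; nlinarith
    · constructor
      · simp; linarith
      · simp; linarith
  · intro x hx
    obtain ⟨e0, e1, e2, e3⟩ := ellH m x
    have hx' := hx
    rw [mem_polyH] at hx'
    obtain ⟨h0, h1, h2, h3⟩ := hx'
    have hm : (0 : ℝ) ≤ m := by positivity
    have key : ∀ (y : Fin 2 → ℝ) (s : Fin 2 → Fin 4), IsV (nuH m) kaH y s →
        (∀ i, ell (nuH m) kaH i x = 0 → i ∈ Set.range s) → ∃ y ∈ poly (nuH m) kaH,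
        (∀ i, ell (nuH m) kaH i x = 0 → ell (nuH m) kaH i y = 0) ∧
        ∃ s : Fin 2 → Fin 4, (∀ i, ell (nuH m) kaH i y = 0 ↔ i ∈ Set.range s) ∧
        IsUnit (Matrix.of fun j k => nuH m (s j) k).det := by
      intro y s ⟨g1, g2, g3⟩ g4
      exact ⟨y, g1, fun i hi => (g2 i).2 (g4 i hi), s, g2, g3⟩
    by_cases c2 : ell (nuH m) kaH 2 x = 0
    · have k0 : ell (nuH m) kaH 0 x ≠ 0 := by
        rw [e0]; rw [e2] at c2; intro h; nlinarith
      by_cases c3 : ell (nuH m) kaH 3 x = 0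
      · refine key _ _ (isVH23 m) fun i hi => ?_
        have k1 : ell (nuH m) kaH 1 x ≠ 0 := by
          rw [e1]; rw [e3] at c3; intro h; linarith
        rw [range_two]
        fin_cases i
        · exact absurd hi k0
        · exact absurd hi k1
        · simp
        · simp
      · refine key _ _ (isVH12 m) fun i hi => ?_
        rw [range_two]
        fin_cases i
        · exact absurd hi k0
        · simp
        · simp
        · exact absurd hi c3
    · by_cases c3 : ell (nuH m) kaH 3 x = 0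
      · refine key _ _ (isVH03 m) fun i hi => ?_
        have k1 : ell (nuH m) kaH 1 x ≠ 0 := by
          rw [e1]; rw [e3] at c3; intro h; linarith
        rw [range_two]
        fin_cases i
        · simp
        · exact absurd hi k1
        · exact absurd hi c2
        · simp
      · refine key _ _ (isVH01 m) fun i hi => ?_
        rw [range_two]
        fin_cases i
        · simp
        · simp
        · exact absurd hi c2
        · exact absurd hi c3

theorem isDelzantB (m : ℕ) : IsDelzant (nuB m) kaB := by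
  refine ⟨⟨_, (isVB12 m).1⟩, ?_, ?_⟩
  · refine (Metric.isBounded_closedBall (x := (0 : Fin 2 → ℝ)) (r := 1 + m)).subset fun x hx => ?_
    rw [mem_polyB] at hx
    obtain ⟨h0, h1, h2, h3, h4⟩ := hx
    have hm : (0 : ℝ) ≤ m := by positivity
    rw [mem_closedBall_zero_iff, pi_norm_le_iff_of_nonneg (by positivity)]
    intro i
    rw [Real.norm_eq_abs, abs_le]
    fin_cases i
    · constructor
      · simp; linarith
      · simp; nlinarith
    · constructor
      · simp; linarith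
      · simp; linarith
  · intro x hx
    obtain ⟨e0, e1, e2, e3, e4⟩ := ellB m x
    have hx' := hx
    rw [mem_polyB] at hx'
    obtain ⟨h0, h1, h2, h3, h4⟩ := hx'
    have hm : (0 : ℝ) ≤ m := by positivity
    have key : ∀ (y : Fin 2 → ℝ) (s : Fin 2 → Fin 5), IsV (nuB m) kaB y s →
        (∀ i, ell (nuB m) kaB i x = 0 → i ∈ Set.range s) → ∃ y ∈ poly (nuB m) kaB,
        (∀ i, ell (nuB m) kaB i x = 0 → ell (nuB m) kaB i y = 0) ∧
        ∃ s : Fin 2 → Fin 5, (∀ i, ell (nuB m) kaB i y = 0 ↔ i ∈ Set.range s) ∧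
        IsUnit (Matrix.of fun j k => nuB m (s j) k).det := by
      intro y s ⟨g1, g2, g3⟩ g4
      exact ⟨y, g1, fun i hi => (g2 i).2 (g4 i hi), s, g2, g3⟩
    by_cases c2 : ell (nuB m) kaB 2 x = 0
    · have k0 : ell (nuB m) kaB 0 x ≠ 0 := by
        rw [e0]; rw [e2] at c2; intro h; nlinarith
      have k4 : ell (nuB m) kaB 4 x ≠ 0 := by
        rw [e4]; rw [e2] at c2; intro h; nlinarith
      by_cases c3 : ell (nuB m) kaB 3 x = 0
      · refine key _ _ (isVB23 m) fun i hi => ?_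
        have k1 : ell (nuB m) kaB 1 x ≠ 0 := by
          rw [e1]; rw [e3] at c3; intro h; linarith
        rw [range_two]
        fin_cases i
        · exact absurd hi k0
        · exact absurd hi k1
        · simp
        · simp
        · exact absurd hi k4
      · refine key _ _ (isVB12 m) fun i hi => ?_
        rw [range_two]
        fin_cases i
        · exact absurd hi k0
        · simp
        · simp
        · exact absurd hi c3
        · exact absurd hi k4
    · by_cases c3 : ell (nuB m) kaB 3 x = 0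
      · refine key _ _ (isVB03 m) fun i hi => ?_
        have k1 : ell (nuB m) kaB 1 x ≠ 0 := by
          rw [e1]; rw [e3] at c3; intro h; linarith
        have k4 : ell (nuB m) kaB 4 x ≠ 0 := by
          rw [e4]; rw [e3] at c3; intro h; linarith
        rw [range_two]
        fin_cases i
        · simp
        · exact absurd hi k1
        · exact absurd hi c2
        · simp
        · exact absurd hi k4
      · by_cases c0 : ell (nuB m) kaB 0 x = 0
        · refine key _ _ (isVB04 m) fun i hi => ?_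
          have k1 : ell (nuB m) kaB 1 x ≠ 0 := by
            rw [e1]; rw [e0] at c0; intro h; linarith
          rw [range_two]
          fin_cases i
          · simp
          · exact absurd hi k1
          · exact absurd hi c2
          · exact absurd hi c3
          · simp
        · refine key _ _ (isVB41 m) fun i hi => ?_
          rw [range_two]
          fin_cases i
          · exact absurd hi c0
          · simp
          · exact absurd hi c2
          · exact absurd hi c3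
          · simp

end Pool.Agent.Y184.HS
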