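import Pool.Agent.Y184.HS.Mfd

/-! The Kähler metric on the toric manifold. -/

set_option autoImplicit false
set_option linter.unusedSectionVars false

open scoped Manifold ContDiff Topology ComplexConjugate
open Filter Set

namespace Pool.Agent.Y184.HS

variable {n : ℕ} {F : Type} [Fintype F] {ν : F → Fin n → ℤ} {κ : F → ℝ}

/-- Pluriharmonic terms do not contribute. -/
theorem DDb_sub_log {P Q : ℂ → ℂ} (hP : ∀ᶠ t in 𝓝 (0 : ℂ), ContDiffAt ℝ ∞ P t) (cf : F → ℝ)
    (z ζ : F → ℂ) (hne : ∀ i, cf i ≠ 0 → z i ≠ 0)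
    (hQ : Q =ᶠ[𝓝 0] fun t => P t - 2 * ∑ i, (cf i : ℂ) * ((Real.log ‖z i + t * ζ i‖ : ℝ) : ℂ)) :
    D (Db Q) =ᶠ[𝓝 0] D (Db P) := by
  have hneV : ∀ᶠ t : ℂ in 𝓝 0, ∀ i, cf i ≠ 0 → z i + t * ζ i ≠ 0 := by
    rw [eventually_all]
    intro i
    by_cases hi : cf i = 0
    · exact Eventually.of_forall fun _ h => absurd hi h
    · have h2 : ContinuousAt (fun t : ℂ => z i + t * ζ i) 0 := by fun_prop
      have h3 : (fun t : ℂ => z i + t * ζ i) 0 ≠ 0 := by simpa using hne i hi
      exact (h2.eventually_ne h3).mono fun t h4 _ => h4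
  have hH : ∀ᶠ t in 𝓝 (0 : ℂ), HasW (fun t => 2 * ∑ i, (cf i : ℂ) *
      ((Real.log ‖z i + t * ζ i‖ : ℝ) : ℂ))
      (2 * ∑ i, (cf i : ℂ) * (ζ i / (2 * (z i + t * ζ i))))
      (2 * ∑ i, (cf i : ℂ) * conj (ζ i / (2 * (z i + t * ζ i)))) t := by
    filter_upwards [hneV] with t ht
    have h1 : ∀ i, HasW (fun t => (cf i : ℂ) * ((Real.log ‖z i + t * ζ i‖ : ℝ) : ℂ))
        ((cf i : ℂ) * (ζ i / (2 * (z i + t * ζ i))))
        ((cf i : ℂ) * conj (ζ i / (2 * (z i + t * ζ i)))) t := by
      intro i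
      by_cases hi : cf i = 0
      · rw [hi]
        simpa using hasW_const 0 t
      · have h2 : HasDerivAt (fun t => z i + t * ζ i) (ζ i) t := by
          simpa using ((hasDerivAt_id t).mul_const (ζ i)).const_add (z i)
        have h3 := (hasW_const (cf i : ℂ) t).mul (hasW_log_norm h2 (ht i hi))
        exact h3.cast (by ring) (by ring)
    exact ((hasW_const 2 t).mul (HasW.sum Finset.univ fun i _ => h1 i)).cast (by ring) (by ring)
  have hDb : Db Q =ᶠ[𝓝 0] fun t =>
      Db P t - 2 * ∑ i, (cf i : ℂ) * conj (ζ i / (2 * (z i + t * ζ i))) := by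
    filter_upwards [hQ.eventuallyEq_nhds, hH, hP] with t h1 h2 h3
    exact (((hasW_smooth h3).sub h2).congr_of_eventuallyEq h1).Db_eq
  filter_upwards [hDb.eventuallyEq_nhds, hP, hneV] with t h1 h2 h3
  have h4 : HasW (fun t => 2 * ∑ i, (cf i : ℂ) * conj (ζ i / (2 * (z i + t * ζ i)))) 0
      (Db (fun t => 2 * ∑ i, (cf i : ℂ) * conj (ζ i / (2 * (z i + t * ζ i)))) t) t := by
    have h5 : ∀ i, ∃ B, HasW (fun t => (cf i : ℂ) * conj (ζ i / (2 * (z i + t * ζ i)))) 0 B t := by
      intro i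
      by_cases hi : cf i = 0
      · rw [hi]
        exact ⟨0, by simpa using hasW_const 0 t⟩
      · have h6 : DifferentiableAt ℂ (fun t => ζ i / (2 * (z i + t * ζ i))) t := by
          refine DifferentiableAt.div (by fun_prop) (by fun_prop) ?_
          exact mul_ne_zero two_ne_zero (h3 i hi)
        have h7 := (hasW_const (cf i : ℂ) t).mul (HasDerivAt.hasW h6.hasDerivAt).conj
        exact ⟨_, h7.cast (by simp) rfl⟩
    choose B hB using h5
    have h6 := ((hasW_const 2 t).mul (HasW.sum Finset.univ fun i _ => hB i))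
    have h7 := h6.Db_eq
    exact h6.cast (by simp) h7.symm
  have h5 := ((hasW_smooth (contDiffAt_Db h2)).sub h4).congr_of_eventuallyEq h1
  rw [h5.D_eq, sub_zero]

open Classical in
/-- The coefficients of the pluriharmonic term. -/
noncomputable def cf (V : Vtx ν κ) (i : F) : ℝ :=
  if i ∈ Set.range V.s then 0 else κ i - ∑ l, κ (V.s l) * (V.E i l : ℝ)

theorem pot_cor (S : Data ν κ) (V : Vtx ν κ) {u : F → ℂ} (ht : ∀ i, i ∉ Set.range V.s → u i ≠ 0) :
    S.pot V (V.cor u) = S.Ψ u - 2 * ∑ i, cf V i * Real.log ‖u i‖ := by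
  classical
  obtain ⟨g, h2, h3, h4⟩ := V.rel_sec ht
  have hg : ∀ i, i ∉ Set.range V.s → g i = u i := by
    intro i hi
    have := h4 i
    rw [V.sec_not _ hi, mul_one] at this
    exact this.symm
  have h1 := (S.gauge (V.sec_mem (V.cor u)) V
    (fun i hi => by rw [V.sec_not _ hi]; exact one_ne_zero) h2 h3 h4).2.2
  have h2' : S.pot V (V.cor u) = S.Ψ u - 2 * ∑ i, κ i * Real.log ‖g i‖ := by
    rw [h1]
    unfold Data.pot
    ring
  rw [h2']
  congr 2
  -- the logarithms
  have hL : ∀ l, Real.log ‖g (V.s l)‖ +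
      ∑ i, (if i ∈ Set.range V.s then 0 else (V.E i l : ℝ) * Real.log ‖u i‖) = 0 := by
    intro l
    have h5 := V.prod_E h2 h3 l
    have h6 := congrArg (fun z : ℂ => Real.log ‖z‖) h5
    simp only [norm_prod, norm_zpow, norm_one, Real.log_one] at h6
    rw [Real.log_prod fun i _ => zpow_ne_zero _ (norm_ne_zero_iff.2 (h2 i))] at h6
    simp only [Real.log_zpow] at h6
    refine Eq.trans ?_ h6
    have h7 : ∑ i, (V.E i l : ℝ) * Real.log ‖g i‖ =
        ∑ i, (if i ∈ Set.range V.s then (V.E i l : ℝ) * Real.log ‖g i‖ else 0) +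
        ∑ i, (if i ∈ Set.range V.s then 0 else (V.E i l : ℝ) * Real.log ‖g i‖) := by
      rw [← Finset.sum_add_distrib]
      refine Finset.sum_congr rfl fun i _ => ?_
      split_ifs <;> simp
    rw [h7]
    congr 1
    · symm
      rw [Finset.sum_eq_single (V.s l)]
      · rw [if_pos ⟨l, rfl⟩, V.E_s_self, Int.cast_one, one_mul]
      · intro i _ hi
        split_ifs with h3
        · obtain ⟨j, rfl⟩ := h3
          have hjl : j ≠ l := fun h => hi (by rw [h])
          rw [V.E_s, if_neg hjl]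
          simp
        · rfl
      · intro h
        exact absurd (Finset.mem_univ _) h
    · refine Finset.sum_congr rfl fun i _ => ?_
      split_ifs with hi
      · rfl
      · rw [hg i hi]
  have h5 : ∑ i, κ i * Real.log ‖g i‖ = ∑ l, κ (V.s l) * Real.log ‖g (V.s l)‖ +
      ∑ i, (if i ∈ Set.range V.s then 0 else κ i * Real.log ‖u i‖) := by
    have h5 := V.prod_split (M := Multiplicative ℝ)
      (fun i => Multiplicative.ofAdd (κ i * Real.log ‖g i‖))
    have h6 := congrArg Multiplicative.toAdd h5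
    simp only [toAdd_prod, toAdd_mul, toAdd_ofAdd] at h6
    rw [h6]
    congr 1
    refine Finset.sum_congr rfl fun i _ => ?_
    split_ifs with hi
    · rfl
    · rw [toAdd_ofAdd, hg i hi]
  rw [h5]
  have h6 : ∀ l, κ (V.s l) * Real.log ‖g (V.s l)‖ =
      ∑ i, (if i ∈ Set.range V.s then 0 else -(κ (V.s l) * (V.E i l : ℝ)) * Real.log ‖u i‖) := by
    intro l
    have h7 : Real.log ‖g (V.s l)‖ =
        -∑ i, (if i ∈ Set.range V.s then 0 else (V.E i l : ℝ) * Real.log ‖u i‖) := by
      linarith [hL l]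
    rw [h7, ← Finset.sum_neg_distrib, Finset.mul_sum]
    refine Finset.sum_congr rfl fun i _ => ?_
    split_ifs
    · simp
    · ring
  rw [Finset.sum_congr rfl fun l _ => h6 l, Finset.sum_comm, ← Finset.sum_add_distrib]
  refine Finset.sum_congr rfl fun i _ => ?_
  unfold cf
  split_ifs with hi
  · simp
  · rw [← Finset.sum_mul, Finset.sum_neg_distrib]
    ring

theorem herm_smul_left (φ : (Fin n → ℂ) → ℝ) (w x y : Fin n → ℂ) (c : ℂ) :
    herm φ w (c • x) y = c * herm φ w x y := by
  unfold herm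
  simp only [Finset.mul_sum, Pi.smul_apply, smul_eq_mul]
  exact Finset.sum_congr rfl fun i _ => Finset.sum_congr rfl fun j _ => by ring

theorem herm_smul_right (φ : (Fin n → ℂ) → ℝ) (w x y : Fin n → ℂ) (c : ℂ) :
    herm φ w x (c • y) = conj c * herm φ w x y := by
  unfold herm
  simp only [Finset.mul_sum, Pi.smul_apply, smul_eq_mul, map_mul]
  exact Finset.sum_congr rfl fun i _ => Finset.sum_congr rfl fun j _ => by ring

/-- Polarisation. -/
theorem herm_polar {φ φ' : (Fin n → ℂ) → ℝ} {w w' : Fin n → ℂ}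
    (L : (Fin n → ℂ) →L[ℂ] (Fin n → ℂ))
    (h : ∀ x, herm φ w x x = herm φ' w' (L x) (L x)) (x y : Fin n → ℂ) :
    herm φ w x y = herm φ' w' (L x) (L y) := by
  have h1 := h (x + y)
  have h2 := h (x + Complex.I • y)
  rw [map_add, herm_add, herm_add, h x, h y] at h1
  rw [map_add, map_smul, herm_add, herm_add] at h2
  simp only [herm_smul_left, herm_smul_right, h x, h y, Complex.conj_I] at h2
  have h3 : Complex.I * Complex.I = -1 := Complex.I_mul_I
  linear_combination (1 / 2) * h1 + (1 / 2) * Complex.I * h2 + (1/2) * (herm φ w x y -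
    herm φ' w' (L x) (L y) - herm φ w y x + herm φ' w' (L y) (L x)) * h3

/-- The metrics in different charts are compatible. -/
theorem herm_compat (S : Data ν κ) (V V' : Vtx ν κ) {w : Fin n → ℂ}
    (hw : ∀ i, i ∉ Set.range V'.s → V.sec w i ≠ 0) (x y : Fin n → ℂ) :
    herm (S.pot V) w x y = herm (S.pot V') (V'.cor (V.sec w))
      (fderiv ℂ (fun y => V'.cor (V.sec y)) w x) (fderiv ℂ (fun y => V'.cor (V.sec y)) w y) := by
  refine herm_polar _ (fun v => ?_) x y
  set G : (Fin n → ℂ) → (Fin n → ℂ) := fun y => V'.cor (V.sec y) with hG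
  have hGa : AnalyticAt ℂ G w := analyticAt_trans V V' hw
  set f : ℂ → Fin n → ℂ := fun t => w + t • v with hf
  have hfa : ∀ t, HasDerivAt f v t := fun t => by
    have h := ((hasDerivAt_id t).smul_const v).const_add w
    rw [one_smul] at h
    exact h
  have hfan : AnalyticAt ℂ f 0 := by
    refine analyticAt_const.add (analyticAt_id.smul analyticAt_const)
  have hf0 : f 0 = w := by simp [hf]
  have hφ : ∀ V : Vtx ν κ, ∀ w, ∀ᶠ u in 𝓝 w, ContDiffAt ℝ ∞ (S.pot V) u := fun V w =>
    Eventually.of_forall fun u => (S.contDiff_pot V).contDiffAt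
  have h1 := (isCurve_of_analytic hfan hf0).herm_eq (hφ V w)
  rw [(hfa 0).deriv] at h1
  have hGf : AnalyticAt ℂ (fun t => G (f t)) 0 := by
    have : AnalyticAt ℂ G (f 0) := by rw [hf0]; exact hGa
    exact this.comp hfan
  have h2 := (isCurve_of_analytic hGf (by simp only [hf0] : G (f 0) = G w)).herm_eq (hφ V' (G w))
  have h3 : HasDerivAt (fun t => G (f t)) (fderiv ℂ G w v) 0 := by
    have h4 : HasFDerivAt G (fderiv ℂ G w) (f 0) := by
      rw [hf0]; exact hGa.differentiableAt.hasFDerivAt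
    exact h4.comp_hasDerivAt 0 (hfa 0)
  rw [h3.deriv] at h2
  rw [← h1, ← h2]
  -- comparison of the potentials
  set ζ : F → ℂ := fun i => Function.extend V.s v 0 i with hζ
  have hsec : ∀ t i, V.sec (f t) i = V.sec w i + t * ζ i := by
    intro t i
    by_cases hi : i ∈ Set.range V.s
    · obtain ⟨j, rfl⟩ := hi
      simp only [hζ, V.sec_s, V.s_inj.extend_apply, hf, Pi.add_apply, Pi.smul_apply, smul_eq_mul]
    · rw [V.sec_not _ hi, V.sec_not _ hi]
      simp only [hζ]
      rw [Function.extend_apply' _ _ _ hi]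
      simp
  have hne : ∀ᶠ t in 𝓝 (0 : ℂ), ∀ i, i ∉ Set.range V'.s → V.sec (f t) i ≠ 0 := by
    rw [eventually_all]
    intro i
    by_cases hi : i ∈ Set.range V'.s
    · exact Eventually.of_forall fun _ h => absurd hi h
    · have h2 : ContinuousAt (fun t : ℂ => V.sec w i + t * ζ i) 0 := by fun_prop
      have h3 : (fun t : ℂ => V.sec w i + t * ζ i) 0 ≠ 0 := by simpa using hw i hi
      refine (h2.eventually_ne h3).mono fun t h4 _ => ?_
      rw [hsec]
      exact h4
  symm
  refine (DDb_sub_log (P := fun t => (S.pot V (f t) : ℂ)) ?_ (cf V') (V.sec w) ζ ?_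
    ?_).self_of_nhds
  · refine Eventually.of_forall fun t => ?_
    have h5 : ContDiffAt ℝ ∞ f t := by
      refine contDiffAt_const.add (contDiffAt_id.smul contDiffAt_const)
    exact Complex.ofRealCLM.contDiff.contDiffAt.comp t
      ((S.contDiff_pot V).contDiffAt.comp t h5)
  · intro i hi
    refine hw i fun h => hi ?_
    unfold cf
    rw [if_pos h]
  · filter_upwards [hne] with t ht
    have h5 := pot_cor S V' ht
    simp only [hsec] at h5
    have h6 : S.Ψ (fun i => V.sec w i + t * ζ i) = S.pot V (f t) := by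
      unfold Data.pot
      congr 1
      funext i
      exact (hsec t i).symm
    have h7 : V.sec (f t) = fun i => V.sec w i + t * ζ i := funext fun i => hsec t i
    rw [h7, h6] at h5
    simp only [hG, h7]
    rw [h5]
    push_cast
    rfl

open Classical in
/-- The potentials. -/
noncomputable def phi (S : Data ν κ) (c : OpenPartialHomeomorph (Tor ν κ) (Fin n → ℂ)) :
    (Fin n → ℂ) → ℝ := if h : ∃ V : Vtx ν κ, chart V = c then S.pot h.choose else 0

theorem exists_phi (S : Data ν κ) {c : OpenPartialHomeomorph (Tor ν κ) (Fin n → ℂ)}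
    (h : c ∈ Set.range (chart : Vtx ν κ → _)) : ∃ V : Vtx ν κ, chart V = c ∧ phi S c = S.pot V := by
  have h1 : ∃ V : Vtx ν κ, chart V = c := h
  refine ⟨h1.choose, h1.choose_spec, ?_⟩
  unfold phi
  rw [dif_pos h1]

/-- **Toric manifolds carry Kähler metrics with positive holomorphic sectional curvature.** -/
theorem hasPositiveHSC_tor (h : IsDelzant ν κ) :
    @HasPositiveHSC n (Tor ν κ) _ (torCharted h) := by
  obtain ⟨S⟩ := exists_data h
  let := torCharted h
  refine ⟨phi S, ⟨?_, ?_, ?_⟩, ?_⟩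
  · intro c hc
    obtain ⟨V, rfl, hV⟩ := exists_phi S hc
    rw [hV]
    exact (S.contDiff_pot V).contDiffOn
  · intro c hc w _ v hv
    obtain ⟨V, rfl, hV⟩ := exists_phi S hc
    rw [hV]
    exact S.metric_pos V w v hv
  · intro c hc c' hc' w hw x y
    obtain ⟨V, rfl, hV⟩ := exists_phi S hc
    obtain ⟨V', rfl, hV'⟩ := exists_phi S hc'
    rw [hV, hV']
    rw [trans_source] at hw
    exact herm_compat S V V' hw x y
  · intro c hc w _ v hv
    obtain ⟨V, rfl, hV⟩ := exists_phi S hc
    rw [hV]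
    exact S.hsc_pos h V w v hv

end Pool.Agent.Y184.HS
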