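import Pool.Agent.Y184.HS.Pos

/-! The toric manifold of a Delzant polytope as a compact complex manifold. -/

set_option autoImplicit false
set_option linter.unusedSectionVars false

open scoped Manifold ContDiff Topology ComplexConjugate
open Filter Set

namespace Pool.Agent.Y184.HS

variable {n : ℕ} {F : Type} [Fintype F] {ν : F → Fin n → ℤ} {κ : F → ℝ}

theorem continuous_mk (ν : F → Fin n → ℤ) (κ : F → ℝ) : Continuous (Tor.mk ν κ) :=
  continuous_quotient_mk'

theorem surjective_mk (ν : F → Fin n → ℤ) (κ : F → ℝ) : Function.Surjective (Tor.mk ν κ) :=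
  Quotient.mk_surjective

theorem mk_eq {z w : Om ν κ} : Tor.mk ν κ z = Tor.mk ν κ w ↔ Rel ν (z : F → ℂ) w :=
  Quotient.eq (r := torSetoid ν κ)

theorem Om_smul {z : F → ℂ} (hz : z ∈ Om ν κ) {g : F → ℂ} (hg : ∀ i, g i ≠ 0) :
    (fun i => g i * z i) ∈ Om ν κ := by
  obtain ⟨x, h1, h2⟩ := hz
  exact ⟨x, h1, fun i hi => h2 i ((mul_eq_zero.1 hi).resolve_left (hg i))⟩

theorem isOpenMap_mk (ν : F → Fin n → ℤ) (κ : F → ℝ) : IsOpenMap (Tor.mk ν κ) := by
  intro U hU
  have hq : Topology.IsQuotientMap (Tor.mk ν κ) := isQuotientMap_quotient_mk'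
  rw [← hq.isOpen_preimage, isOpen_iff_mem_nhds]
  rintro z ⟨u, hu, huz⟩
  obtain ⟨g, h0, h1, h2⟩ := (mk_eq.1 huz).symm
  have hc : Continuous (fun z' : Om ν κ => (⟨fun i => g i * (z' : F → ℂ) i,
      Om_smul z'.2 h0⟩ : Om ν κ)) := by
    refine Continuous.subtype_mk ?_ _
    exact continuous_pi fun i => continuous_const.mul
      ((continuous_apply i).comp continuous_subtype_val)
  have h3 : (fun z' : Om ν κ => (⟨fun i => g i * (z' : F → ℂ) i, Om_smul z'.2 h0⟩ : Om ν κ)) z =
      u := by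
    apply Subtype.ext
    funext i
    exact (h2 i).symm
  have h4 := hc.continuousAt.preimage_mem_nhds (x := z) (t := U) (by
    have h5 := hU.mem_nhds hu
    rw [← h3] at h5
    exact h5)
  filter_upwards [h4] with z' hz'
  refine ⟨_, hz', ?_⟩
  rw [mk_eq]
  exact Rel.symm ⟨g, h0, h1, fun i => rfl⟩

theorem isOpenQuotientMap_mk (ν : F → Fin n → ℤ) (κ : F → ℝ) :
    IsOpenQuotientMap (Tor.mk ν κ) :=
  ⟨surjective_mk ν κ, continuous_mk ν κ, isOpenMap_mk ν κ⟩

theorem isOpen_ne (V : Vtx ν κ) :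
    IsOpen {z : Om ν κ | ∀ i, i ∉ Set.range V.s → (z : F → ℂ) i ≠ 0} := by
  have h : {z : Om ν κ | ∀ i, i ∉ Set.range V.s → (z : F → ℂ) i ≠ 0} =
      ⋂ i : F, {z : Om ν κ | i ∉ Set.range V.s → (z : F → ℂ) i ≠ 0} := by
    ext z
    simp
  rw [h]
  refine isOpen_iInter_of_finite fun i => ?_
  by_cases hi : i ∈ Set.range V.s
  · have : {z : Om ν κ | i ∉ Set.range V.s → (z : F → ℂ) i ≠ 0} = Set.univ :=
      Set.eq_univ_of_forall fun z h => absurd hi h
    rw [this]
    exact isOpen_univ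
  · have : {z : Om ν κ | i ∉ Set.range V.s → (z : F → ℂ) i ≠ 0} =
        {z : Om ν κ | (z : F → ℂ) i ≠ 0} := by
      ext z
      simp [hi]
    rw [this]
    exact isOpen_ne_fun ((continuous_apply i).comp continuous_subtype_val) continuous_const

theorem continuousAt_cor (V : Vtx ν κ) {z : F → ℂ} (hz : ∀ i, i ∉ Set.range V.s → z i ≠ 0) :
    ContinuousAt V.cor z := by
  rw [continuousAt_pi]
  intro l
  unfold Vtx.cor
  refine tendsto_finsetProd _ fun i _ => ?_
  by_cases hi : i ∈ Set.range V.s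
  · obtain ⟨j, rfl⟩ := hi
    rw [V.E_s]
    split_ifs
    · simpa using ((continuous_apply (V.s j)).tendsto z)
    · simp
  · exact ((continuous_apply i).continuousAt.zpow₀ _ (Or.inl (hz i hi)))

/-- The chart of the toric manifold at a vertex of the polytope. -/
noncomputable def chart (V : Vtx ν κ) : OpenPartialHomeomorph (Tor ν κ) (Fin n → ℂ) where
  toFun := Quotient.lift (fun z : Om ν κ => V.cor z) fun _ _ h => V.cor_rel h
  invFun := fun w => Tor.mk ν κ ⟨V.sec w, V.sec_mem w⟩
  source := Tor.mk ν κ '' {z | ∀ i, i ∉ Set.range V.s → (z : F → ℂ) i ≠ 0}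
  target := Set.univ
  map_source' := fun _ _ => Set.mem_univ _
  map_target' := fun w _ => ⟨_, fun i hi => by
    change V.sec w i ≠ 0
    rw [V.sec_not w hi]; exact one_ne_zero, rfl⟩
  left_inv' := by
    rintro _ ⟨z, hz, rfl⟩
    exact mk_eq.2 (V.rel_sec hz)
  right_inv' := fun w _ => V.cor_sec w
  open_source := isOpenMap_mk ν κ _ (isOpen_ne V)
  open_target := isOpen_univ
  continuousOn_toFun := by
    rintro _ ⟨z, hz, rfl⟩
    refine ContinuousAt.continuousWithinAt ?_
    rw [← (isOpenQuotientMap_mk ν κ).continuousAt_comp_iff]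
    exact (continuousAt_cor V hz).comp continuous_subtype_val.continuousAt
  continuousOn_invFun := by
    refine Continuous.continuousOn ?_
    refine (continuous_mk ν κ).comp (Continuous.subtype_mk ?_ _)
    exact (Data.contDiff_sec V).continuous

theorem chart_mk (V : Vtx ν κ) (z : Om ν κ) : chart V (Tor.mk ν κ z) = V.cor z := rfl

theorem chart_symm (V : Vtx ν κ) (w : Fin n → ℂ) :
    (chart V).symm w = Tor.mk ν κ ⟨V.sec w, V.sec_mem w⟩ := rfl

theorem chart_target (V : Vtx ν κ) : (chart V).target = Set.univ := rfl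

theorem chart_source (V : Vtx ν κ) : (chart V).source =
    Tor.mk ν κ '' {z | ∀ i, i ∉ Set.range V.s → (z : F → ℂ) i ≠ 0} := rfl

theorem Rel.ne {z w : F → ℂ} (h : Rel ν z w) {i : F} : z i ≠ 0 ↔ w i ≠ 0 := by
  obtain ⟨g, h0, h1, h2⟩ := h
  rw [h2 i]
  constructor
  · exact fun h => mul_ne_zero (h0 i) h
  · exact fun h h' => h (by rw [h', mul_zero])

theorem mk_mem_source (V : Vtx ν κ) (z : Om ν κ) : Tor.mk ν κ z ∈ (chart V).source ↔
    ∀ i, i ∉ Set.range V.s → (z : F → ℂ) i ≠ 0 := by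
  rw [chart_source]
  constructor
  · rintro ⟨z', hz', h⟩ i hi
    exact (mk_eq.1 h).ne.1 (hz' i hi)
  · intro h
    exact ⟨z, h, rfl⟩

theorem exists_chart (h : IsDelzant ν κ) (q : Tor ν κ) : ∃ V : Vtx ν κ, q ∈ (chart V).source := by
  obtain ⟨z, rfl⟩ := surjective_mk ν κ q
  obtain ⟨V, hV⟩ := h.exists_vtx z.2
  exact ⟨V, (mk_mem_source V z).2 hV⟩

/-- The complex manifold structure: the charts are those at the vertices of the polytope. -/
@[reducible] noncomputable def torCharted (h : IsDelzant ν κ) :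
    ChartedSpace (Fin n → ℂ) (Tor ν κ) where
  atlas := Set.range chart
  chartAt := fun q => chart (exists_chart h q).choose
  mem_chart_source := fun q => (exists_chart h q).choose_spec
  chart_mem_atlas := fun _ => ⟨_, rfl⟩

/-- The coordinate changes. -/
theorem analyticAt_trans (V V' : Vtx ν κ) {w : Fin n → ℂ}
    (hw : ∀ i, i ∉ Set.range V'.s → V.sec w i ≠ 0) :
    AnalyticAt ℂ (fun y => V'.cor (V.sec y)) w := by
  rw [analyticAt_pi_iff]
  intro l
  unfold Vtx.cor
  have h0 : ∀ i, AnalyticAt ℂ (fun y => V.sec y i) w := by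
    intro i
    by_cases hi : i ∈ Set.range V.s
    · obtain ⟨j, rfl⟩ := hi
      simp only [V.sec_s]
      exact (ContinuousLinearMap.proj (R := ℂ) (φ := fun _ : Fin n => ℂ) j).analyticAt w
    · simp only [V.sec_not _ hi]
      exact analyticAt_const
  refine Finset.analyticAt_fun_prod _ fun i _ => ?_
  by_cases hi : i ∈ Set.range V'.s
  · obtain ⟨j, rfl⟩ := hi
    rw [V'.E_s]
    split_ifs
    · simpa using h0 (V'.s j)
    · simpa using analyticAt_const
  · exact (h0 i).fun_zpow (hw i hi)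

theorem trans_source (V V' : Vtx ν κ) (w : Fin n → ℂ) :
    w ∈ ((chart V).symm.trans (chart V')).source ↔ ∀ i, i ∉ Set.range V'.s → V.sec w i ≠ 0 := by
  rw [OpenPartialHomeomorph.trans_source]
  simp only [OpenPartialHomeomorph.symm_source, chart_target, Set.univ_inter, Set.mem_preimage]
  rw [chart_symm, mk_mem_source]

theorem isManifold_tor (h : IsDelzant ν κ) :
    @IsManifold ℂ _ (Fin n → ℂ) _ _ (Fin n → ℂ) _ 𝓘(ℂ, Fin n → ℂ) ω (Tor ν κ) _
      (torCharted h) := by
  let := torCharted h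
  refine isManifold_of_contDiffOn _ _ _ ?_
  rintro _ _ ⟨V, rfl⟩ ⟨V', rfl⟩
  intro w hw
  have h1 : w ∈ ((chart V).symm.trans (chart V')).source := hw.1
  rw [trans_source] at h1
  exact (analyticAt_trans V V' h1).contDiffAt.contDiffWithinAt

/-! ### Compactness -/

section

variable (S : Data ν κ)

theorem prod_exp {a : F → ℝ} (ha : a ∈ LL ν) (k : Fin n) :
    ∏ i, ((Real.exp (a i) : ℝ) : ℂ) ^ ν i k = 1 := by
  have h1 := ha k
  have h2 : ∏ i, (Real.exp (a i)) ^ ν i k = 1 := by
    have h3 : ∀ i, (Real.exp (a i)) ^ ν i k = Real.exp (a i * (ν i k : ℝ)) := by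
      intro i
      rw [← Real.rpow_intCast, ← Real.exp_mul]
    rw [Finset.prod_congr rfl fun i _ => h3 i, ← Real.exp_sum, h1, Real.exp_zero]
  exact_mod_cast h2

theorem exp_ne (a : ℝ) : ((Real.exp a : ℝ) : ℂ) ≠ 0 := by exact_mod_cast (Real.exp_pos _).ne'

/-- The compact set of normalised homogeneous coordinates. -/
def KK (ν : F → Fin n → ℤ) (κ : F → ℝ) : Set ((F → ℂ) × (Fin n → ℝ)) :=
  {p | p.2 ∈ poly ν κ ∧ ∀ i, ‖p.1 i‖ ^ 2 = ell ν κ i p.2}

theorem isClosed_poly : IsClosed (poly ν κ) := by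
  have : poly ν κ = ⋂ i, {x | 0 ≤ ell ν κ i x} := by
    ext x
    simp [poly]
  rw [this]
  exact isClosed_iInter fun i => isClosed_le continuous_const (contDiff_ell ν κ i).continuous

theorem isCompact_KK (h : IsDelzant ν κ) : IsCompact (KK ν κ) := by
  have hcl : IsClosed (KK ν κ) := by
    have : KK ν κ = (Prod.snd ⁻¹' poly ν κ) ∩
        ⋂ i, {p : (F → ℂ) × (Fin n → ℝ) | ‖p.1 i‖ ^ 2 = ell ν κ i p.2} := by
      ext p
      simp [KK]
    rw [this]
    refine (isClosed_poly.preimage continuous_snd).inter (isClosed_iInter fun i => ?_)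
    refine isClosed_eq ?_ ?_
    · exact ((continuous_apply i).comp continuous_fst).norm.pow 2
    · exact (contDiff_ell ν κ i).continuous.comp continuous_snd
  obtain ⟨C, hC⟩ := (Metric.isCompact_of_isClosed_isBounded isClosed_poly
    h.bounded).exists_bound_of_continuousOn (f := fun x => fun i => ell ν κ i x)
    (continuous_pi fun i => (contDiff_ell ν κ i).continuous).continuousOn
  have hsub : KK ν κ ⊆ (Metric.closedBall (0 : F → ℂ) (C + 1)) ×ˢ poly ν κ := by
    rintro ⟨z, x⟩ ⟨h1, h2⟩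
    refine ⟨?_, h1⟩
    have h0 : 0 ≤ C := (norm_nonneg _).trans (hC x h1)
    rw [mem_closedBall_zero_iff, pi_norm_le_iff_of_nonneg (by linarith)]
    intro i
    have h3 : ‖z i‖ ^ 2 ≤ C := by
      have h4 := h2 i
      simp only at h4
      rw [h4]
      exact (le_abs_self _).trans ((norm_le_pi_norm (fun i => ell ν κ i x) i).trans (hC x h1))
    nlinarith [norm_nonneg (z i)]
  exact ((isCompact_closedBall _ _).prod (Metric.isCompact_of_isClosed_isBounded isClosed_poly
    h.bounded)).of_isClosed_subset hcl hsub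

theorem compactSpace_tor (h : IsDelzant ν κ) : CompactSpace (Tor ν κ) := by
  obtain ⟨S⟩ := exists_data h
  have : CompactSpace (KK ν κ) := isCompact_iff_compactSpace.1 (isCompact_KK h)
  have hmem : ∀ p : KK ν κ, (p : (F → ℂ) × (Fin n → ℝ)).1 ∈ Om ν κ := fun p =>
    ⟨_, p.2.1, fun i hi => by
      have := p.2.2 i
      rw [hi] at this
      simpa using this.symm⟩
  have hc : Continuous fun p : KK ν κ => Tor.mk ν κ ⟨_, hmem p⟩ :=
    (continuous_mk ν κ).comp (Continuous.subtype_mk (continuous_fst.comp continuous_subtype_val) _)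
  have hs : Function.Surjective fun p : KK ν κ => Tor.mk ν κ ⟨_, hmem p⟩ := by
    intro q
    obtain ⟨z, rfl⟩ := surjective_mk ν κ q
    have h1 := S.sol z z.2
    refine ⟨⟨(fun i => ((Real.exp (S.a z i) : ℝ) : ℂ) * (z : F → ℂ) i, S.x z), ?_, ?_⟩, ?_⟩
    · intro i
      rw [← h1.2 i]
      positivity
    · intro i
      simp only
      rw [← h1.2 i, norm_mul, Complex.norm_real, Real.norm_of_nonneg (Real.exp_pos _).le, mul_pow,
        two_mul, Real.exp_add]
      ring
    · simp only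
      rw [mk_eq]
      exact Rel.symm ⟨fun i => ((Real.exp (S.a z i) : ℝ) : ℂ), fun i => exp_ne _, prod_exp h1.1,
        fun i => rfl⟩
  rw [← isCompact_univ_iff, ← hs.range_eq]
  exact isCompact_range hc

/-! ### Separation -/

theorem continuous_nrm (i : F) : Continuous fun z : Om ν κ =>
    ((Real.exp (S.a z i) : ℝ) : ℂ) * (z : F → ℂ) i := by
  have h1 : Continuous fun z : Om ν κ => S.a z := by
    rw [continuous_iff_continuousAt]
    intro z
    exact (S.sma z z.2).continuousAt.comp continuous_subtype_val.continuousAt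
  have h2 : Continuous fun z : Om ν κ => S.a z i := (continuous_apply i).comp h1
  exact (Complex.continuous_ofReal.comp (Real.continuous_exp.comp h2)).mul
    ((continuous_apply i).comp continuous_subtype_val)

theorem t2Space_tor (h : IsDelzant ν κ) : T2Space (Tor ν κ) := by
  obtain ⟨S⟩ := exists_data h
  rw [t2Space_iff_of_isOpenQuotientMap (isOpenQuotientMap_mk ν κ)]
  set C : Set ((Om ν κ × Om ν κ) × (F → Circle)) := {p | (∀ k, ∏ i, p.2 i ^ ν i k = 1) ∧
    ∀ i, ((Real.exp (S.a p.1.2 i) : ℝ) : ℂ) * (p.1.2 : F → ℂ) i =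
      (p.2 i : ℂ) * (((Real.exp (S.a p.1.1 i) : ℝ) : ℂ) * (p.1.1 : F → ℂ) i)} with hC
  have hCc : IsClosed C := by
    have : C = (⋂ k, {p : (Om ν κ × Om ν κ) × (F → Circle) | ∏ i, p.2 i ^ ν i k = 1}) ∩
        ⋂ i, {p : (Om ν κ × Om ν κ) × (F → Circle) |
          ((Real.exp (S.a p.1.2 i) : ℝ) : ℂ) * (p.1.2 : F → ℂ) i =
          (p.2 i : ℂ) * (((Real.exp (S.a p.1.1 i) : ℝ) : ℂ) * (p.1.1 : F → ℂ) i)} := by
      ext p
      simp [hC]
    rw [this]
    refine (isClosed_iInter fun k => isClosed_eq ?_ continuous_const).inter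
      (isClosed_iInter fun i => isClosed_eq ?_ ?_)
    · exact continuous_finsetProd _ fun i _ =>
        ((continuous_apply i).comp continuous_snd).zpow _
    · exact (continuous_nrm S i).comp (continuous_snd.comp continuous_fst)
    · exact (continuous_subtype_val.comp ((continuous_apply i).comp continuous_snd)).mul
        ((continuous_nrm S i).comp (continuous_fst.comp continuous_fst))
  have h1 := isClosedMap_fst_of_compactSpace _ hCc
  have h2 : Prod.fst '' C = {q : Om ν κ × Om ν κ | Tor.mk ν κ q.1 = Tor.mk ν κ q.2} := by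
    ext q
    constructor
    · rintro ⟨⟨q, t⟩, ⟨ht1, ht2⟩, rfl⟩
      rw [mem_setOf_eq, mk_eq]
      have h3 : Rel ν (q.1 : F → ℂ) fun i => ((Real.exp (S.a q.1 i) : ℝ) : ℂ) * (q.1 : F → ℂ) i :=
        ⟨_, fun i => exp_ne _, prod_exp (S.sol _ q.1.2).1, fun i => rfl⟩
      have h4 : Rel ν (q.2 : F → ℂ) fun i => ((Real.exp (S.a q.2 i) : ℝ) : ℂ) * (q.2 : F → ℂ) i :=
        ⟨_, fun i => exp_ne _, prod_exp (S.sol _ q.2.2).1, fun i => rfl⟩
      refine h3.trans (Rel.trans ?_ h4.symm)
      refine ⟨fun i => (t i : ℂ), fun i => (t i).coe_ne_zero, fun k => ?_, ht2⟩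
      have h5 := congrArg Circle.coeHom (ht1 k)
      rw [map_prod, map_one] at h5
      exact h5
    · intro hq
      obtain ⟨g, g0, g1, g2⟩ := mk_eq.1 hq
      obtain ⟨V, hV⟩ := h.exists_vtx q.1.2
      have h3 := (S.gauge q.1.2 V hV g0 g1 g2).1
      refine ⟨(q, fun i => Circle.exp (Complex.arg (g i))), ⟨fun k => ?_, fun i => ?_⟩, rfl⟩
      · apply Circle.coe_injective
        have h4 : ∏ i, ((‖g i‖ : ℝ) : ℂ) ^ ν i k = 1 := by
          have h5 := congrArg (fun z : ℂ => ((‖z‖ : ℝ) : ℂ)) (g1 k)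
          simp only [norm_prod, norm_zpow, norm_one] at h5
          exact_mod_cast h5
        have h5 : ∏ i, (Circle.exp (Complex.arg (g i)) : ℂ) ^ ν i k = 1 := by
          have h6 := g1 k
          have h7 : ∀ i, g i ^ ν i k = ((‖g i‖ : ℝ) : ℂ) ^ ν i k *
              (Circle.exp (Complex.arg (g i)) : ℂ) ^ ν i k := by
            intro i
            rw [← mul_zpow, Circle.coe_exp, Complex.norm_mul_exp_arg_mul_I]
          rw [Finset.prod_congr rfl fun i _ => h7 i, Finset.prod_mul_distrib, h4, one_mul] at h6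
          exact h6
        have h6 := map_prod Circle.coeHom (fun i => (Circle.exp (Complex.arg (g i))) ^ ν i k)
          Finset.univ
        exact h6.trans h5
      · simp only
        have h5 : 0 < ‖g i‖ := norm_pos_iff.2 (g0 i)
        rw [h3 i, g2 i, Real.exp_sub, Real.exp_log h5, Circle.coe_exp]
        nth_rewrite 2 [← Complex.norm_mul_exp_arg_mul_I (g i)]
        have h6 : ((‖g i‖ : ℝ) : ℂ) ≠ 0 := by exact_mod_cast h5.ne'
        push_cast
        field_simp
  rw [← h2]
  exact h1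

/-! ### Connectedness -/

theorem connectedSpace_tor (h : IsDelzant ν κ) : ConnectedSpace (Tor ν κ) := by
  have hp : PreconnectedSpace (Tor ν κ) := by
    constructor
    have h1 : (Set.univ : Set (Tor ν κ)) = ⋃ V : Vtx ν κ, Set.range (chart V).symm := by
      symm
      refine Set.eq_univ_of_forall fun q => ?_
      obtain ⟨V, hV⟩ := exists_chart h q
      exact Set.mem_iUnion.2 ⟨V, ⟨chart V q, (chart V).left_inv hV⟩⟩
    rw [h1]
    obtain ⟨x, hx⟩ := h.nonempty
    have hone : (fun _ : F => (1 : ℂ)) ∈ Om ν κ := ⟨x, hx, fun i hi => absurd hi one_ne_zero⟩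
    refine isPreconnected_iUnion ⟨Tor.mk ν κ ⟨_, hone⟩, ?_⟩ fun V => ?_
    · rw [Set.mem_iInter]
      intro V
      refine ⟨fun _ => 1, ?_⟩
      rw [chart_symm]
      congr 1
      apply Subtype.ext
      funext i
      simp only
      by_cases hi : i ∈ Set.range V.s
      · obtain ⟨j, rfl⟩ := hi
        rw [V.sec_s]
      · rw [V.sec_not _ hi]
    · have h2 : Continuous (chart V).symm :=
        (continuous_mk ν κ).comp (Continuous.subtype_mk (Data.contDiff_sec V).continuous _)
      exact isPreconnected_range h2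
  obtain ⟨x, hx⟩ := h.nonempty
  exact { toNonempty := ⟨Tor.mk ν κ ⟨fun _ => 1, x, hx, fun i hi => absurd hi one_ne_zero⟩⟩ }

end

end Pool.Agent.Y184.HS
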