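import Pool.Agent.Y184.HS.Vtx

/-! The minimum of the moment functional on the orbits, and its smooth dependence on the point. -/

set_option autoImplicit false
set_option linter.unusedSectionVars false

open scoped Manifold ContDiff Topology
open Filter Set

namespace Pool.Agent.Y184.HS

variable {n : ℕ} {F : Type} [Fintype F]

/-- The real Lie algebra of the torus. -/
def LL (ν : F → Fin n → ℤ) : Submodule ℝ (F → ℝ) where
  carrier := {a | ∀ k, ∑ i, a i * (ν i k : ℝ) = 0}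
  add_mem' := by
    intro a b ha hb k
    change ∀ k, ∑ i, a i * (ν i k : ℝ) = 0 at ha
    change ∀ k, ∑ i, b i * (ν i k : ℝ) = 0 at hb
    simp only [Pi.add_apply, add_mul, Finset.sum_add_distrib, ha k, hb k, add_zero]
  zero_mem' := by
    intro k
    simp
  smul_mem' := by
    intro c a ha k
    change ∀ k, ∑ i, a i * (ν i k : ℝ) = 0 at ha
    simp only [Pi.smul_apply, smul_eq_mul, mul_assoc]
    rw [← Finset.mul_sum, ha k, mul_zero]

theorem mem_LL {ν : F → Fin n → ℤ} {a : F → ℝ} :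
    a ∈ LL ν ↔ ∀ k, ∑ i, a i * (ν i k : ℝ) = 0 := Iff.rfl

/-- `(a, x)` solves `|z i|² exp (2 a i) = ℓ i (x)`. -/
def Sol (ν : F → Fin n → ℤ) (κ : F → ℝ) (z : F → ℂ) (a : F → ℝ) (x : Fin n → ℝ) : Prop :=
  a ∈ LL ν ∧ ∀ i, ‖z i‖ ^ 2 * Real.exp (2 * a i) = ell ν κ i x

theorem ell_sub (ν : F → Fin n → ℤ) (κ : F → ℝ) (i : F) (x x' : Fin n → ℝ) :
    ell ν κ i x - ell ν κ i x' = ∑ k, (x k - x' k) * (ν i k : ℝ) := by
  unfold ell
  simp only [sub_mul, Finset.sum_sub_distrib]
  ring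

theorem sum_LL {ν : F → Fin n → ℤ} {a : F → ℝ} (ha : a ∈ LL ν) (x : Fin n → ℝ) :
    ∑ i, a i * ∑ k, x k * (ν i k : ℝ) = 0 := by
  simp only [Finset.mul_sum]
  rw [Finset.sum_comm]
  refine Finset.sum_eq_zero fun k _ => ?_
  have h := ha k
  rw [Finset.sum_congr rfl fun i _ => by rw [show a i * (x k * (ν i k : ℝ)) =
    x k * (a i * (ν i k : ℝ)) by ring], ← Finset.mul_sum, h, mul_zero]

theorem sum_mul_ell {ν : F → Fin n → ℤ} {κ : F → ℝ} {a : F → ℝ} (ha : a ∈ LL ν) (x : Fin n → ℝ) :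
    ∑ i, a i * ell ν κ i x = ∑ i, a i * κ i := by
  unfold ell
  simp only [mul_add, Finset.sum_add_distrib]
  rw [sum_LL ha x, zero_add]

namespace Vtx

variable {ν : F → Fin n → ℤ} {κ : F → ℝ} (V : Vtx ν κ)

theorem E_real (i : F) (l : Fin n) : (V.E i l : ℝ) = ∑ k, (ν i k : ℝ) * (V.A⁻¹ k l : ℝ) := by
  unfold E
  push_cast
  rfl

open Classical in
/-- Elements of `LL` are determined by the coordinates outside of the vertex. -/
theorem LL_s {a : F → ℝ} (ha : a ∈ LL ν) (l : Fin n) :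
    a (V.s l) = - ∑ i, (if i ∈ Set.range V.s then 0 else a i * (V.E i l : ℝ)) := by
  have h := V.sum_mul_E (R := ℝ) ha l
  have h1 : ∑ i, a i * (V.E i l : ℝ) = a (V.s l) +
      ∑ i, (if i ∈ Set.range V.s then 0 else a i * (V.E i l : ℝ)) := by
    have h2 : ∑ i, a i * (V.E i l : ℝ) = (∑ i, if i ∈ Set.range V.s then a i * (V.E i l : ℝ) else 0)
        + ∑ i, (if i ∈ Set.range V.s then 0 else a i * (V.E i l : ℝ)) := by
      rw [← Finset.sum_add_distrib]
      refine Finset.sum_congr rfl fun i _ => ?_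
      split_ifs <;> simp
    rw [h2]
    congr 1
    rw [Finset.sum_eq_single (V.s l)]
    · rw [if_pos ⟨l, rfl⟩, V.E_s_self, Int.cast_one, mul_one]
    · intro i _ hi
      split_ifs with h3
      · obtain ⟨j, rfl⟩ := h3
        have hjl : j ≠ l := fun h => hi (by rw [h])
        rw [V.E_s, if_neg hjl]
        simp
      · rfl
    · intro h
      exact absurd (Finset.mem_univ _) h
  rw [h1] at h
  linarith

theorem LL_zero {a : F → ℝ} (ha : a ∈ LL ν) (h : ∀ i, i ∉ Set.range V.s → a i = 0) : a = 0 := by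
  classical
  funext i
  by_cases hi : i ∈ Set.range V.s
  · obtain ⟨l, rfl⟩ := hi
    rw [V.LL_s ha l]
    rw [Finset.sum_eq_zero, neg_zero, Pi.zero_apply]
    intro i _
    split_ifs with h1
    · rfl
    · rw [h i h1, zero_mul]
  · exact h i hi

include V in
/-- Linear functionals which vanish on `LL`. -/
theorem ann {y : F → ℝ} (hy : ∀ b ∈ LL ν, ∑ i, y i * b i = 0) :
    ∃ x : Fin n → ℝ, ∀ i, y i = ∑ k, x k * (ν i k : ℝ) := by
  classical
  refine ⟨fun k => ∑ l, (V.A⁻¹ k l : ℝ) * y (V.s l), fun i => ?_⟩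
  have h1 : ∑ k, (∑ l, (V.A⁻¹ k l : ℝ) * y (V.s l)) * (ν i k : ℝ) =
      ∑ l, (V.E i l : ℝ) * y (V.s l) := by
    simp only [Finset.sum_mul, E_real]
    rw [Finset.sum_comm]
    exact Finset.sum_congr rfl fun l _ => Finset.sum_congr rfl fun k _ => by ring
  rw [h1]
  have hb : (fun j => (if j = i then (1 : ℝ) else 0) - ∑ l, if j = V.s l then (V.E i l : ℝ) else 0) ∈
      LL ν := by
    intro k
    simp only [sub_mul, Finset.sum_sub_distrib]
    have h2 : ∑ j, (if j = i then (1 : ℝ) else 0) * (ν j k : ℝ) = (ν i k : ℝ) := by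
      simp
    have h3 : ∑ j, (∑ l, if j = V.s l then (V.E i l : ℝ) else 0) * (ν j k : ℝ) = (ν i k : ℝ) := by
      simp only [Finset.sum_mul]
      rw [Finset.sum_comm]
      have h4 : ∀ l, ∑ j, (if j = V.s l then (V.E i l : ℝ) else 0) * (ν j k : ℝ) =
          (V.E i l : ℝ) * (ν (V.s l) k : ℝ) := by
        intro l
        simp
      rw [Finset.sum_congr rfl fun l _ => h4 l]
      exact_mod_cast V.sum_E i k
    rw [h2, h3, sub_self]
  have h5 := hy _ hb
  simp only [mul_sub, Finset.sum_sub_distrib] at h5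
  have h6 : ∑ j, y j * (if j = i then (1 : ℝ) else 0) = y i := by simp
  have h7 : ∑ j, y j * (∑ l, if j = V.s l then (V.E i l : ℝ) else 0) =
      ∑ l, (V.E i l : ℝ) * y (V.s l) := by
    simp only [Finset.mul_sum]
    rw [Finset.sum_comm]
    refine Finset.sum_congr rfl fun l _ => ?_
    simp [mul_comm]
  rw [h6, h7] at h5
  linarith

/-- The key injectivity. -/
theorem key {p a : F → ℝ} {x : Fin n → ℝ} (hp : ∀ i, 0 ≤ p i)
    (hp' : ∀ i, i ∉ Set.range V.s → 0 < p i) (ha : a ∈ LL ν)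
    (h : ∀ i, p i * a i = ∑ k, x k * (ν i k : ℝ)) : a = 0 ∧ x = 0 := by
  have h1 : ∑ i, a i * (p i * a i) = 0 := by
    rw [Finset.sum_congr rfl fun i _ => by rw [h i]]
    exact sum_LL ha x
  have h2 : ∀ i, a i * (p i * a i) = 0 := by
    have h3 : ∀ i ∈ Finset.univ, 0 ≤ a i * (p i * a i) := fun i _ => by
      have : a i * (p i * a i) = p i * (a i) ^ 2 := by ring
      rw [this]
      exact mul_nonneg (hp i) (sq_nonneg _)
    intro i
    exact (Finset.sum_eq_zero_iff_of_nonneg h3).1 h1 i (Finset.mem_univ _)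
  have h3 : a = 0 := V.LL_zero ha fun i hi => by
    have h4 := h2 i
    rcases mul_eq_zero.1 h4 with h5 | h5
    · exact h5
    · exact (mul_eq_zero.1 h5).resolve_left (hp' i hi).ne'
  refine ⟨h3, ?_⟩
  have h4 : ∀ i, ∑ k, x k * (ν i k : ℝ) = 0 := fun i => by rw [← h i, h3]; simp
  funext k
  -- x k = ∑_k' x k' δ = ∑ over A A⁻¹
  have h5 : x k = ∑ l, (∑ k', x k' * (ν (V.s l) k' : ℝ)) * (V.A⁻¹ k l : ℝ) := by
    simp only [Finset.sum_mul]
    rw [Finset.sum_comm]
    have h6 : ∀ k', ∑ l, x k' * (ν (V.s l) k' : ℝ) * (V.A⁻¹ k l : ℝ) =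
        x k' * (if k = k' then 1 else 0) := by
      intro k'
      have h7 := congrFun (congrFun V.mul_A k) k'
      rw [Matrix.mul_apply, Matrix.one_apply] at h7
      have h8 : (∑ l, (V.A⁻¹ k l : ℝ) * (V.A l k' : ℝ)) = if k = k' then 1 else 0 := by
        exact_mod_cast h7
      rw [← h8, Finset.mul_sum]
      refine Finset.sum_congr rfl fun l _ => ?_
      have : (V.A l k' : ℝ) = (ν (V.s l) k' : ℝ) := rfl
      rw [this]
      ring
    rw [Finset.sum_congr rfl fun k' _ => h6 k']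
    simp
  rw [h5]
  simp [h4]

theorem sol_unique {z : F → ℂ} (hz : ∀ i, i ∉ Set.range V.s → z i ≠ 0) {a a' : F → ℝ}
    {x x' : Fin n → ℝ} (h : Sol ν κ z a x) (h' : Sol ν κ z a' x') : a = a' ∧ x = x' := by
  have h1 : ∑ i, (a i - a' i) * (ell ν κ i x - ell ν κ i x') = 0 := by
    simp only [ell_sub]
    exact sum_LL ((LL ν).sub_mem h.1 h'.1) (fun k => x k - x' k)
  have h2 : ∀ i, (a i - a' i) * (ell ν κ i x - ell ν κ i x') =
      ‖z i‖ ^ 2 * ((a i - a' i) * (Real.exp (2 * a i) - Real.exp (2 * a' i))) := by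
    intro i
    rw [← h.2 i, ← h'.2 i]
    ring
  have h3 : ∀ i, 0 ≤ (a i - a' i) * (Real.exp (2 * a i) - Real.exp (2 * a' i)) := by
    intro i
    rcases le_total (a i) (a' i) with h4 | h4
    · have h5 : Real.exp (2 * a i) ≤ Real.exp (2 * a' i) := Real.exp_le_exp.2 (by linarith)
      nlinarith
    · have h5 : Real.exp (2 * a' i) ≤ Real.exp (2 * a i) := Real.exp_le_exp.2 (by linarith)
      nlinarith
  have h4 : ∀ i, ‖z i‖ ^ 2 * ((a i - a' i) * (Real.exp (2 * a i) - Real.exp (2 * a' i))) = 0 := by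
    intro i
    rw [Finset.sum_congr rfl fun i _ => h2 i] at h1
    exact (Finset.sum_eq_zero_iff_of_nonneg fun i _ =>
      mul_nonneg (sq_nonneg _) (h3 i)).1 h1 i (Finset.mem_univ _)
  have h5 : a - a' = 0 := V.LL_zero ((LL ν).sub_mem h.1 h'.1) fun i hi => by
    have h6 : ‖z i‖ ^ 2 ≠ 0 := pow_ne_zero _ (norm_ne_zero_iff.2 (hz i hi))
    have h7 := (mul_eq_zero.1 (h4 i)).resolve_left h6
    rcases mul_eq_zero.1 h7 with h8 | h8
    · simpa using h8
    · have h9 : 2 * a i = 2 * a' i := Real.exp_injective (by linarith)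
      simp only [Pi.sub_apply]
      linarith
  have h6 : a = a' := sub_eq_zero.1 h5
  refine ⟨h6, ?_⟩
  have h7 : ∀ i, (0 : ℝ) * 1 = ∑ k, (x k - x' k) * (ν i k : ℝ) := by
    intro i
    rw [← ell_sub ν κ i x x', ← h.2 i, ← h'.2 i, h6]
    ring
  have h8 := V.key (p := fun _ => 1) (a := 0) (x := fun k => x k - x' k) (fun _ => zero_le_one)
    (fun _ _ => one_pos) (LL ν).zero_mem (fun i => by
      have := h7 i
      simp only [Pi.zero_apply, mul_zero]
      rw [← this]; ring)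
  funext k
  have h9 := congrFun h8.2 k
  simp only [Pi.zero_apply] at h9
  linarith

end Vtx

end Pool.Agent.Y184.HS
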