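import Pool.Agent.Y184.HS.Chart

/-! Positivity of the metric and of the holomorphic sectional curvature in the charts: assembly. -/

set_option autoImplicit false
set_option linter.unusedSectionVars false

open scoped Manifold ContDiff Topology ComplexConjugate
open Filter Set

namespace Pool.Agent.Y184.HS

variable {n : ℕ} {F : Type} [Fintype F]

theorem isCurve_of_analytic {w : Fin n → ℂ} {f : ℂ → Fin n → ℂ} (hf : AnalyticAt ℂ f 0)
    (h0 : f 0 = w) : IsCurve w f (deriv f) (deriv (deriv f)) where
  zero := h0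
  deriv1 := by
    filter_upwards [hf.eventually_analyticAt] with t ht
    exact ht.differentiableAt.hasDerivAt
  deriv2 := by
    filter_upwards [hf.deriv.eventually_analyticAt] with t ht
    exact ht.differentiableAt.hasDerivAt
  deriv3 := hf.deriv.deriv.differentiableAt

section

variable {ν : F → Fin n → ℤ} {κ : F → ℝ} (V : Vtx ν κ)

theorem analyticAt_cor {u : ℂ → F → ℂ} {t : ℂ} (hu : ∀ i, AnalyticAt ℂ (fun s => u s i) t)
    (h0 : ∀ i, i ∉ Set.range V.s → u t i ≠ 0) : AnalyticAt ℂ (fun s => V.cor (u s)) t := by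
  rw [analyticAt_pi_iff]
  intro l
  unfold Vtx.cor
  refine Finset.analyticAt_fun_prod _ fun i _ => ?_
  by_cases hi : i ∈ Set.range V.s
  · obtain ⟨j, rfl⟩ := hi
    rw [V.E_s]
    split_ifs
    · simpa using hu (V.s j)
    · simpa using analyticAt_const
  · exact (hu i).fun_zpow (h0 i hi)

open Classical in
/-- The derivative of the chart coordinates along the lines `z i (1 - t b i)`, with an additional
motion in the coordinates of the vertex. -/
theorem hasDerivAt_cor {g : F → ℂ} (hg : ∀ i, g i ≠ 0) (hg1 : ∀ k, ∏ i, g i ^ ν i k = 1)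
    {w v : Fin n → ℂ} {b : F → ℂ} (hb : InC ν b) {u : ℂ → F → ℂ}
    (hu : ∀ t i, i ∉ Set.range V.s → u t i = g i * (1 - t * b i))
    (hus : ∀ t l, u t (V.s l) = g (V.s l) * (w l + t * (v l - b (V.s l) * w l))) :
    HasDerivAt (fun t => V.cor (u t)) v 0 := by
  rw [hasDerivAt_pi]
  intro l
  -- rewrite the coordinate
  have h1 : ∀ t, V.cor (u t) l = (w l + t * (v l - b (V.s l) * w l)) *
      ∏ i, (if i ∈ Set.range V.s then (1 : ℂ) else (1 - t * b i) ^ V.E i l) := by
    intro t
    unfold Vtx.cor
    rw [V.prod_split (fun i => u t i ^ V.E i l)]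
    have h2 : ∏ l', u t (V.s l') ^ V.E (V.s l') l = u t (V.s l) := by
      rw [Finset.prod_eq_single l]
      · rw [V.E_s_self, zpow_one]
      · intro l' _ hl'
        rw [V.E_s, if_neg hl', zpow_zero]
      · intro h
        exact absurd (Finset.mem_univ _) h
    have h3 : ∏ i, (if i ∈ Set.range V.s then (1 : ℂ) else u t i ^ V.E i l) =
        (∏ i, (if i ∈ Set.range V.s then (1 : ℂ) else g i ^ V.E i l)) *
        ∏ i, (if i ∈ Set.range V.s then (1 : ℂ) else (1 - t * b i) ^ V.E i l) := by
      rw [← Finset.prod_mul_distrib]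
      refine Finset.prod_congr rfl fun i _ => ?_
      split_ifs with hi
      · exact (one_mul 1).symm
      · rw [hu t i hi, mul_zpow]
    have h4 : g (V.s l) * ∏ i, (if i ∈ Set.range V.s then (1 : ℂ) else g i ^ V.E i l) = 1 := by
      have h5 := V.prod_E hg hg1 l
      rw [V.prod_split (fun i => g i ^ V.E i l)] at h5
      have h6 : ∏ l', g (V.s l') ^ V.E (V.s l') l = g (V.s l) := by
        rw [Finset.prod_eq_single l]
        · rw [V.E_s_self, zpow_one]
        · intro l' _ hl'
          rw [V.E_s, if_neg hl', zpow_zero]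
        · intro h
          exact absurd (Finset.mem_univ _) h
      rw [h6] at h5
      exact h5
    rw [h2, h3, hus]
    calc _ = (g (V.s l) * ∏ i, (if i ∈ Set.range V.s then (1 : ℂ) else g i ^ V.E i l)) *
          ((w l + t * (v l - b (V.s l) * w l)) *
          ∏ i, (if i ∈ Set.range V.s then (1 : ℂ) else (1 - t * b i) ^ V.E i l)) := by ring
      _ = _ := by rw [h4, one_mul]
  have h2 : HasDerivAt (fun t : ℂ => ∏ i, (if i ∈ Set.range V.s then (1 : ℂ) else
      (1 - t * b i) ^ V.E i l))
      (∑ i, (if i ∈ Set.range V.s then (0 : ℂ) else -(V.E i l : ℂ) * b i)) 0 := by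
    have h3 := HasDerivAt.fun_finsetProd (u := Finset.univ) (x := (0 : ℂ))
      (f := fun i t => if i ∈ Set.range V.s then (1 : ℂ) else (1 - t * b i) ^ V.E i l)
      (f' := fun i => if i ∈ Set.range V.s then (0 : ℂ) else -(V.E i l : ℂ) * b i) (fun i _ => by
        by_cases hi : i ∈ Set.range V.s
        · simp only [hi, if_true]
          exact hasDerivAt_const _ _
        · simp only [hi, if_false]
          have h4 : HasDerivAt (fun t : ℂ => 1 - t * b i) (-(1 * b i)) 0 :=
            ((hasDerivAt_id (0 : ℂ)).mul_const (b i)).const_sub 1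
          have h5 : (fun t : ℂ => 1 - t * b i) 0 ≠ 0 := by simp
          have h6 := (hasDerivAt_zpow (V.E i l) ((fun t : ℂ => 1 - t * b i) 0) (Or.inl h5)).comp
            (0 : ℂ) h4
          refine (h6.congr_deriv ?_)
          simp)
    refine h3.congr_deriv ?_
    refine Finset.sum_congr rfl fun i _ => ?_
    have h4 : ∏ j ∈ Finset.univ.erase i, (if j ∈ Set.range V.s then (1 : ℂ) else
        (1 - 0 * b j) ^ V.E j l) = 1 := by
      refine Finset.prod_eq_one fun j _ => ?_
      simp
    rw [h4, one_smul]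
  have h3 : HasDerivAt (fun t : ℂ => w l + t * (v l - b (V.s l) * w l))
      (1 * (v l - b (V.s l) * w l)) 0 :=
    ((hasDerivAt_id (0 : ℂ)).mul_const _).const_add _
  have h4 := h3.mul h2
  have h5 : (fun t => V.cor (u t) l) = fun t => (w l + t * (v l - b (V.s l) * w l)) *
      ∏ i, (if i ∈ Set.range V.s then (1 : ℂ) else (1 - t * b i) ^ V.E i l) := funext h1
  rw [h5]
  refine h4.congr_deriv ?_
  have h6 := V.sum_mul_E (R := ℂ) hb l
  have h7 : ∑ i, b i * (V.E i l : ℂ) = b (V.s l) +
      ∑ i, (if i ∈ Set.range V.s then (0 : ℂ) else b i * (V.E i l : ℂ)) := by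
    have h8 : ∑ i, b i * (V.E i l : ℂ) = (∑ i, if i ∈ Set.range V.s then b i * (V.E i l : ℂ) else 0)
        + ∑ i, (if i ∈ Set.range V.s then 0 else b i * (V.E i l : ℂ)) := by
      rw [← Finset.sum_add_distrib]
      refine Finset.sum_congr rfl fun i _ => ?_
      split_ifs <;> simp
    rw [h8]
    congr 1
    rw [Finset.sum_eq_single (V.s l)]
    · rw [if_pos ⟨l, rfl⟩, V.E_s_self, Int.cast_one, mul_one]
    · intro i _ hi
      split_ifs with h3
      · obtain ⟨j, rfl⟩ := h3
        have hjl : j ≠ l := fun h => hi (by rw [h])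
        rw [V.E_s, if_neg hjl]
        simp
      · rfl
    · intro h
      exact absurd (Finset.mem_univ _) h
  have h9 : ∏ i, (if i ∈ Set.range V.s then (1 : ℂ) else (1 - 0 * b i) ^ V.E i l) = 1 := by
    refine Finset.prod_eq_one fun j _ => ?_
    simp
  have h10 : ∑ i, (if i ∈ Set.range V.s then (0 : ℂ) else -(V.E i l : ℂ) * b i) =
      -∑ i, (if i ∈ Set.range V.s then (0 : ℂ) else b i * (V.E i l : ℂ)) := by
    rw [← Finset.sum_neg_distrib]
    refine Finset.sum_congr rfl fun i _ => ?_
    split_ifs
    · simp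
    · ring
  rw [h9, h10]
  rw [h7] at h6
  linear_combination (- w l) * h6

end

namespace Data

variable {ν : F → Fin n → ℤ} {κ : F → ℝ} (S : Data ν κ)

/-- For every chart, point and tangent vector there is a holomorphic curve along which the potential
is the potential of a horizontal line in homogeneous coordinates, up to a pluriharmonic term. -/
theorem exists_curve (V : Vtx ν κ) (w v : Fin n → ℂ) :
    ∃ (f : ℂ → Fin n → ℂ) (z ζ : F → ℂ) (A : ℂ → F → ℝ) (X : ℂ → Fin n → ℝ),
      IsCurve w f (deriv f) (deriv (deriv f)) ∧ deriv f 0 = v ∧ Hor ν κ V z ζ A X ∧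
      (v ≠ 0 → ζ ≠ 0) ∧
      D (Db fun t => (S.pot V (f t) : ℂ)) =ᶠ[𝓝 0] D (Db (Hor.Pc κ z ζ A)) := by
  classical
  -- the point on the level set
  set z0 := V.sec w with hz0
  have hz0O : z0 ∈ Om ν κ := V.sec_mem w
  have hz0V : ∀ i, i ∉ Set.range V.s → z0 i ≠ 0 := fun i hi => by
    rw [hz0, V.sec_not w hi]; exact one_ne_zero
  set g : F → ℂ := fun i => ((Real.exp (S.a z0 i) : ℝ) : ℂ) with hg
  have hg0 : ∀ i, g i ≠ 0 := fun i => by
    simp only [hg]
    exact_mod_cast (Real.exp_pos _).ne'
  have hgn : ∀ i, ‖g i‖ = Real.exp (S.a z0 i) := fun i => by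
    simp only [hg, Complex.norm_real, Real.norm_of_nonneg (Real.exp_pos _).le]
  have hg1 : ∀ k, ∏ i, g i ^ ν i k = 1 := by
    intro k
    have h1 := (S.sol z0 hz0O).1 k
    have h2 : ∏ i, (Real.exp (S.a z0 i)) ^ ν i k = 1 := by
      have h3 : ∀ i, (Real.exp (S.a z0 i)) ^ ν i k = Real.exp (S.a z0 i * (ν i k : ℝ)) := by
        intro i
        rw [← Real.rpow_intCast, ← Real.exp_mul]
      rw [Finset.prod_congr rfl fun i _ => h3 i, ← Real.exp_sum, h1, Real.exp_zero]
    simp only [hg]
    exact_mod_cast h2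
  set z : F → ℂ := fun i => g i * z0 i with hz
  have hzV : ∀ i, i ∉ Set.range V.s → z i ≠ 0 := fun i hi => mul_ne_zero (hg0 i) (hz0V i hi)
  have hzO : z ∈ Om ν κ := V.mem_Om hzV
  have hza : S.a z = 0 := by
    funext i
    have h1 := (S.gauge hz0O V hz0V hg0 hg1 (w := z) fun i => rfl).1 i
    rw [h1, hgn, Real.log_exp, sub_self]
    rfl
  -- the horizontal vector
  set V0 : F → ℂ := fun i => g i * V.sec v i * (if i ∈ Set.range V.s then 1 else 0) with hV0
  have hV0s : ∀ l, V0 (V.s l) = g (V.s l) * v l := fun l => by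
    simp [hV0]
  have hV0n : ∀ i, i ∉ Set.range V.s → V0 i = 0 := fun i hi => by
    simp only [hV0, hi, if_false, mul_zero]
  obtain ⟨b', hb', hb''⟩ := V.exists_proj (p := fun i => ‖z i‖ ^ 2) (fun i => by positivity)
    (fun i hi => by
      have := norm_pos_iff.2 (hzV i hi)
      positivity) (fun i => z i * conj (V0 i))
  set b : F → ℂ := fun i => conj (b' i) with hb
  have hbC : InC ν b := hb'.conj
  set ζ : F → ℂ := fun i => V0 i - b i * z i with hζ
  -- the smooth solution along the line
  have hline : ∀ t : ℂ, ContDiffAt ℝ ∞ (fun t : ℂ => fun i => z i + t * ζ i) t := by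
    intro t
    rw [contDiffAt_pi]
    intro i
    exact contDiffAt_const.add (contDiffAt_id.mul contDiffAt_const)
  have hlt : Tendsto (fun t : ℂ => fun i => z i + t * ζ i) (𝓝 0) (𝓝 z) := by
    have h1 := (hline 0).continuousAt
    rw [ContinuousAt] at h1
    simpa using h1
  have hneV : ∀ᶠ t : ℂ in 𝓝 0, ∀ i, i ∉ Set.range V.s → z i + t * ζ i ≠ 0 := by
    rw [eventually_all]
    intro i
    by_cases hi : i ∈ Set.range V.s
    · exact Eventually.of_forall fun _ h => absurd hi h
    · have h2 : ContinuousAt (fun t : ℂ => z i + t * ζ i) 0 := by fun_prop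
      have h3 : (fun t : ℂ => z i + t * ζ i) 0 ≠ 0 := by simpa using hzV i hi
      exact (h2.eventually_ne h3).mono fun t h4 _ => h4
  have hO : ∀ᶠ t : ℂ in 𝓝 0, (fun i => z i + t * ζ i) ∈ Om ν κ :=
    hneV.mono fun t ht => V.mem_Om ht
  set f : ℂ → Fin n → ℂ := fun t => V.cor fun i => z i + t * ζ i with hf
  have hf0 : f 0 = w := by
    have h1 : Rel ν z0 z := ⟨g, hg0, hg1, fun i => rfl⟩
    have h2 := V.cor_rel h1
    have h3 : f 0 = V.cor z := by
      simp [hf]
    rw [h3, ← h2, hz0, V.cor_sec]
  have hfan : AnalyticAt ℂ f 0 := by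
    refine analyticAt_cor V (u := fun t i => z i + t * ζ i) (fun i => ?_) fun i hi => ?_
    · exact analyticAt_const.add (analyticAt_id.mul analyticAt_const)
    · simpa using hzV i hi
  have hfd : HasDerivAt f v 0 := by
    refine hasDerivAt_cor V (w := w) (v := v) (b := b) hg0 hg1 hbC (fun t i hi => ?_) fun t l => ?_
    · simp only [hζ, hV0n i hi, hz, hz0, V.sec_not w hi]
      ring
    · simp only [hζ, hV0s l, hz, hz0, V.sec_s]
      ring
  refine ⟨f, z, ζ, fun t => S.a fun i => z i + t * ζ i, fun t => S.x fun i => z i + t * ζ i,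
    isCurve_of_analytic hfan hf0, hfd.deriv, ?_, ?_, ?_⟩
  · refine ⟨hzV, ?_, ?_, ?_, ?_⟩
    · filter_upwards [hO] with t ht
      exact (S.sma _ ht).comp t (hline t)
    · filter_upwards [hO] with t ht
      exact S.sol _ ht
    · have h1 : (fun i => z i + 0 * ζ i) = z := by
        funext i
        ring
      simp only [h1, hza]
    · intro c hc
      have h1 := hb'' c hc
      have h2 : ∀ i, c i * (z i * conj (ζ i)) = c i * (z i * conj (V0 i)) -
          c i * (((‖z i‖ ^ 2 : ℝ) : ℂ) * b' i) := by
        intro i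
        simp only [hζ, hb, map_sub, map_mul, Complex.conj_conj]
        rw [← Complex.normSq_eq_norm_sq, ← Complex.mul_conj]
        ring
      rw [Finset.sum_congr rfl fun i _ => h2 i, Finset.sum_sub_distrib, h1, sub_self]
  · intro hv hζ0
    apply hv
    have h1 : ∀ i, V0 i = b i * z i := fun i => by
      have := congrFun hζ0 i
      simp only [hζ, Pi.zero_apply] at this
      exact sub_eq_zero.1 this
    have h2 : b = 0 := V.InC_zero hbC fun i hi => by
      have h3 := h1 i
      rw [hV0n i hi] at h3
      exact (mul_eq_zero.1 h3.symm).resolve_right (hzV i hi)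
    funext l
    have h3 := h1 (V.s l)
    rw [hV0s, h2] at h3
    simp only [Pi.zero_apply, zero_mul] at h3
    exact (mul_eq_zero.1 h3).resolve_left (hg0 _)
  · -- the pluriharmonic term
    set cf : F → ℝ := fun i => if i ∈ Set.range V.s then 0 else
      κ i - ∑ l, κ (V.s l) * (V.E i l : ℝ) with hcf
    have hpot : (fun t => (S.pot V (f t) : ℂ)) =ᶠ[𝓝 0] fun t =>
        Hor.Pc κ z ζ (fun t => S.a fun i => z i + t * ζ i) t -
          2 * ∑ i, (cf i : ℂ) * ((Real.log ‖z i + t * ζ i‖ : ℝ) : ℂ) := by
      filter_upwards [hneV] with t ht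
      set u : F → ℂ := fun i => z i + t * ζ i with hu
      have h1 := (S.gauge (V.sec_mem (V.cor u)) V
        (fun i hi => by rw [V.sec_not _ hi]; exact one_ne_zero) (V.lift_ne ht) (V.lift_mem ht)
        (w := u) (by
          obtain ⟨g', h2, h3, h4⟩ := V.rel_sec ht
          intro i
          by_cases hi : i ∈ Set.range V.s
          · obtain ⟨l, rfl⟩ := hi
            rw [V.sec_s, V.lift_s]
            unfold Vtx.cor
            rw [V.prod_split (fun i => u i ^ V.E i l)]
            have h1 : ∏ l', u (V.s l') ^ V.E (V.s l') l = u (V.s l) := by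
              rw [Finset.prod_eq_single l]
              · rw [V.E_s_self, zpow_one]
              · intro l' _ hl'
                rw [V.E_s, if_neg hl', zpow_zero]
              · intro h
                exact absurd (Finset.mem_univ _) h
            rw [h1, mul_comm (u (V.s l)), ← mul_assoc, ← Finset.prod_mul_distrib]
            have h2 : ∏ j, ((if j ∈ Set.range V.s then 1 else u j ^ (-V.E j l)) *
                (if j ∈ Set.range V.s then 1 else u j ^ V.E j l)) = 1 := by
              refine Finset.prod_eq_one fun j _ => ?_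
              split_ifs with h
              · exact one_mul 1
              · rw [← zpow_add₀ (ht j h), neg_add_cancel, zpow_zero]
            rw [h2, one_mul]
          · rw [V.lift_not _ hi, V.sec_not _ hi, mul_one])).2.2
      have h2 : S.pot V (f t) = S.Ψ u - 2 * ∑ i, κ i * Real.log ‖V.lift u i‖ := by
        rw [h1]
        simp only [Data.pot, hf, hu]
        ring
      have h3 : ∑ i, κ i * Real.log ‖V.lift u i‖ = ∑ i, cf i * Real.log ‖u i‖ := by
        have h4 : ∑ i, κ i * Real.log ‖V.lift u i‖ =
            ∑ l, κ (V.s l) * Real.log ‖V.lift u (V.s l)‖ +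
            ∑ i, (if i ∈ Set.range V.s then 0 else κ i * Real.log ‖u i‖) := by
          have h5 := V.prod_split (M := Multiplicative ℝ)
            (fun i => Multiplicative.ofAdd (κ i * Real.log ‖V.lift u i‖))
          have h6 := congrArg Multiplicative.toAdd h5
          simp only [toAdd_prod, toAdd_mul, toAdd_ofAdd] at h6
          rw [h6]
          congr 1
          refine Finset.sum_congr rfl fun i _ => ?_
          split_ifs with hi
          · rfl
          · rw [toAdd_ofAdd, V.lift_not _ hi]
        have h5 : ∀ l, Real.log ‖V.lift u (V.s l)‖ =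
            ∑ j, (if j ∈ Set.range V.s then 0 else -(V.E j l : ℝ) * Real.log ‖u j‖) := by
          intro l
          rw [V.lift_s, norm_prod, Real.log_prod]
          · refine Finset.sum_congr rfl fun j _ => ?_
            split_ifs with hj
            · simp
            · rw [norm_zpow, Real.log_zpow]
              push_cast
              ring
          · intro j _
            split_ifs with hj
            · simp
            · exact norm_ne_zero_iff.2 (zpow_ne_zero _ (ht j hj))
        rw [h4]
        simp only [h5, Finset.mul_sum]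
        rw [Finset.sum_comm, ← Finset.sum_add_distrib]
        refine Finset.sum_congr rfl fun j _ => ?_
        simp only [hcf]
        split_ifs with hj
        · simp
        · rw [sub_mul, Finset.sum_mul]
          have : ∑ l, κ (V.s l) * (-(V.E j l : ℝ) * Real.log ‖u j‖) =
              -∑ l, κ (V.s l) * (V.E j l : ℝ) * Real.log ‖u j‖ := by
            rw [← Finset.sum_neg_distrib]
            exact Finset.sum_congr rfl fun l _ => by ring
          rw [this]
          ring
      rw [h2, h3]
      unfold Hor.Pc Hor.eA Data.Ψ fun0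
      push_cast
      congr 1
      refine Finset.sum_congr rfl fun i _ => ?_
      simp only [hu]
      rw [Complex.mul_conj, Complex.normSq_eq_norm_sq]
      push_cast
      rfl
    -- first derivatives
    have hH : ∀ᶠ t in 𝓝 (0 : ℂ), HasW (fun t => 2 * ∑ i, (cf i : ℂ) *
        ((Real.log ‖z i + t * ζ i‖ : ℝ) : ℂ))
        (2 * ∑ i, (cf i : ℂ) * (ζ i / (2 * (z i + t * ζ i))))
        (2 * ∑ i, (cf i : ℂ) * conj (ζ i / (2 * (z i + t * ζ i)))) t := by
      filter_upwards [hneV] with t ht
      have h1 : ∀ i, HasW (fun t => (cf i : ℂ) * ((Real.log ‖z i + t * ζ i‖ : ℝ) : ℂ))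
          ((cf i : ℂ) * (ζ i / (2 * (z i + t * ζ i))))
          ((cf i : ℂ) * conj (ζ i / (2 * (z i + t * ζ i)))) t := by
        intro i
        by_cases hi : i ∈ Set.range V.s
        · have h2 : cf i = 0 := by simp only [hcf, hi, if_true]
          rw [h2]
          simpa using hasW_const 0 t
        · have h2 : HasDerivAt (fun t => z i + t * ζ i) (ζ i) t := by
            simpa using ((hasDerivAt_id t).mul_const (ζ i)).const_add (z i)
          have h3 := (hasW_const (cf i : ℂ) t).mul (hasW_log_norm h2 (ht i hi))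
          exact h3.cast (by ring) (by ring)
      exact ((hasW_const 2 t).mul (HasW.sum Finset.univ fun i _ => h1 i)).cast (by ring) (by ring)
    have hPsm : ∀ᶠ t in 𝓝 (0 : ℂ), ContDiffAt ℝ ∞
        (Hor.Pc κ z ζ (fun t => S.a fun i => z i + t * ζ i)) t := by
      filter_upwards [hO] with t ht
      unfold Hor.Pc Hor.eA
      refine ContDiffAt.sum fun i _ => ?_
      have h1 : ContDiffAt ℝ ∞ (fun t : ℂ => z i + t * ζ i) t := (contDiffAt_pi.1 (hline t)) i
      have h2 : ContDiffAt ℝ ∞ (fun t : ℂ => ((S.a (fun i => z i + t * ζ i) i : ℝ) : ℂ)) t :=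
        Complex.ofRealCLM.contDiff.contDiffAt.comp t
          ((contDiffAt_pi.1 ((S.sma _ ht).comp t (hline t))) i)
      have h3 : ContDiffAt ℝ ∞
          (fun t : ℂ => Complex.exp (2 * ((S.a (fun i => z i + t * ζ i) i : ℝ) : ℂ))) t :=
        (Complex.contDiff_exp.contDiffAt).comp t (contDiffAt_const.mul h2)
      exact ((h1.mul (contDiffAt_conj h1)).mul h3).sub
        (contDiffAt_const.mul (contDiffAt_const.mul h2))
    have hDb : Db (fun t => (S.pot V (f t) : ℂ)) =ᶠ[𝓝 0] fun t =>
        Db (Hor.Pc κ z ζ (fun t => S.a fun i => z i + t * ζ i)) t -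
          2 * ∑ i, (cf i : ℂ) * conj (ζ i / (2 * (z i + t * ζ i))) := by
      filter_upwards [hpot.eventuallyEq_nhds, hH, hPsm] with t h1 h2 h3
      exact (((hasW_smooth h3).sub h2).congr_of_eventuallyEq h1).Db_eq
    filter_upwards [hDb.eventuallyEq_nhds, hPsm, hneV] with t h1 h2 h3
    have h4 : HasW (fun t => 2 * ∑ i, (cf i : ℂ) * conj (ζ i / (2 * (z i + t * ζ i)))) 0
        (Db (fun t => 2 * ∑ i, (cf i : ℂ) * conj (ζ i / (2 * (z i + t * ζ i)))) t) t := by
      have h5 : ∀ i, ∃ B, HasW (fun t => (cf i : ℂ) * conj (ζ i / (2 * (z i + t * ζ i)))) 0 B t := by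
        intro i
        by_cases hi : i ∈ Set.range V.s
        · have h2 : cf i = 0 := by simp only [hcf, hi, if_true]
          rw [h2]
          exact ⟨0, by simpa using hasW_const 0 t⟩
        · have h6 : DifferentiableAt ℂ (fun t => ζ i / (2 * (z i + t * ζ i))) t := by
            refine DifferentiableAt.div (by fun_prop) (by fun_prop) ?_
            exact mul_ne_zero two_ne_zero (h3 i hi)
          have h7 := (hasW_const (cf i : ℂ) t).mul (HasDerivAt.hasW h6.hasDerivAt).conj
          exact ⟨_, h7.cast (by simp) rfl⟩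
      choose B hB using h5
      have h6 := ((hasW_const 2 t).mul (HasW.sum Finset.univ fun i _ => hB i))
      have h7 := h6.Db_eq
      exact h6.cast (by simp) h7.symm
    have h5 := ((hasW_smooth (contDiffAt_Db h2)).sub h4).congr_of_eventuallyEq h1
    rw [h5.D_eq, sub_zero]

/-- The metric is positive in every chart. -/
theorem metric_pos (V : Vtx ν κ) (w v : Fin n → ℂ) (hv : v ≠ 0) :
    0 < (herm (S.pot V) w v v).re := by
  obtain ⟨f, z, ζ, A, X, hc, hd, H, hζ, heq⟩ := S.exists_curve V w v
  have hφ : ∀ᶠ u in 𝓝 w, ContDiffAt ℝ ∞ (S.pot V) u :=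
    Eventually.of_forall fun u => (S.contDiff_pot V).contDiffAt
  have h1 := hc.herm_eq hφ
  rw [hd] at h1
  rw [← h1, heq.self_of_nhds, H.metric_eq, Complex.ofReal_re]
  have h2 : ∃ i, ζ i ≠ 0 := by
    by_contra h3
    push Not at h3
    exact hζ hv (funext h3)
  obtain ⟨i, hi⟩ := h2
  exact Finset.sum_pos' (fun i _ => by positivity)
    ⟨i, Finset.mem_univ _, by have := norm_pos_iff.2 hi; positivity⟩

/-- The curvature is positive in every chart. -/
theorem hsc_pos (h : IsDelzant ν κ) (V : Vtx ν κ) (w v : Fin n → ℂ) (hv : v ≠ 0) :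
    0 < hsc (S.pot V) w v := by
  obtain ⟨f, z, ζ, A, X, hc, hd, H, hζ, heq⟩ := S.exists_curve V w v
  have hφ : ∀ᶠ u in 𝓝 w, ContDiffAt ℝ ∞ (S.pot V) u :=
    Eventually.of_forall fun u => (S.contDiff_pot V).contDiffAt
  have h1 := hc.le_curv hφ fun x hx => S.metric_pos V w x hx
  rw [hd] at h1
  have h2 : D (Db (D (Db fun t => (S.pot V (f t) : ℂ)))) 0 =
      D (Db (D (Db (Hor.Pc κ z ζ A)))) 0 :=
    (D_congr (Db_congr heq)).self_of_nhds
  rw [h2] at h1
  have h3 := H.fourth_neg (recession h) (hζ hv)
  unfold hsc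
  have h4 := S.metric_pos V w v hv
  exact div_pos (by linarith) (by positivity)

end Data

end Pool.Agent.Y184.HS
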