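import Pool.Agent.Y184.HS.Exist

/-! Smooth dependence of the minimum on the point. -/

set_option autoImplicit false
set_option linter.unusedSectionVars false

open scoped Manifold ContDiff Topology
open Filter Set

namespace Pool.Agent.Y184.HS

variable {n : ℕ} {F : Type} [Fintype F]

/-- The map of the inverse function theorem. -/
noncomputable def Th (ν : F → Fin n → ℤ) (κ : F → ℝ) (q : (F → ℂ) × (LL ν × (Fin n → ℝ))) :
    (F → ℂ) × (F → ℝ) :=
  (q.1, fun i => ‖q.1 i‖ ^ 2 * Real.exp (2 * (q.2.1 : F → ℝ) i) - ell ν κ i q.2.2)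

theorem contDiff_ell (ν : F → Fin n → ℤ) (κ : F → ℝ) (i : F) :
    ContDiff ℝ ∞ (fun x : Fin n → ℝ => ell ν κ i x) := by
  unfold ell
  fun_prop

theorem contDiff_Th (ν : F → Fin n → ℤ) (κ : F → ℝ) : ContDiff ℝ ∞ (Th ν κ) := by
  unfold Th
  refine contDiff_fst.prodMk (contDiff_pi.2 fun i => ?_)
  have h1 : ContDiff ℝ ∞ fun q : (F → ℂ) × (LL ν × (Fin n → ℝ)) => q.1 i :=
    (contDiff_apply ℝ ℂ i).comp contDiff_fst
  have h2 : ContDiff ℝ ∞ fun q : (F → ℂ) × (LL ν × (Fin n → ℝ)) => (q.2.1 : F → ℝ) i :=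
    (contDiff_apply ℝ ℝ i).comp
      (((LL ν).subtypeL.contDiff).comp (contDiff_fst.comp contDiff_snd))
  exact ((h1.norm_sq ℝ).mul (Real.contDiff_exp.comp (contDiff_const.mul h2))).sub
    ((contDiff_ell ν κ i).comp (contDiff_snd.comp contDiff_snd))

namespace Vtx

variable {ν : F → Fin n → ℤ} {κ : F → ℝ} (V : Vtx ν κ)

include V in
theorem finrank_LL : Module.finrank ℝ (LL ν) + n = Fintype.card F := by
  classical
  let N : (F → ℝ) →ₗ[ℝ] (Fin n → ℝ) :=
    { toFun := fun a k => ∑ i, a i * (ν i k : ℝ)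
      map_add' := fun a b => by
        funext k
        simp [add_mul, Finset.sum_add_distrib]
      map_smul' := fun c a => by
        funext k
        simp [Finset.mul_sum, mul_assoc] }
  have hker : LinearMap.ker N = LL ν := by
    ext a
    rw [LinearMap.mem_ker, mem_LL]
    constructor
    · intro h k
      exact congrFun h k
    · intro h
      funext k
      exact h k
  have hsurj : LinearMap.range N = ⊤ := by
    rw [LinearMap.range_eq_top]
    intro c
    refine ⟨fun i => ∑ l, if i = V.s l then ∑ k, c k * (V.A⁻¹ k l : ℝ) else 0, ?_⟩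
    funext k
    change ∑ i, (∑ l, if i = V.s l then ∑ k, c k * (V.A⁻¹ k l : ℝ) else 0) * (ν i k : ℝ) = c k
    simp only [Finset.sum_mul]
    rw [Finset.sum_comm]
    have h1 : ∀ l, ∑ i, (if i = V.s l then ∑ k, c k * (V.A⁻¹ k l : ℝ) else 0) * (ν i k : ℝ) =
        ∑ k', c k' * ((V.A⁻¹ k' l : ℝ) * (V.A l k : ℝ)) := by
      intro l
      have h2 : ∀ i, (if i = V.s l then ∑ k, c k * (V.A⁻¹ k l : ℝ) else 0) * (ν i k : ℝ) =
          if i = V.s l then (∑ k, c k * (V.A⁻¹ k l : ℝ)) * (ν i k : ℝ) else 0 := by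
        intro i
        split_ifs <;> simp
      rw [Finset.sum_congr rfl fun i _ => h2 i, Finset.sum_ite_eq' Finset.univ (V.s l),
        if_pos (Finset.mem_univ _), Finset.sum_mul]
      refine Finset.sum_congr rfl fun k' _ => ?_
      have : (V.A l k : ℝ) = (ν (V.s l) k : ℝ) := rfl
      rw [this]
      ring
    rw [Finset.sum_congr rfl fun l _ => h1 l, Finset.sum_comm]
    have h3 : ∀ k', ∑ l, c k' * ((V.A⁻¹ k' l : ℝ) * (V.A l k : ℝ)) =
        c k' * (if k' = k then 1 else 0) := by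
      intro k'
      rw [← Finset.mul_sum]
      congr 1
      have h7 := congrFun (congrFun V.mul_A k') k
      rw [Matrix.mul_apply, Matrix.one_apply] at h7
      exact_mod_cast h7
    rw [Finset.sum_congr rfl fun k' _ => h3 k']
    simp
  have h := LinearMap.finrank_range_add_finrank_ker N
  rw [hker, hsurj, finrank_top, Module.finrank_fin_fun, Module.finrank_fintype_fun_eq_card] at h
  omega

theorem local_smooth {z₀ : F → ℂ} (hz : ∀ i, i ∉ Set.range V.s → z₀ i ≠ 0) {a₀ : F → ℝ}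
    {x₀ : Fin n → ℝ} (h : Sol ν κ z₀ a₀ x₀) :
    ∃ (a : (F → ℂ) → F → ℝ) (x : (F → ℂ) → Fin n → ℝ), ContDiffAt ℝ ∞ a z₀ ∧
      ContDiffAt ℝ ∞ x z₀ ∧ ∀ᶠ z in 𝓝 z₀, Sol ν κ z (a z) (x z) := by
  classical
  set p₀ : (F → ℂ) × (LL ν × (Fin n → ℝ)) := (z₀, ⟨a₀, h.1⟩, x₀) with hp₀
  have hC : ContDiffAt ℝ ∞ (Th ν κ) p₀ := (contDiff_Th ν κ).contDiffAt
  set T := fderiv ℝ (Th ν κ) p₀ with hTdef
  have hT : HasFDerivAt (Th ν κ) T p₀ :=
    ((contDiff_Th ν κ).differentiable (by simp)).differentiableAt.hasFDerivAt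
  have hinj : Function.Injective T := by
    rw [injective_iff_map_eq_zero]
    rintro ⟨dz, da, dx⟩ hv
    -- first component
    have h1 : dz = 0 := by
      have h2 : HasFDerivAt (fun q => (Th ν κ q).1) ((ContinuousLinearMap.fst ℝ _ _).comp T) p₀ :=
        hT.fst
      have h3 : HasFDerivAt (fun q : (F → ℂ) × (LL ν × (Fin n → ℝ)) => q.1)
          (ContinuousLinearMap.fst ℝ _ _) p₀ := hasFDerivAt_fst
      have h4 := h2.unique h3
      have h5 := congrArg (fun S => S (dz, da, dx)) h4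
      simp only [ContinuousLinearMap.comp_apply, hv] at h5
      exact h5.symm
    subst h1
    -- derivative along the line
    have h6 : ∀ i, 2 * (‖z₀ i‖ ^ 2 * Real.exp (2 * a₀ i)) * (da : F → ℝ) i =
        ∑ k, dx k * (ν i k : ℝ) := by
      intro i
      have hline : HasDerivAt (fun t : ℝ => p₀ + t • ((0 : F → ℂ), (da, dx)))
          ((0 : F → ℂ), (da, dx)) 0 := by
        have := ((hasDerivAt_id (0 : ℝ)).smul_const ((0 : F → ℂ), (da, dx))).const_add p₀
        simpa using this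
      have hT' : HasFDerivAt (Th ν κ) T (p₀ + (0 : ℝ) • ((0 : F → ℂ), (da, dx))) := by
        simpa using hT
      have h7 : HasDerivAt (Th ν κ ∘ fun t : ℝ => (p₀ + t • ((0 : F → ℂ), (da, dx))))
          (T ((0 : F → ℂ), (da, dx))) 0 := HasFDerivAt.comp_hasDerivAt (0 : ℝ) hT' hline
      rw [hv] at h7
      have h8 : HasDerivAt (fun t : ℝ => (Th ν κ (p₀ + t • ((0 : F → ℂ), (da, dx)))).2 i)
          0 0 := by
        have h9 := (hasDerivAt_pi.1 h7.snd) i
        exact h9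
      have h10 : HasDerivAt (fun t : ℝ => ‖z₀ i‖ ^ 2 * Real.exp (2 * (a₀ i + t * (da : F → ℝ) i)) -
          ell ν κ i (fun k => x₀ k + t * dx k))
          (‖z₀ i‖ ^ 2 * (Real.exp (2 * (a₀ i + 0 * (da : F → ℝ) i)) * (2 * (1 * (da : F → ℝ) i))) -
            ∑ k, (1 * dx k) * (ν i k : ℝ)) 0 := by
        refine HasDerivAt.sub ?_ ?_
        · exact ((((hasDerivAt_id (0 : ℝ)).mul_const _).const_add _).const_mul 2).exp.const_mul _
        · unfold ell
          refine HasDerivAt.add_const _ (HasDerivAt.fun_sum fun k _ => ?_)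
          exact (((hasDerivAt_id (0 : ℝ)).mul_const (dx k)).const_add (x₀ k)).mul_const _
      have h11 : (fun t : ℝ => (Th ν κ (p₀ + t • ((0 : F → ℂ), (da, dx)))).2 i) =
          fun t : ℝ => ‖z₀ i‖ ^ 2 * Real.exp (2 * (a₀ i + t * (da : F → ℝ) i)) -
          ell ν κ i (fun k => x₀ k + t * dx k) := by
        funext t
        simp [Th, hp₀, ell]
      rw [h11] at h8
      have h12 := h8.unique h10
      simp only [zero_mul, add_zero, one_mul] at h12
      linarith
    have h7 := V.key (p := fun i => 2 * (‖z₀ i‖ ^ 2 * Real.exp (2 * a₀ i))) (fun i => by positivity)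
      (fun i hi => by
        have := norm_pos_iff.2 (hz i hi)
        positivity) da.2 h6
    have h8 : da = 0 := Subtype.ext h7.1
    rw [h8, h7.2]
    rfl
  have hdim : Module.finrank ℝ ((F → ℂ) × (LL ν × (Fin n → ℝ))) =
      Module.finrank ℝ ((F → ℂ) × (F → ℝ)) := by
    rw [Module.finrank_prod, Module.finrank_prod, Module.finrank_prod, Module.finrank_fin_fun,
      V.finrank_LL, Module.finrank_fintype_fun_eq_card]
  let e : ((F → ℂ) × (LL ν × (Fin n → ℝ))) ≃L[ℝ] ((F → ℂ) × (F → ℝ)) :=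
    (LinearMap.linearEquivOfInjective (T : _ →ₗ[ℝ] _) hinj hdim).toContinuousLinearEquiv
  have he : (e : ((F → ℂ) × (LL ν × (Fin n → ℝ))) →L[ℝ] ((F → ℂ) × (F → ℝ))) = T :=
    ContinuousLinearMap.ext fun v => rfl
  have hT' : HasFDerivAt (Th ν κ) (e : _ →L[ℝ] _) p₀ := by rw [he]; exact hT
  have hn : (∞ : WithTop ℕ∞) ≠ 0 := by simp
  set G := hC.localInverse hT' hn with hG
  have hGs : ContDiffAt ℝ ∞ G (Th ν κ p₀) := hC.to_localInverse hT' hn
  have hval : Th ν κ p₀ = (z₀, 0) := by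
    simp only [Th, hp₀]
    congr 1
    funext i
    rw [h.2 i]
    simp
  rw [hval] at hGs
  have hright : ∀ᶠ q in 𝓝 (z₀, (0 : F → ℝ)), Th ν κ (G q) = q := by
    have := (hC.hasStrictFDerivAt' hT' hn).eventually_right_inverse
    rw [hval] at this
    exact this
  have hemb : ContDiffAt ℝ ∞ (fun z : F → ℂ => (z, (0 : F → ℝ))) z₀ :=
    (contDiff_id.prodMk contDiff_const).contDiffAt
  have hcomp : ContDiffAt ℝ ∞ (fun z : F → ℂ => G (z, (0 : F → ℝ))) z₀ := hGs.comp z₀ hemb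
  have ht : Tendsto (fun z : F → ℂ => (z, (0 : F → ℝ))) (𝓝 z₀) (𝓝 (z₀, (0 : F → ℝ))) :=
    hemb.continuousAt
  refine ⟨fun z => ((G (z, 0)).2.1 : F → ℝ), fun z => (G (z, 0)).2.2, ?_, ?_, ?_⟩
  · exact ((LL ν).subtypeL.contDiff).contDiffAt.comp z₀ (hcomp.snd.fst)
  · exact hcomp.snd.snd
  · filter_upwards [ht.eventually hright] with z hz'
    refine ⟨(G (z, 0)).2.1.2, fun i => ?_⟩
    have h1 : (G (z, 0)).1 = z := congrArg Prod.fst hz'
    have h2 := congrFun (congrArg Prod.snd hz') i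
    simp only [Th, Pi.zero_apply, h1] at h2
    linarith

end Vtx

theorem isOpen_Om {ν : F → Fin n → ℤ} {κ : F → ℝ} (h : IsDelzant ν κ) : IsOpen (Om ν κ) := by
  rw [isOpen_iff_mem_nhds]
  intro z hz
  obtain ⟨V, hV⟩ := h.exists_vtx hz
  have h1 : ∀ᶠ w in 𝓝 z, ∀ i, i ∉ Set.range V.s → w i ≠ 0 := by
    rw [eventually_all]
    intro i
    by_cases hi : i ∈ Set.range V.s
    · exact Eventually.of_forall fun _ h => absurd hi h
    · have h2 : ∀ᶠ w in 𝓝 z, w i ≠ 0 :=
        (continuous_apply i).continuousAt.eventually_ne (hV i hi)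
      exact h2.mono fun w h3 _ => h3
  exact h1.mono fun w hw => V.mem_Om hw

/-- The normalising vector and the moment map, as smooth functions on `Om`. -/
theorem exists_smooth {ν : F → Fin n → ℤ} {κ : F → ℝ} (h : IsDelzant ν κ) :
    ∃ (a : (F → ℂ) → F → ℝ) (x : (F → ℂ) → Fin n → ℝ), (∀ z ∈ Om ν κ, Sol ν κ z (a z) (x z)) ∧
      (∀ z ∈ Om ν κ, ContDiffAt ℝ ∞ a z) ∧ ∀ z ∈ Om ν κ, ContDiffAt ℝ ∞ x z := by
  classical
  have h1 : ∀ z ∈ Om ν κ, ∃ q : (F → ℝ) × (Fin n → ℝ), Sol ν κ z q.1 q.2 := by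
    intro z hz
    obtain ⟨V, hV⟩ := h.exists_vtx hz
    obtain ⟨a, x, h2⟩ := V.exists_sol hV
    exact ⟨(a, x), h2⟩
  choose! q hq using h1
  refine ⟨fun z => (q z).1, fun z => (q z).2, hq, ?_, ?_⟩ <;>
  · intro z hz
    obtain ⟨V, hV⟩ := h.exists_vtx hz
    obtain ⟨a, x, ha, hx, hs⟩ := V.local_smooth hV (hq z hz)
    have h2 : ∀ᶠ w in 𝓝 z, ∀ i, i ∉ Set.range V.s → w i ≠ 0 := by
      rw [eventually_all]
      intro i
      by_cases hi : i ∈ Set.range V.s
      · exact Eventually.of_forall fun _ h => absurd hi h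
      · have h2 : ∀ᶠ w in 𝓝 z, w i ≠ 0 :=
          (continuous_apply i).continuousAt.eventually_ne (hV i hi)
        exact h2.mono fun w h3 _ => h3
    have h3 : ∀ᶠ w in 𝓝 z, (q w).1 = a w ∧ (q w).2 = x w := by
      filter_upwards [hs, h2, (isOpen_Om h).mem_nhds hz] with w h4 h5 h6
      exact V.sol_unique h5 (hq w h6) h4
    first
    | exact ha.congr_of_eventuallyEq (h3.mono fun w hw => hw.1)
    | exact hx.congr_of_eventuallyEq (h3.mono fun w hw => hw.2)

end Pool.Agent.Y184.HS
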