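import Pool.Agent.Y184.HS.Defs

/-! Vertices of Delzant polytopes and the coordinates of the corresponding charts. -/

set_option autoImplicit false
set_option linter.unusedSectionVars false

open scoped Manifold ContDiff Topology

namespace Pool.Agent.Y184.HS

variable {n : ℕ} {F : Type} [Fintype F]

/-- A vertex of the polytope, with an enumeration of the facets through it. -/
structure Vtx (ν : F → Fin n → ℤ) (κ : F → ℝ) where
  y : Fin n → ℝ
  s : Fin n → F
  mem : y ∈ poly ν κ
  iff : ∀ i, ell ν κ i y = 0 ↔ i ∈ Set.range s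
  det : IsUnit (Matrix.of fun j k => ν (s j) k).det

namespace Vtx

variable {ν : F → Fin n → ℤ} {κ : F → ℝ} (V : Vtx ν κ)

/-- The matrix of the normals. -/
def A : Matrix (Fin n) (Fin n) ℤ := Matrix.of fun j k => ν (V.s j) k

/-- The coordinates of the `ν i` with respect to the basis at the vertex. -/
noncomputable def E (i : F) (l : Fin n) : ℤ := ∑ k, ν i k * V.A⁻¹ k l

theorem A_mul : V.A * V.A⁻¹ = 1 := Matrix.mul_nonsing_inv _ V.det

theorem mul_A : V.A⁻¹ * V.A = 1 := Matrix.nonsing_inv_mul _ V.det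

theorem E_s (j l : Fin n) : V.E (V.s j) l = if j = l then 1 else 0 := by
  have h := congrFun (congrFun V.A_mul j) l
  rw [Matrix.mul_apply] at h
  simp only [Matrix.one_apply] at h
  exact h

theorem E_s_self (j : Fin n) : V.E (V.s j) j = 1 := by simp [E_s]

theorem s_inj : Function.Injective V.s := by
  intro j l h
  by_contra hne
  have h1 := V.E_s j l
  rw [h, V.E_s l l] at h1
  simp [hne] at h1

theorem sum_E (i : F) (k : Fin n) : ∑ l, V.E i l * ν (V.s l) k = ν i k := by
  unfold E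
  simp only [Finset.sum_mul]
  rw [Finset.sum_comm]
  have h : ∀ k', ∑ l, ν i k' * V.A⁻¹ k' l * ν (V.s l) k = ν i k' * (if k' = k then 1 else 0) := by
    intro k'
    have h := congrFun (congrFun V.mul_A k') k
    rw [Matrix.mul_apply, Matrix.one_apply] at h
    rw [← h, Finset.mul_sum]
    refine Finset.sum_congr rfl fun l _ => ?_
    rw [mul_assoc]
    rfl
  rw [Finset.sum_congr rfl fun k' _ => h k']
  simp

/-- The elements of `ℝ^F` with `∑ a i ν i = 0` satisfy `∑ a i E i l = 0`. -/
theorem sum_mul_E {R : Type} [CommRing R] {a : F → R} (h : ∀ k, ∑ i, a i * (ν i k : R) = 0)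
    (l : Fin n) : ∑ i, a i * (V.E i l : R) = 0 := by
  have h1 : ∀ i, a i * (V.E i l : R) = ∑ k, a i * (ν i k : R) * (V.A⁻¹ k l : R) := by
    intro i
    unfold E
    push_cast
    rw [Finset.mul_sum]
    exact Finset.sum_congr rfl fun k _ => by ring
  rw [Finset.sum_congr rfl fun i _ => h1 i, Finset.sum_comm]
  refine Finset.sum_eq_zero fun k _ => ?_
  rw [← Finset.sum_mul, h k, zero_mul]

/-- The section of the chart: the coordinates which do not vanish are set to `1`. -/
noncomputable def sec (w : Fin n → ℂ) : F → ℂ := Function.extend V.s w 1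

@[simp] theorem sec_s (w : Fin n → ℂ) (j : Fin n) : V.sec w (V.s j) = w j :=
  V.s_inj.extend_apply _ _ _

theorem sec_not (w : Fin n → ℂ) {i : F} (h : i ∉ Set.range V.s) : V.sec w i = 1 :=
  Function.extend_apply' _ _ _ h

/-- The coordinates of the chart. -/
noncomputable def cor (z : F → ℂ) : Fin n → ℂ := fun l => ∏ i, z i ^ V.E i l

theorem cor_sec (w : Fin n → ℂ) : V.cor (V.sec w) = w := by
  classical
  funext l
  unfold cor
  rw [Finset.prod_eq_single (V.s l)]
  · rw [E_s_self, zpow_one, sec_s]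
  · intro i _ hi
    by_cases h : i ∈ Set.range V.s
    · obtain ⟨j, rfl⟩ := h
      have hjl : j ≠ l := fun h => hi (by rw [h])
      rw [E_s, if_neg hjl, zpow_zero]
    · rw [V.sec_not w h, one_zpow]
  · intro h
    exact absurd (Finset.mem_univ _) h

theorem prod_E {g : F → ℂ} (h0 : ∀ i, g i ≠ 0) (h : ∀ k, ∏ i, g i ^ ν i k = 1) (l : Fin n) :
    ∏ i, g i ^ V.E i l = 1 := by
  unfold E
  have h1 : ∀ i, g i ^ (∑ k, ν i k * V.A⁻¹ k l) = ∏ k, (g i ^ ν i k) ^ V.A⁻¹ k l := by
    intro i
    have : ∀ t : Finset (Fin n), g i ^ (∑ k ∈ t, ν i k * V.A⁻¹ k l) =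
        ∏ k ∈ t, (g i ^ ν i k) ^ V.A⁻¹ k l := by
      classical
      intro t
      induction t using Finset.induction_on with
      | empty => simp
      | insert k t hk ih =>
        rw [Finset.sum_insert hk, Finset.prod_insert hk, zpow_add₀ (h0 i), ih, zpow_mul]
    exact this _
  rw [Finset.prod_congr rfl fun i _ => h1 i, Finset.prod_comm]
  refine Finset.prod_eq_one fun k _ => ?_
  rw [Finset.prod_zpow, h k, one_zpow]

theorem cor_rel {z w : F → ℂ} (h : Rel ν z w) : V.cor z = V.cor w := by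
  obtain ⟨g, h0, h1, h2⟩ := h
  funext l
  unfold cor
  have h3 : ∀ i ∈ (Finset.univ : Finset F), w i ^ V.E i l = g i ^ V.E i l * z i ^ V.E i l :=
    fun i _ => by rw [h2 i, mul_zpow]
  rw [Finset.prod_congr rfl h3, Finset.prod_mul_distrib, V.prod_E h0 h1 l, one_mul]

/-- The element of the torus which carries `sec (cor z)` to `z`. -/
noncomputable def lift (z : F → ℂ) : F → ℂ := fun i =>
  haveI := Classical.propDecidable
  if i ∈ Set.range V.s then ∏ j, (if j ∈ Set.range V.s then 1 else z j ^ (-∑ l, V.E j l *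
    (if V.s l = i then 1 else 0))) else z i

theorem lift_not (z : F → ℂ) {i : F} (h : i ∉ Set.range V.s) : V.lift z i = z i := by
  unfold lift
  rw [if_neg h]

open Classical in
theorem lift_s (z : F → ℂ) (l : Fin n) :
    V.lift z (V.s l) = ∏ j, (if j ∈ Set.range V.s then 1 else z j ^ (-V.E j l)) := by
  unfold lift
  rw [if_pos ⟨l, rfl⟩]
  refine Finset.prod_congr rfl fun j _ => ?_
  split_ifs with h
  · rfl
  · congr 2
    rw [Finset.sum_eq_single l]
    · simp
    · intro l' _ hl'
      rw [if_neg fun h => hl' (V.s_inj h), mul_zero]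
    · intro h
      exact absurd (Finset.mem_univ _) h

theorem lift_ne {z : F → ℂ} (hz : ∀ i, i ∉ Set.range V.s → z i ≠ 0) (i : F) : V.lift z i ≠ 0 := by
  classical
  by_cases h : i ∈ Set.range V.s
  · obtain ⟨l, rfl⟩ := h
    rw [lift_s]
    refine Finset.prod_ne_zero_iff.2 fun j _ => ?_
    split_ifs with h
    · exact one_ne_zero
    · exact zpow_ne_zero _ (hz j h)
  · rw [V.lift_not z h]
    exact hz i h

open Classical in
theorem prod_split {M : Type} [CommMonoid M] (f : F → M) :
    ∏ i, f i = (∏ l, f (V.s l)) * ∏ i, (if i ∈ Set.range V.s then 1 else f i) := by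
  have h1 : ∏ i, f i = (∏ i, if i ∈ Set.range V.s then f i else 1) *
      ∏ i, (if i ∈ Set.range V.s then 1 else f i) := by
    rw [← Finset.prod_mul_distrib]
    refine Finset.prod_congr rfl fun i _ => ?_
    split_ifs <;> simp
  rw [h1]
  congr 1
  rw [← Finset.prod_filter]
  have h2 : Finset.univ.filter (fun i => i ∈ Set.range V.s) = Finset.univ.image V.s := by
    ext i
    simp
  rw [h2, Finset.prod_image fun a _ b _ h => V.s_inj h]

theorem lift_mem {z : F → ℂ} (hz : ∀ i, i ∉ Set.range V.s → z i ≠ 0) (k : Fin n) :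
    ∏ i, V.lift z i ^ ν i k = 1 := by
  classical
  rw [V.prod_split]
  have h1 : ∀ l, V.lift z (V.s l) ^ ν (V.s l) k =
      ∏ j, (if j ∈ Set.range V.s then 1 else z j ^ (-(V.E j l * ν (V.s l) k))) := by
    intro l
    rw [lift_s, ← Finset.prod_zpow]
    refine Finset.prod_congr rfl fun j _ => ?_
    split_ifs with h
    · exact one_zpow _
    · rw [← zpow_mul]
      congr 1
      ring
  rw [Finset.prod_congr rfl fun l _ => h1 l, Finset.prod_comm, ← Finset.prod_mul_distrib]
  refine Finset.prod_eq_one fun j _ => ?_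
  by_cases h : j ∈ Set.range V.s
  · simp [h]
  · simp only [h, if_false]
    rw [V.lift_not z h]
    have h2 : ∀ t : Finset (Fin n), ∏ l ∈ t, z j ^ (-(V.E j l * ν (V.s l) k)) =
        z j ^ (-∑ l ∈ t, V.E j l * ν (V.s l) k) := by
      intro t
      induction t using Finset.induction_on with
      | empty => simp
      | insert k t hk ih =>
        rw [Finset.sum_insert hk, Finset.prod_insert hk, neg_add, zpow_add₀ (hz j h), ih]
    rw [h2, V.sum_E, ← zpow_add₀ (hz j h), neg_add_cancel, zpow_zero]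

theorem rel_sec {z : F → ℂ} (hz : ∀ i, i ∉ Set.range V.s → z i ≠ 0) :
    Rel ν (V.sec (V.cor z)) z := by
  classical
  refine ⟨V.lift z, V.lift_ne hz, V.lift_mem hz, fun i => ?_⟩
  by_cases h : i ∈ Set.range V.s
  · obtain ⟨l, rfl⟩ := h
    rw [sec_s, lift_s]
    unfold cor
    rw [V.prod_split (fun i => z i ^ V.E i l)]
    have h1 : ∏ l', z (V.s l') ^ V.E (V.s l') l = z (V.s l) := by
      rw [Finset.prod_eq_single l]
      · rw [E_s_self, zpow_one]
      · intro l' _ hl'
        rw [E_s, if_neg hl', zpow_zero]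
      · intro h
        exact absurd (Finset.mem_univ _) h
    rw [h1, mul_comm (z (V.s l)), ← mul_assoc, ← Finset.prod_mul_distrib]
    have h2 : ∏ j, ((if j ∈ Set.range V.s then 1 else z j ^ (-V.E j l)) *
        (if j ∈ Set.range V.s then 1 else z j ^ V.E j l)) = 1 := by
      refine Finset.prod_eq_one fun j _ => ?_
      split_ifs with h
      · exact one_mul 1
      · rw [← zpow_add₀ (hz j h), neg_add_cancel, zpow_zero]
    rw [h2, one_mul]
  · rw [V.lift_not z h, V.sec_not _ h, mul_one]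

theorem ell_pos {i : F} (h : i ∉ Set.range V.s) : 0 < ell ν κ i V.y :=
  lt_of_le_of_ne (V.mem i) fun h1 => h ((V.iff i).1 h1.symm)

theorem ell_s (j : Fin n) : ell ν κ (V.s j) V.y = 0 := (V.iff _).2 ⟨j, rfl⟩

end Vtx

theorem IsDelzant.exists_vtx {ν : F → Fin n → ℤ} {κ : F → ℝ} (h : IsDelzant ν κ) {z : F → ℂ}
    (hz : z ∈ Om ν κ) : ∃ V : Vtx ν κ, ∀ i, i ∉ Set.range V.s → z i ≠ 0 := by
  obtain ⟨x, hx, hx'⟩ := hz
  obtain ⟨y, hy, h1, s, h2, h3⟩ := h.vertex x hx
  exact ⟨⟨y, s, hy, h2, h3⟩, fun i hi h0 => hi ((h2 i).1 (h1 i (hx' i h0)))⟩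

theorem Vtx.mem_Om {ν : F → Fin n → ℤ} {κ : F → ℝ} (V : Vtx ν κ) {z : F → ℂ}
    (hz : ∀ i, i ∉ Set.range V.s → z i ≠ 0) : z ∈ Om ν κ :=
  ⟨V.y, V.mem, fun i h => by
    by_contra h1
    exact hz i (fun h2 => h1 ((V.iff i).2 h2)) h⟩

theorem Vtx.sec_mem {ν : F → Fin n → ℤ} {κ : F → ℝ} (V : Vtx ν κ) (w : Fin n → ℂ) :
    V.sec w ∈ Om ν κ :=
  V.mem_Om fun i hi => by rw [V.sec_not w hi]; exact one_ne_zero

end Pool.Agent.Y184.HS
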