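import Pool.Agent.Y184.HS.Defs

/-! Wirtinger calculus in one variable, and along holomorphic curves. -/

set_option autoImplicit false
set_option linter.unusedSectionVars false

open scoped Manifold ContDiff Topology ComplexConjugate
open Filter Set

namespace Pool.Agent.Y184.HS

/-- The real linear map `s ↦ a s + b s̄`. -/
noncomputable def wl (a b : ℂ) : ℂ →L[ℝ] ℂ :=
  a • (1 : ℂ →L[ℝ] ℂ) + b • (Complex.conjCLE : ℂ →L[ℝ] ℂ)

@[simp] theorem wl_apply (a b s : ℂ) : wl a b s = a * s + b * conj s := by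
  simp [wl]

/-- `∂f/∂t = a` and `∂f/∂t̄ = b` at `t`. -/
def HasW (f : ℂ → ℂ) (a b : ℂ) (t : ℂ) : Prop := HasFDerivAt f (wl a b) t

/-- `∂f/∂t`. -/
noncomputable def D (f : ℂ → ℂ) (t : ℂ) : ℂ :=
  (fderiv ℝ f t 1 - Complex.I * fderiv ℝ f t Complex.I) / 2

/-- `∂f/∂t̄`. -/
noncomputable def Db (f : ℂ → ℂ) (t : ℂ) : ℂ :=
  (fderiv ℝ f t 1 + Complex.I * fderiv ℝ f t Complex.I) / 2

theorem HasW.D_eq {f : ℂ → ℂ} {a b t : ℂ} (h : HasW f a b t) : D f t = a := by
  unfold D
  rw [h.fderiv]
  simp only [wl_apply, map_one, Complex.conj_I, mul_one]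
  have := Complex.I_mul_I
  linear_combination (-a / 2 + b / 2) * this

theorem HasW.Db_eq {f : ℂ → ℂ} {a b t : ℂ} (h : HasW f a b t) : Db f t = b := by
  unfold Db
  rw [h.fderiv]
  simp only [wl_apply, map_one, Complex.conj_I, mul_one]
  have := Complex.I_mul_I
  linear_combination (a / 2 - b / 2) * this

theorem HasW.congr_of_eventuallyEq {f g : ℂ → ℂ} {a b t : ℂ} (h : HasW f a b t)
    (hg : g =ᶠ[𝓝 t] f) : HasW g a b t :=
  HasFDerivAt.congr_of_eventuallyEq h hg

theorem hasW_const (c t : ℂ) : HasW (fun _ => c) 0 0 t := by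
  unfold HasW
  convert hasFDerivAt_const c t using 1
  ext s
  simp

theorem HasW.add {f g : ℂ → ℂ} {a b c d t : ℂ} (h : HasW f a b t) (h' : HasW g c d t) :
    HasW (fun s => f s + g s) (a + c) (b + d) t := by
  unfold HasW at *
  have := HasFDerivAt.fun_add h h'
  refine this.congr_fderiv ?_
  ext s
  simp
  ring

theorem HasW.neg {f : ℂ → ℂ} {a b t : ℂ} (h : HasW f a b t) :
    HasW (fun s => - f s) (-a) (-b) t := by
  unfold HasW at *
  have := HasFDerivAt.fun_neg h
  refine this.congr_fderiv ?_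
  ext s
  simp
  ring

theorem HasW.sub {f g : ℂ → ℂ} {a b c d t : ℂ} (h : HasW f a b t) (h' : HasW g c d t) :
    HasW (fun s => f s - g s) (a - c) (b - d) t := by
  have := h.add h'.neg
  simpa [sub_eq_add_neg] using this

theorem HasW.mul {f g : ℂ → ℂ} {a b c d t : ℂ} (h : HasW f a b t) (h' : HasW g c d t) :
    HasW (fun s => f s * g s) (a * g t + f t * c) (b * g t + f t * d) t := by
  unfold HasW at *
  have := HasFDerivAt.fun_mul h h'
  refine this.congr_fderiv ?_
  ext s
  simp
  ring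

theorem HasW.sum {ι : Type} (u : Finset ι) {f : ι → ℂ → ℂ} {a b : ι → ℂ} {t : ℂ}
    (h : ∀ i ∈ u, HasW (f i) (a i) (b i) t) :
    HasW (fun s => ∑ i ∈ u, f i s) (∑ i ∈ u, a i) (∑ i ∈ u, b i) t := by
  classical
  induction u using Finset.induction_on with
  | empty => simpa using hasW_const 0 t
  | insert i u hi ih =>
    simp only [Finset.sum_insert hi]
    exact (h i (Finset.mem_insert_self _ _)).add
      (ih fun j hj => h j (Finset.mem_insert_of_mem hj))

theorem HasW.conj {f : ℂ → ℂ} {a b t : ℂ} (h : HasW f a b t) :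
    HasW (fun s => conj (f s)) (conj b) (conj a) t := by
  unfold HasW at *
  have h1 : HasFDerivAt (fun s => (Complex.conjCLE : ℂ →L[ℝ] ℂ) (f s))
      ((Complex.conjCLE : ℂ →L[ℝ] ℂ).comp (wl a b)) t :=
    (Complex.conjCLE : ℂ →L[ℝ] ℂ).hasFDerivAt.comp t h
  refine h1.congr_fderiv ?_
  ext s
  simp
  ring

theorem HasDerivAt.hasW {f : ℂ → ℂ} {a t : ℂ} (h : HasDerivAt f a t) : HasW f a 0 t := by
  unfold HasW
  have h1 := h.hasFDerivAt.restrictScalars ℝ
  refine h1.congr_fderiv ?_
  ext s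
  simp [mul_comm]

theorem HasW.comp_holo {f : ℂ → ℂ} {a b t c : ℂ} {G : ℂ → ℂ} (h : HasW f a b t)
    (hG : HasDerivAt G c (f t)) : HasW (fun s => G (f s)) (c * a) (c * b) t := by
  unfold HasW at *
  have h1 := (hG.hasFDerivAt.restrictScalars ℝ).comp t h
  refine h1.congr_fderiv ?_
  ext s
  simp
  ring

theorem hasW_of_differentiableAt {f : ℂ → ℂ} {t : ℂ} (h : DifferentiableAt ℝ f t) :
    HasW f (D f t) (Db f t) t := by
  unfold HasW
  refine h.hasFDerivAt.congr_fderiv ?_
  ext s
  have h1 : s = s.re • (1 : ℂ) + s.im • Complex.I := by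
    simp only [Complex.real_smul, mul_one]
    exact (Complex.re_add_im s).symm
  have h2 : fderiv ℝ f t s = s.re • fderiv ℝ f t 1 + s.im • fderiv ℝ f t Complex.I := by
    conv_lhs => rw [h1]
    rw [map_add, map_smul, map_smul]
  have h3 : conj s = s.re - s.im * Complex.I := by
    apply Complex.ext <;> simp
  rw [h2, wl_apply, h3]
  unfold D Db
  simp only [Complex.real_smul]
  have h4 : s = s.re + s.im * Complex.I := (Complex.re_add_im s).symm
  conv_rhs => rw [h4]
  simp only [Complex.add_re, Complex.ofReal_re, Complex.mul_re, Complex.I_re, mul_zero,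
    Complex.ofReal_im, Complex.I_im, mul_one, sub_self, add_zero, Complex.add_im, Complex.mul_im,
    zero_add]
  have := Complex.I_mul_I
  linear_combination ((s.im : ℂ) * fderiv ℝ f t Complex.I) * this

/-! ### Several variables -/

section Several

variable {n : ℕ}

/-- `∑ v k ∂f/∂z_k`. -/
noncomputable def W (f : (Fin n → ℂ) → ℂ) (w v : Fin n → ℂ) : ℂ := ∑ k, v k * dz k f w

/-- `∑ v̄ k ∂f/∂z̄_k`. -/
noncomputable def Wb (f : (Fin n → ℂ) → ℂ) (w v : Fin n → ℂ) : ℂ := ∑ k, conj (v k) * dzbar k f w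

theorem fderiv_eq_W (f : (Fin n → ℂ) → ℂ) (w v : Fin n → ℂ) :
    fderiv ℝ f w v = W f w v + Wb f w v := by
  classical
  have h1 : v = ∑ k, ((v k).re • (Pi.single k 1 : Fin n → ℂ) +
      (v k).im • (Pi.single k Complex.I : Fin n → ℂ)) := by
    funext j
    rw [Finset.sum_apply]
    simp only [Pi.add_apply, Pi.smul_apply]
    rw [Finset.sum_eq_single j]
    · simp only [Pi.single_eq_same, Complex.real_smul, mul_one]
      exact (Complex.re_add_im _).symm
    · intro k _ hk
      simp [Pi.single_eq_of_ne (Ne.symm hk)]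
    · intro h
      exact absurd (Finset.mem_univ _) h
  have h2 : fderiv ℝ f w v = ∑ k, ((v k).re • fderiv ℝ f w (Pi.single k 1) +
      (v k).im • fderiv ℝ f w (Pi.single k Complex.I)) := by
    conv_lhs => rw [h1]
    rw [map_sum]
    refine Finset.sum_congr rfl fun k _ => ?_
    rw [map_add, map_smul, map_smul]
  rw [h2]
  unfold W Wb
  rw [← Finset.sum_add_distrib]
  refine Finset.sum_congr rfl fun k _ => ?_
  unfold dz dzbar
  have h3 : conj (v k) = (v k).re - (v k).im * Complex.I := by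
    apply Complex.ext <;> simp
  have h4 : v k = (v k).re + (v k).im * Complex.I := (Complex.re_add_im _).symm
  rw [h3]
  simp only [Complex.real_smul]
  have := Complex.I_mul_I
  generalize hA : fderiv ℝ f w (Pi.single k 1) = A
  generalize hB : fderiv ℝ f w (Pi.single k Complex.I) = B
  generalize hr : ((v k).re : ℂ) = r at *
  generalize hm : ((v k).im : ℂ) = m at *
  rw [h4]
  linear_combination (m * B) * this

theorem W_smul (f : (Fin n → ℂ) → ℂ) (w v : Fin n → ℂ) (c : ℂ) : W f w (c • v) = c * W f w v := by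
  unfold W
  rw [Finset.mul_sum]
  exact Finset.sum_congr rfl fun k _ => by simp [mul_assoc]

theorem Wb_smul (f : (Fin n → ℂ) → ℂ) (w v : Fin n → ℂ) (c : ℂ) :
    Wb f w (c • v) = conj c * Wb f w v := by
  unfold Wb
  rw [Finset.mul_sum]
  exact Finset.sum_congr rfl fun k _ => by simp [mul_assoc]

/-- The chain rule along holomorphic curves. -/
theorem hasW_comp {G : (Fin n → ℂ) → ℂ} {f : ℂ → Fin n → ℂ} {t : ℂ} {v : Fin n → ℂ}
    (hf : HasDerivAt f v t) (hG : DifferentiableAt ℝ G (f t)) :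
    HasW (fun s => G (f s)) (W G (f t) v) (Wb G (f t) v) t := by
  unfold HasW
  have h1 := hG.hasFDerivAt.comp t (hf.hasFDerivAt.restrictScalars ℝ)
  refine h1.congr_fderiv ?_
  ext s
  have h2 : ((fderiv ℝ G (f t)).comp
      ((ContinuousLinearMap.toSpanSingleton ℂ v).restrictScalars ℝ)) s =
      fderiv ℝ G (f t) (s • v) := by
    simp
  refine Eq.trans (b := fderiv ℝ G (f t) (s • v)) ?_ ?_
  · simp
  · rw [fderiv_eq_W, W_smul, Wb_smul, wl_apply]
    ring

end Several

end Pool.Agent.Y184.HS
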